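import Pool.Graph.R_seed8.H433R3.Sep3

/-!
Separated bumps, all exponents: geometric sums and the Carleson embedding along records in `L^p`.
-/

set_option autoImplicit false
set_option linter.unusedSectionVars false
set_option linter.unusedVariables false

namespace Pool.Agent.KS6_4.SB

open Finset Pool.Agent.H433R3.Sep

variable {X : Type*} [Fintype X] [DecidableEq X]

lemma geoBase {β : ℝ} (hβ : 1 < β) (J : Finset ℤ) : ∀ a : ℤ, (∀ j ∈ J, j < a) →
    ∑ j ∈ J, β ^ j ≤ β ^ a / (β - 1) := by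
  classical
  have hβ0 : 0 < β := by linarith
  have hβ1 : 0 < β - 1 := by linarith
  induction J using Finset.induction_on_max with
  | empty => intro a _; simp; positivity
  | insert b J' hb ih =>
    intro a ha
    have hbn : b ∉ J' := fun h => lt_irrefl _ (hb b h)
    rw [Finset.sum_insert hbn]
    have h1 := ih b hb
    have h2 : b + 1 ≤ a := ha b (Finset.mem_insert_self _ _)
    have h3 : β ^ (b + 1) ≤ β ^ a := zpow_le_zpow_right₀ hβ.le h2
    have h4 : β ^ (b + 1) = β ^ b * β := by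
      rw [zpow_add₀ hβ0.ne', zpow_one]
    calc β ^ b + ∑ j ∈ J', β ^ j ≤ β ^ b + β ^ b / (β - 1) := by linarith
      _ = β ^ (b + 1) / (β - 1) := by rw [h4]; field_simp; ring
      _ ≤ _ := div_le_div_of_nonneg_right h3 hβ1.le

lemma zpow_rpow (k : ℤ) (s : ℝ) : ((2:ℝ) ^ k) ^ s = ((2:ℝ) ^ s) ^ k := by
  rw [← Real.rpow_intCast, ← Real.rpow_mul (by norm_num), ← Real.rpow_intCast ((2:ℝ) ^ s),
    ← Real.rpow_mul (by norm_num), mul_comm]

lemma two_rpow_gt {s : ℝ} (hs : 0 < s) : 1 < (2:ℝ) ^ s := Real.one_lt_rpow (by norm_num) hs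

/-- the constant of the geometric sums -/
noncomputable def gc (s : ℝ) : ℝ := (2:ℝ) ^ s / ((2:ℝ) ^ s - 1)

lemma gc_pos {s : ℝ} (hs : 0 < s) : 0 < gc s := by
  have := two_rpow_gt hs
  exact div_pos (by linarith) (by linarith)

/-- geometric sums along an injective family of exponents -/
lemma geo3 {ι : Type*} (T : Finset ι) (k : ι → ℤ)
    (hinj : ∀ a ∈ T, ∀ b ∈ T, k a = k b → a = b) {s t : ℝ} (hs : 0 < s) (ht : 0 < t) :
    (∑ a ∈ T, ((2:ℝ) ^ k a) ^ s) ^ t ≤ gc s ^ t * ∑ a ∈ T, ((2:ℝ) ^ k a) ^ (s * t) := by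
  classical
  rcases T.eq_empty_or_nonempty with h | h
  · subst h
    rw [Finset.sum_empty, Finset.sum_empty, Real.zero_rpow ht.ne', mul_zero]
  · obtain ⟨M, hM, hMmax⟩ := Finset.exists_max_image T k h
    have hβ := two_rpow_gt hs
    have h1 : ∑ j ∈ T.image k, ((2:ℝ) ^ s) ^ j = ∑ a ∈ T, ((2:ℝ) ^ k a) ^ s := by
      rw [Finset.sum_image (fun a ha b hb h => hinj a ha b hb h)]
      exact Finset.sum_congr rfl (fun a _ => (zpow_rpow _ _).symm)
    have h2 : ∑ j ∈ T.image k, ((2:ℝ) ^ s) ^ j ≤ ((2:ℝ) ^ s) ^ (k M + 1) / ((2:ℝ) ^ s - 1) := by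
      apply geoBase hβ
      intro j hj
      obtain ⟨a, ha, rfl⟩ := Finset.mem_image.1 hj
      have := hMmax a ha
      omega
    have h3 : ((2:ℝ) ^ s) ^ (k M + 1) / ((2:ℝ) ^ s - 1) = gc s * ((2:ℝ) ^ k M) ^ s := by
      rw [zpow_add₀ (by positivity), zpow_one, zpow_rpow, gc]
      ring
    have h0 : 0 ≤ ∑ a ∈ T, ((2:ℝ) ^ k a) ^ s := Finset.sum_nonneg (fun a _ => by positivity)
    have hg := gc_pos hs
    calc (∑ a ∈ T, ((2:ℝ) ^ k a) ^ s) ^ t ≤ (gc s * ((2:ℝ) ^ k M) ^ s) ^ t := by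
          apply Real.rpow_le_rpow h0 _ ht.le
          rw [← h1, ← h3]; exact h2
      _ = gc s ^ t * ((2:ℝ) ^ k M) ^ (s * t) := by
          rw [Real.mul_rpow hg.le (by positivity), ← Real.rpow_mul (by positivity)]
      _ ≤ _ := by
          apply mul_le_mul_of_nonneg_left _ (by positivity)
          exact Finset.single_le_sum (f := fun a => ((2:ℝ) ^ k a) ^ (s * t))
            (fun a _ => by positivity) hM

/-- the constant of the Carleson embedding -/
noncomputable def cc (p : ℝ) : ℝ := 2 * (2 * ((2:ℝ) ^ (p - 1) * gc (p - 1))) ^ p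

lemma cc_pos {p : ℝ} (hp : 1 < p) : 0 < cc p := by
  have := gc_pos (s := p - 1) (by linarith)
  unfold cc; positivity

lemma young {a b p q : ℝ} (ha : 0 ≤ a) (hb : 0 ≤ b) (h : p.HolderConjugate q) :
    a * b ≤ a ^ p + b ^ q := by
  have h1 := Real.young_inequality_of_nonneg ha hb h
  have h2 : a ^ p / p ≤ a ^ p := div_le_self (by positivity) h.lt.le
  have h3 : b ^ q / q ≤ b ^ q := div_le_self (by positivity) h.symm.lt.le
  linarith

/-- Carleson embedding along the records of the averages. -/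
lemma carleson_rec (S : Finset (Finset X)) (hS : Lam S) (μ f : X → ℝ) (hμ : ∀ x, 0 ≤ μ x)
    (hf : ∀ x, 0 ≤ f x) (a : Finset X → ℝ) (ha : ∀ Q ∈ S, 0 < a Q)
    (haI : ∀ Q ∈ S, a Q * ∑ x ∈ Q, μ x = ∑ x ∈ Q, f x * μ x)
    (R : Finset (Finset X)) (hR : ∀ F ∈ R, IsRec S (fun Q => Int.log 2 (a Q)) F)
    {p q : ℝ} (h : p.HolderConjugate q) :
    ∑ F ∈ R, a F ^ p * ∑ x ∈ F, μ x ≤ cc p * ∑ x, f x ^ p * μ x := by
  classical
  have hp := h.lt
  have hq := h.symm.lt
  set s := p - 1 with hs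
  have hs0 : 0 < s := by rw [hs]; linarith
  have hsq : s * q = p := by
    have := h.sub_one_mul_conj
    rw [hs]; exact this
  set C₁ := (2:ℝ) ^ s * gc s with hC₁
  have hg := gc_pos hs0
  have hC₁0 : 0 < C₁ := by positivity
  have hRa : ∀ F ∈ R, 0 < a F := fun F hF => ha F (hR F hF).1
  set A := ∑ F ∈ R, a F ^ p * ∑ x ∈ F, μ x with hA
  have h1 : A = ∑ x, (∑ F ∈ R with x ∈ F, a F ^ s) * (f x * μ x) := by
    rw [hA, ← sum_swap]
    apply Finset.sum_congr rfl
    intro F hF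
    rw [← haI F (hR F hF).1]
    have : a F ^ p = a F ^ s * a F := by
      rw [← Real.rpow_add_one (hRa F hF).ne', hs]; congr 1; ring
    rw [this]; ring
  have h2 : A = ∑ x, (∑ F ∈ R with x ∈ F, a F ^ p) * μ x := by
    rw [hA, ← sum_swap]
  have hpt : ∀ x, (∑ F ∈ R with x ∈ F, a F ^ s) ^ q ≤ C₁ ^ q * ∑ F ∈ R with x ∈ F, a F ^ p := by
    intro x
    have hinj : ∀ F ∈ R.filter (fun F => x ∈ F), ∀ G ∈ R.filter (fun F => x ∈ F),
        Int.log 2 (a F) = Int.log 2 (a G) → F = G := by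
      intro F hF G hG hFG
      simp only [Finset.mem_filter] at hF hG
      have hF' := hR F hF.1
      have hG' := hR G hG.1
      rcases hS.comp hF'.1 hG'.1 hF.2 hG.2 with h | h
      · rcases eq_or_ssubset_of_subset h with h | h
        · exact h
        · have := hF'.2 G hG'.1 h
          simp only at this
          omega
      · have := hG'.2 F hF'.1 h
        simp only at this
        omega
    have g3 := geo3 (R.filter (fun F => x ∈ F)) (fun F => Int.log 2 (a F)) hinj hs0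
      (t := q) (by linarith)
    rw [hsq] at g3
    have h3 : ∑ F ∈ R with x ∈ F, a F ^ s ≤
        (2:ℝ) ^ s * ∑ F ∈ R with x ∈ F, ((2:ℝ) ^ Int.log 2 (a F)) ^ s := by
      rw [Finset.mul_sum]
      apply Finset.sum_le_sum
      intro F hF
      simp only [Finset.mem_filter] at hF
      have := (Int.lt_zpow_succ_log_self (b := 2) (by norm_num) (a F)).le
      rw [zpow_add₀ (by norm_num)] at this
      push_cast at this
      rw [← Real.mul_rpow (by norm_num) (by positivity)]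
      apply Real.rpow_le_rpow (hRa F hF.1).le _ hs0.le
      linarith
    have h4 : ∑ F ∈ R with x ∈ F, ((2:ℝ) ^ Int.log 2 (a F)) ^ p ≤ ∑ F ∈ R with x ∈ F, a F ^ p := by
      apply Finset.sum_le_sum
      intro F hF
      simp only [Finset.mem_filter] at hF
      have := Int.zpow_log_le_self (b := 2) (by norm_num) (ha F (hR F hF.1).1)
      push_cast at this
      exact Real.rpow_le_rpow (by positivity) this (by linarith)
    have h0 : 0 ≤ ∑ F ∈ R with x ∈ F, a F ^ s := Finset.sum_nonneg (fun F hF => by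
      simp only [Finset.mem_filter] at hF
      exact Real.rpow_nonneg (hRa F hF.1).le _)
    have h5 : 0 ≤ ∑ F ∈ R with x ∈ F, ((2:ℝ) ^ Int.log 2 (a F)) ^ s :=
      Finset.sum_nonneg (fun F _ => by positivity)
    calc (∑ F ∈ R with x ∈ F, a F ^ s) ^ q
        ≤ ((2:ℝ) ^ s * ∑ F ∈ R with x ∈ F, ((2:ℝ) ^ Int.log 2 (a F)) ^ s) ^ q :=
          Real.rpow_le_rpow h0 h3 (by linarith)
      _ = ((2:ℝ) ^ s) ^ q * (∑ F ∈ R with x ∈ F, ((2:ℝ) ^ Int.log 2 (a F)) ^ s) ^ q :=
          Real.mul_rpow (by positivity) h5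
      _ ≤ ((2:ℝ) ^ s) ^ q * (gc s ^ q * ∑ F ∈ R with x ∈ F, a F ^ p) := by
          apply mul_le_mul_of_nonneg_left _ (by positivity)
          exact g3.trans (mul_le_mul_of_nonneg_left h4 (by positivity))
      _ = _ := by
          rw [hC₁, Real.mul_rpow (by positivity) hg.le]; ring
  set L := 2 * C₁ with hL
  have hL0 : 0 < L := by positivity
  have h5 : A ≤ ∑ x, (L ^ p * f x ^ p + (1/2) * ∑ F ∈ R with x ∈ F, a F ^ p) * μ x := by
    rw [h1]
    apply Finset.sum_le_sum
    intro x _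
    have hx := hpt x
    rw [← mul_assoc]
    apply mul_le_mul_of_nonneg_right _ (hμ x)
    set B := ∑ F ∈ R with x ∈ F, a F ^ s with hB
    have hB0 : 0 ≤ B := Finset.sum_nonneg (fun F hF => by
      simp only [Finset.mem_filter] at hF
      exact Real.rpow_nonneg (hRa F hF.1).le _)
    have hD0 : 0 ≤ ∑ F ∈ R with x ∈ F, a F ^ p := Finset.sum_nonneg (fun F hF => by
      simp only [Finset.mem_filter] at hF
      exact Real.rpow_nonneg (hRa F hF.1).le _)
    have e1 : B * f x = (L * f x) * (B / L) := by field_simp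
    have e2 := young (a := L * f x) (b := B / L) (mul_nonneg hL0.le (hf x))
      (div_nonneg hB0 hL0.le) h
    have e3 : (B / L) ^ q ≤ (1/2) * ∑ F ∈ R with x ∈ F, a F ^ p := by
      rw [Real.div_rpow hB0 hL0.le, hL, Real.mul_rpow (by norm_num) hC₁0.le]
      rw [div_le_iff₀ (by positivity)]
      refine hx.trans ?_
      have e4 : (2:ℝ) ≤ 2 ^ q := by
        calc (2:ℝ) = 2 ^ (1:ℝ) := by norm_num
          _ ≤ 2 ^ q := Real.rpow_le_rpow_of_exponent_le (by norm_num) hq.le
      have e5 : 0 ≤ C₁ ^ q * ∑ F ∈ R with x ∈ F, a F ^ p := mul_nonneg (by positivity) hD0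
      nlinarith
    rw [e1]
    refine e2.trans ?_
    rw [Real.mul_rpow hL0.le (hf x)]
    linarith
  have h6 : ∑ x, (L ^ p * f x ^ p + (1/2) * ∑ F ∈ R with x ∈ F, a F ^ p) * μ x
      = L ^ p * ∑ x, f x ^ p * μ x + (1/2) * A := by
    rw [h2, Finset.mul_sum, Finset.mul_sum, ← Finset.sum_add_distrib]
    apply Finset.sum_congr rfl
    intro x _; ring
  rw [h6] at h5
  have h7 : cc p = 2 * L ^ p := by rw [cc]
  rw [h7]
  linarith

end Pool.Agent.KS6_4.SB
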