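import Pool.Agent.KS6_4.SB.A5

/-!
Separated bumps, all exponents: the discrete theorem in operator form.
-/

set_option autoImplicit false
set_option linter.unusedSectionVars false
set_option linter.unusedVariables false

namespace Pool.Agent.KS6_4.SB

open Finset Pool.Agent.H433R3.Sep

variable {X : Type*} [Fintype X] [DecidableEq X]

lemma av_div (m μ : X → ℝ) (K : ℝ) (Q : Finset X) :
    av m (fun x => μ x / K) Q = av m μ Q / K := by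
  unfold av
  rw [← Finset.sum_div]
  ring

/-- The discrete separated bump theorem in operator form. -/
theorem discreteOp {S : Finset (Finset X)} {m μ ν : X → ℝ} {ρ₁ ρ₂ : Finset X → ℝ} {p q η K : ℝ}
    (hpq : p.HolderConjugate q)
    (hK : 1 ≤ K) (hη2 : 2 ≤ η) (hηp : (16:ℝ) ^ (p - 1) ≤ η) (hηq : (16:ℝ) ^ (q - 1) ≤ η)
    (lam : Lam S)
    (hm : ∀ x, 0 ≤ m x)
    (hμ : ∀ x, 0 ≤ μ x)
    (hν : ∀ x, 0 ≤ ν x)
    (mpos : ∀ Q ∈ S, 0 < ∑ x ∈ Q, m x)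
    (μpos : ∀ Q ∈ S, 0 < ∑ x ∈ Q, μ x)
    (νpos : ∀ Q ∈ S, 0 < ∑ x ∈ Q, ν x)
    (hH : ∀ Q ∈ S, η ^ 2 * ∑ x ∈ (S.filter (fun A => A ⊂ Q)).biUnion id, m x ≤ ∑ x ∈ Q, m x)
    (hρ₁ : ∀ Q ∈ S, 1 ≤ ρ₁ Q) (hρ₂ : ∀ Q ∈ S, 1 ≤ ρ₂ Q)
    (hB1 : ∀ Q ∈ S, av m μ Q ^ (p - 1) * ((∑ x ∈ Q, ν x) / ∑ x ∈ Q, m x) * ρ₁ Q ^ (p - 1) ≤
      K ^ (p - 1))
    (hB1' : ∀ Q ∈ S, av m ν Q ^ (q - 1) * ((∑ x ∈ Q, μ x) / ∑ x ∈ Q, m x) * ρ₂ Q ^ (q - 1) ≤ K)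
    (hB2 : ∀ H ∈ S, ∀ M ⊆ S, (∀ F ∈ M, F ⊆ H) → (∀ A ∈ M, ∀ B ∈ M, A ≠ B → Disjoint A B) →
      ∑ F ∈ M, (∑ x ∈ F, μ x) * ρ₁ F ≤ (∑ x ∈ H, μ x) * ρ₁ H)
    (hB2' : ∀ H ∈ S, ∀ M ⊆ S, (∀ F ∈ M, F ⊆ H) → (∀ A ∈ M, ∀ B ∈ M, A ≠ B → Disjoint A B) →
      ∑ F ∈ M, (∑ x ∈ F, ν x) * ρ₂ F ≤ (∑ x ∈ H, ν x) * ρ₂ H)
    (C0 : ℝ) (hC0 : 0 ≤ C0)
    (hB3 : ∀ R ∈ S, ∑ Q ∈ S with Q ⊆ R, (∑ x ∈ Q, μ x) / ρ₁ Q ^ (p - 1) ≤ C0 * ∑ x ∈ R, μ x)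
    (hB3' : ∀ R ∈ S, ∑ Q ∈ S with Q ⊆ R, (∑ x ∈ Q, ν x) / ρ₂ Q ^ (q - 1) ≤ C0 * ∑ x ∈ R, ν x)
    (f : X → ℝ) (hf : ∀ x, 0 ≤ f x) :
    ∑ x, (∑ Q ∈ S with x ∈ Q, (1 / ∑ y ∈ Q, m y) * ∑ y ∈ Q, f y * μ y) ^ p * ν x ≤
      (2 * dd p q C0 * K) ^ p * ∑ x, f x ^ p * μ x := by
  classical
  have hp := hpq.lt
  have hq := hpq.symm.lt
  have hK0 : 0 < K := by linarith
  have hsd : ∀ Q : Finset X, ∑ x ∈ Q, μ x / K = (∑ x ∈ Q, μ x) / K := fun Q => by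
    rw [Finset.sum_div]
  have hsm : ∀ Q : Finset X, 0 ≤ ∑ x ∈ Q, m x := fun Q => Finset.sum_nonneg (fun x _ => hm x)
  have hav : ∀ Q, 0 ≤ av m μ Q := fun Q =>
    div_nonneg (Finset.sum_nonneg (fun x _ => hμ x)) (hsm Q)
  have b1 : Bump (p - 1) η S m (fun x => μ x / K) ν ρ₁ := by
    refine ⟨by linarith, hη2, hηp, lam, hm, fun x => div_nonneg (hμ x) hK0.le, hν, mpos, ?_, hH,
      hρ₁, ?_, ?_⟩
    · intro Q hQ
      rw [hsd]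
      exact div_pos (μpos Q hQ) hK0
    · intro Q hQ
      have := hB1 Q hQ
      rw [av_div, Real.div_rpow (hav Q) hK0.le]
      have hKp : 0 < K ^ (p - 1) := by positivity
      calc av m μ Q ^ (p - 1) / K ^ (p - 1) * ((∑ x ∈ Q, ν x) / ∑ x ∈ Q, m x) * ρ₁ Q ^ (p - 1)
          = (av m μ Q ^ (p - 1) * ((∑ x ∈ Q, ν x) / ∑ x ∈ Q, m x) * ρ₁ Q ^ (p - 1)) /
              K ^ (p - 1) := by ring
        _ ≤ 1 := by rw [div_le_one hKp]; exact this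
    · intro H hH' M hM hMH hdis
      have := hB2 H hH' M hM hMH hdis
      rw [hsd]
      calc ∑ F ∈ M, (∑ x ∈ F, μ x / K) * ρ₁ F = (∑ F ∈ M, (∑ x ∈ F, μ x) * ρ₁ F) / K := by
            rw [Finset.sum_div]
            exact Finset.sum_congr rfl (fun F _ => by rw [hsd]; ring)
        _ ≤ ((∑ x ∈ H, μ x) * ρ₁ H) / K := div_le_div_of_nonneg_right this hK0.le
        _ = _ := by ring
  have c1 : ∀ R ∈ S, ∑ Q ∈ S with Q ⊆ R, (∑ x ∈ Q, μ x / K) / ρ₁ Q ^ (p - 1) ≤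
      C0 * ∑ x ∈ R, μ x / K := by
    intro R hR
    have := hB3 R hR
    rw [hsd]
    calc ∑ Q ∈ S with Q ⊆ R, (∑ x ∈ Q, μ x / K) / ρ₁ Q ^ (p - 1)
        = (∑ Q ∈ S with Q ⊆ R, (∑ x ∈ Q, μ x) / ρ₁ Q ^ (p - 1)) / K := by
          rw [Finset.sum_div]
          exact Finset.sum_congr rfl (fun F _ => by rw [hsd]; ring)
      _ ≤ (C0 * ∑ x ∈ R, μ x) / K := div_le_div_of_nonneg_right this hK0.le
      _ = _ := by ring
  have b2 : Bump (q - 1) η S m ν (fun x => μ x / K) ρ₂ := by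
    refine ⟨by linarith, hη2, hηq, lam, hm, hν, fun x => div_nonneg (hμ x) hK0.le, mpos, νpos, hH,
      hρ₂, ?_, hB2'⟩
    intro Q hQ
    rw [hsd]
    have := hB1' Q hQ
    calc av m ν Q ^ (q - 1) * (((∑ x ∈ Q, μ x) / K) / ∑ x ∈ Q, m x) * ρ₂ Q ^ (q - 1)
        = (av m ν Q ^ (q - 1) * ((∑ x ∈ Q, μ x) / ∑ x ∈ Q, m x) * ρ₂ Q ^ (q - 1)) / K := by ring
      _ ≤ 1 := by rw [div_le_one hK0]; exact this
  set C := dd p q C0 with hC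
  have hCpos : 0 < C := dd_pos hpq hC0
  set A : X → ℝ := fun x => ∑ Q ∈ S with x ∈ Q, (1 / ∑ y ∈ Q, m y) * ∑ y ∈ Q, f y * μ y with hA
  have hA0 : ∀ x, 0 ≤ A x := by
    intro x
    apply Finset.sum_nonneg
    intro Q _
    have a1 := hsm Q
    have a2 : 0 ≤ ∑ y ∈ Q, f y * μ y := Finset.sum_nonneg (fun x _ => mul_nonneg (hf x) (hμ x))
    positivity
  set t : ℝ := 2 * C * K with ht
  have ht0 : 0 < t := by positivity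
  have key := discreteSep hpq b1 b2 C0 hC0 c1 hB3' (fun x => t * f x) (fun x => A x ^ (p - 1))
    (fun x => mul_nonneg ht0.le (hf x)) (fun x => Real.rpow_nonneg (hA0 x) _)
  rw [← hC] at key
  set SA := ∑ x, A x ^ p * ν x with hSA
  set SF := ∑ x, f x ^ p * μ x with hSF
  have hSF0 : 0 ≤ SF :=
    Finset.sum_nonneg (fun x _ => mul_nonneg (Real.rpow_nonneg (hf x) _) (hμ x))
  have hAA : ∀ x, A x * A x ^ (p - 1) = A x ^ p := by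
    intro x
    have := Real.rpow_add_one' (hA0 x) (y := p - 1) (by linarith)
    rw [sub_add_cancel] at this
    rw [this, mul_comm]
  have e1 : ∑ Q ∈ S, (1 / ∑ y ∈ Q, m y) * ((∑ x ∈ Q, (t * f x) * (μ x / K)) *
      (∑ x ∈ Q, A x ^ (p - 1) * ν x)) = (t / K) * SA := by
    have a1 : ∀ Q ∈ S, (1 / ∑ y ∈ Q, m y) * ((∑ x ∈ Q, (t * f x) * (μ x / K)) *
      (∑ x ∈ Q, A x ^ (p - 1) * ν x)) = ((1 / ∑ y ∈ Q, m y) * ∑ y ∈ Q, f y * μ y) *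
        ∑ x ∈ Q, (t / K) * A x ^ (p - 1) * ν x := by
      intro Q _
      have a2 : ∑ x ∈ Q, (t * f x) * (μ x / K) = (t / K) * (∑ x ∈ Q, f x * μ x) := by
        rw [Finset.mul_sum]; exact Finset.sum_congr rfl (fun x _ => by ring)
      have a3 : ∑ x ∈ Q, (t / K) * A x ^ (p - 1) * ν x =
          (t / K) * ∑ x ∈ Q, A x ^ (p - 1) * ν x := by
        rw [Finset.mul_sum]; exact Finset.sum_congr rfl (fun x _ => by ring)
      rw [a2, a3]; ring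
    rw [Finset.sum_congr rfl a1, sum_swap, hSA, Finset.mul_sum]
    apply Finset.sum_congr rfl
    intro x _
    rw [← hAA x]
    simp only [hA]
    ring
  have e2 : ∑ x, (t * f x) ^ p * (μ x / K) = t ^ p * SF / K := by
    rw [hSF, Finset.mul_sum, Finset.sum_div]
    exact Finset.sum_congr rfl (fun x _ => by rw [Real.mul_rpow ht0.le (hf x)]; ring)
  have e3 : ∑ x, (A x ^ (p - 1)) ^ q * ν x = SA := by
    rw [hSA]
    apply Finset.sum_congr rfl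
    intro x _
    rw [← Real.rpow_mul (hA0 x), hpq.sub_one_mul_conj]
  simp only [e2, e3] at key
  rw [e1] at key
  have e4 : t / K = 2 * C := by rw [ht]; field_simp
  rw [e4] at key
  have e5 : C * SA ≤ C * (t ^ p * SF / K) := by linarith
  have e6 := le_of_mul_le_mul_left e5 hCpos
  refine e6.trans ?_
  exact div_le_self (by positivity) hK

end Pool.Agent.KS6_4.SB
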