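import Pool.Graph.R_seed8.H433R3.Sep8
import Pool.Agent.KS6_4.SB.A7

/-!
Separated bumps, all exponents: the one-cube estimate behind a one-sided bump.
-/

set_option autoImplicit false
set_option linter.unusedSectionVars false
set_option linter.unusedVariables false

namespace Pool.Agent.KS6_4.SB

open Finset MeasureTheory Pool.Agent.H433R3.Sep
open scoped ENNReal

variable {α : Type*} [MeasurableSpace α]

/-- the function κ -/
noncomputable def kap (s : ℝ) (Φ : ℝ → ℝ) (c₀ : ℝ) (u : ℝ) : ℝ :=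
  (1 / max c₀ (u ^ (1 / (2 * (s + 1))))) ^ s + (1 / max c₀ (Φ (√u / 2) / (√u / 2))) ^ s

lemma kap_nonneg (s : ℝ) (Φ : ℝ → ℝ) {c₀ : ℝ} (hc : 0 < c₀) (u : ℝ) : 0 ≤ kap s Φ c₀ u := by
  unfold kap
  have h1 : 0 < max c₀ (u ^ (1 / (2 * (s + 1)))) := lt_of_lt_of_le hc (le_max_left _ _)
  have h2 : 0 < max c₀ (Φ (√u / 2) / (√u / 2)) := lt_of_lt_of_le hc (le_max_left _ _)
  positivity

lemma kap_le {s : ℝ} (hs : 0 < s) (Φ : ℝ → ℝ) {c₀ : ℝ} (hc : 0 < c₀) (u : ℝ) :
    kap s Φ c₀ u ≤ 2 / c₀ ^ s := by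
  unfold kap
  have key : ∀ x : ℝ, (1 / max c₀ x) ^ s ≤ 1 / c₀ ^ s := by
    intro x
    have h0 : 0 < max c₀ x := lt_of_lt_of_le hc (le_max_left _ _)
    have h1 : 1 / max c₀ x ≤ 1 / c₀ := one_div_le_one_div_of_le hc (le_max_left _ _)
    calc (1 / max c₀ x) ^ s ≤ (1 / c₀) ^ s := Real.rpow_le_rpow (by positivity) h1 hs.le
      _ = _ := by rw [Real.div_rpow (by norm_num) hc.le, Real.one_rpow]
  calc _ ≤ 1 / c₀ ^ s + 1 / c₀ ^ s := add_le_add (key _) (key _)
    _ = _ := by ring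

lemma kap_anti {s : ℝ} (hs : 0 < s) {Φ : ℝ → ℝ} {t₀ : ℝ} (hΦ : YData Φ t₀) {c₀ : ℝ} (hc : 0 < c₀)
    {u u' : ℝ} (hu : 0 < u) (huu : u ≤ u') : kap s Φ c₀ u' ≤ kap s Φ c₀ u := by
  unfold kap
  have hs' : √u ≤ √u' := Real.sqrt_le_sqrt huu
  have hs0 : 0 < √u := Real.sqrt_pos.2 hu
  have h1 : 0 < max c₀ (u ^ (1 / (2 * (s + 1)))) := lt_of_lt_of_le hc (le_max_left _ _)
  have h1' : 0 < max c₀ (u' ^ (1 / (2 * (s + 1)))) := lt_of_lt_of_le hc (le_max_left _ _)
  have h2 : 0 < max c₀ (Φ (√u / 2) / (√u / 2)) := lt_of_lt_of_le hc (le_max_left _ _)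
  have h2' : 0 < max c₀ (Φ (√u' / 2) / (√u' / 2)) := lt_of_lt_of_le hc (le_max_left _ _)
  apply add_le_add
  · apply Real.rpow_le_rpow (by positivity) _ hs.le
    apply one_div_le_one_div_of_le h1
    exact max_le_max le_rfl (Real.rpow_le_rpow hu.le huu (by positivity))
  · apply Real.rpow_le_rpow (by positivity) _ hs.le
    apply one_div_le_one_div_of_le h2
    apply max_le_max le_rfl
    apply hΦ.mono _ _ (by positivity)
    linarith

lemma kap_meas (s : ℝ) {Φ : ℝ → ℝ} {t₀ : ℝ} (hΦ : YData Φ t₀) (c₀ : ℝ) :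
    Measurable (kap s Φ c₀) := by
  unfold kap
  have h1 : Measurable (fun u : ℝ => √u / 2) := by fun_prop
  have h2 : Measurable (fun u : ℝ => Φ (√u / 2)) := hΦ.meas.comp h1
  have h3 : Measurable (fun u : ℝ => Φ (√u / 2) / (√u / 2)) := h2.div h1
  have h4 : Measurable (fun u : ℝ => u ^ (1 / (2 * (s + 1)))) := by fun_prop
  exact ((measurable_const.div (measurable_const.max h4)).pow_const s).add
    ((measurable_const.div (measurable_const.max h3)).pow_const s)

/-- the pointwise inequality -/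
lemma key_pt {s : ℝ} (hs : 0 < s) {Φ : ℝ → ℝ} {t₀ : ℝ} (hΦ : YData Φ t₀) {c₀ r g l N w : ℝ}
    (hc : 0 < c₀) (hcr : c₀ ≤ r) (hg : 0 < g) (hl : 0 < l) (hN : N = g * r ^ (s + 1))
    (hlN : l ≤ 2 * N) (hw : 0 ≤ w) :
    w ≤ (1 / (8 * r)) * (l * Φ (w / l)) + (8 * r) ^ s * (w * kap s Φ c₀ (w / g)) := by
  have hr : 0 < r := lt_of_lt_of_le hc hcr
  have hN0 : 0 < N := by rw [hN]; positivity
  have hk0 := kap_nonneg s Φ hc (w / g)
  have hΦ0 := hΦ.nn (w / l)
  rcases hw.eq_or_lt with h0 | hw0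
  · rw [← h0] at hk0 hΦ0 ⊢
    positivity
  set u := w / g with hu
  have hu0 : 0 < u := div_pos hw0 hg
  have hsu : 0 < √u := Real.sqrt_pos.2 hu0
  have hsu2 : √u ^ 2 = u := Real.sq_sqrt hu0.le
  set P := Φ (w / l) / (w / l) with hP
  have hP0 : 0 ≤ P := div_nonneg hΦ0 (by positivity)
  have hwP : w * P = l * Φ (w / l) := by rw [hP]; field_simp
  -- enough: κ is not small
  have hsuff : (1 / (8 * r)) ^ s ≤ kap s Φ c₀ u →
      w ≤ (1 / (8 * r)) * (l * Φ (w / l)) + (8 * r) ^ s * (w * kap s Φ c₀ u) := by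
    intro hk
    have h1 : 1 ≤ (8 * r) ^ s * kap s Φ c₀ u := by
      calc (1:ℝ) = (8 * r) ^ s * (1 / (8 * r)) ^ s := by
            rw [← Real.mul_rpow (by positivity) (by positivity), mul_one_div_cancel (by positivity),
              Real.one_rpow]
        _ ≤ _ := mul_le_mul_of_nonneg_left hk (by positivity)
    have h2 : 0 ≤ (1 / (8 * r)) * (l * Φ (w / l)) := by positivity
    have h3 := mul_le_mul_of_nonneg_left h1 hw
    have h4 : w * ((8 * r) ^ s * kap s Φ c₀ u) = (8 * r) ^ s * (w * kap s Φ c₀ u) := by ring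
    rw [h4] at h3
    linarith
  have hpart : ∀ x : ℝ, max c₀ x ≤ 8 * r → (1 / (8 * r)) ^ s ≤ (1 / max c₀ x) ^ s := by
    intro x hx
    have h0 : 0 < max c₀ x := lt_of_lt_of_le hc (le_max_left _ _)
    apply Real.rpow_le_rpow (by positivity) _ hs.le
    exact one_div_le_one_div_of_le h0 hx
  have hnn1 : 0 ≤ (1 / max c₀ (u ^ (1 / (2 * (s + 1))))) ^ s := by
    have h1 : 0 < max c₀ (u ^ (1 / (2 * (s + 1)))) := lt_of_lt_of_le hc (le_max_left _ _)
    positivity
  have hnn2 : 0 ≤ (1 / max c₀ (Φ (√u / 2) / (√u / 2))) ^ s := by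
    have h2 : 0 < max c₀ (Φ (√u / 2) / (√u / 2)) := lt_of_lt_of_le hc (le_max_left _ _)
    positivity
  rcases le_total (8 * r) P with h | h
  · have h1 : 0 ≤ (8 * r) ^ s * (w * kap s Φ c₀ u) := by positivity
    have h2 : w ≤ (1 / (8 * r)) * (l * Φ (w / l)) := by
      rw [← hwP, one_div, inv_mul_eq_div, le_div_iff₀ (by positivity)]
      exact mul_le_mul_of_nonneg_left h hw
    linarith
  · apply hsuff
    rcases le_total (u ^ (1 / (2 * (s + 1)))) r with h1 | h1
    · refine (hpart _ (max_le ?_ ?_)).trans (le_add_of_nonneg_right hnn2)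
      · linarith
      · linarith
    · refine (hpart _ (max_le ?_ ?_)).trans (le_add_of_nonneg_left hnn1)
      · linarith
      · refine le_trans ?_ h
        apply hΦ.mono _ _ (by positivity)
        have e0 : r ^ (s + 1) ≤ √u := by
          calc r ^ (s + 1) ≤ (u ^ (1 / (2 * (s + 1)))) ^ (s + 1) :=
                Real.rpow_le_rpow hr.le h1 (by linarith)
            _ = √u := by
                rw [← Real.rpow_mul hu0.le, Real.sqrt_eq_rpow]
                congr 1
                have : s + 1 ≠ 0 := by linarith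
                field_simp
        have e1 : w = u * g := by rw [hu]; field_simp
        have e2 : √u / 2 ≤ w / (2 * N) := by
          rw [hN, div_le_div_iff₀ (by norm_num) (by positivity)]
          have e3 : √u * r ^ (s + 1) ≤ u := by
            calc √u * r ^ (s + 1) ≤ √u * √u := mul_le_mul_of_nonneg_left e0 hsu.le
              _ = u := by rw [← sq, hsu2]
          rw [e1]
          nlinarith
        refine e2.trans ?_
        exact div_le_div_of_nonneg_left hw0.le hl hlN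

/-- one-cube estimate -/
lemma oneCube {s : ℝ} (hs : 0 < s) (vol : Measure α) {Φ : ℝ → ℝ} {t₀ : ℝ} (hΦ : YData Φ t₀) {w : α → ℝ}
    (hw : Measurable w) (hw0 : ∀ x, 0 ≤ w x) {Q : Set α} (hQm : MeasurableSet Q)
    (hv : 0 < vol Q ∧ vol Q < ∞)
    (hμ : 0 < ∫⁻ x in Q, ENNReal.ofReal (w x) ∂vol ∧ ∫⁻ x in Q, ENNReal.ofReal (w x) ∂vol < ∞)
    (hN : NN vol Φ w Q < ∞) {θ : ℝ} (hθ0 : 0 < θ) (hθ : θ ≤ ((1 / t₀) / 8) ^ s / 8)
    {a b v g : ℝ}
    (ha : a = (∫⁻ x in Q, ENNReal.ofReal (w x) ∂vol).toReal) (hb : b = (NN vol Φ w Q).toReal)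
    (hvv : v = (vol Q).toReal) (hgg : g = a ^ (s + 1) / (b ^ s * v)) :
    0 < a ∧ 0 < b ∧ 0 < v ∧
    ENNReal.ofReal (a ^ (s + 1) / b ^ s) ≤ ENNReal.ofReal (2 * 8 ^ s) * ∫⁻ x in Q, ENNReal.ofReal
      (if θ * g ≤ w x then w x * kap s Φ (1 / t₀) (w x / g) else 0) ∂vol := by
  have ht : (0:ℝ) < t₀ := lt_of_lt_of_le one_pos hΦ.one
  have ha0 : 0 < a := by rw [ha]; exact ENNReal.toReal_pos hμ.1.ne' hμ.2.ne
  have hv0 : 0 < v := by rw [hvv]; exact ENNReal.toReal_pos hv.1.ne' hv.2.ne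
  have haE : ∫⁻ x in Q, ENNReal.ofReal (w x) ∂vol = ENNReal.ofReal a := by
    rw [ha, ENNReal.ofReal_toReal hμ.2.ne]
  have hbE : NN vol Φ w Q = ENNReal.ofReal b := by
    rw [hb, ENNReal.ofReal_toReal hN.ne]
  have hvE : vol Q = ENNReal.ofReal v := by
    rw [hvv, ENNReal.ofReal_toReal hv.2.ne]
  have hab : a ≤ t₀ * b := by
    have := le_NN vol hΦ hw hw0 Q
    rw [haE, hbE, ← ENNReal.ofReal_mul ht.le] at this
    have hb0 : 0 ≤ b := by rw [hb]; exact ENNReal.toReal_nonneg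
    exact (ENNReal.ofReal_le_ofReal_iff (by positivity)).1 this
  have hb0 : 0 < b := by
    by_contra hcon
    push Not at hcon
    nlinarith
  refine ⟨ha0, hb0, hv0, ?_⟩
  set c₀ := 1 / t₀ with hc₀
  have hc : 0 < c₀ := by positivity
  set r := b / a with hr
  have hcr : c₀ ≤ r := by
    rw [hc₀, hr, div_le_div_iff₀ ht ha0]; linarith
  have hr0 : 0 < r := by positivity
  have hg0 : 0 < g := by rw [hgg]; positivity
  -- choose l
  have hex : ∃ l : ℝ, 0 < l ∧ ENNReal.ofReal l * (vol Q +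
      ∫⁻ x in Q, ENNReal.ofReal (Φ (w x / l)) ∂vol) < ENNReal.ofReal (2 * b) := by
    have h1 : NN vol Φ w Q < ENNReal.ofReal (2 * b) := by
      rw [hbE]; exact (ENNReal.ofReal_lt_ofReal_iff (by positivity)).2 (by linarith)
    unfold NN at h1
    simp only [iInf_lt_iff] at h1
    obtain ⟨l, hl, h2⟩ := h1
    exact ⟨l, hl, h2⟩
  obtain ⟨l, hl, hl2⟩ := hex
  rw [mul_add] at hl2
  have hlv : l * v ≤ 2 * b := by
    have h1 : ENNReal.ofReal l * vol Q ≤ ENNReal.ofReal (2 * b) :=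
      le_trans (le_add_right le_rfl) hl2.le
    rw [hvE, ← ENNReal.ofReal_mul hl.le] at h1
    exact (ENNReal.ofReal_le_ofReal_iff (by positivity)).1 h1
  have hΦl : ENNReal.ofReal l * ∫⁻ x in Q, ENNReal.ofReal (Φ (w x / l)) ∂vol ≤
      ENNReal.ofReal (2 * b) := le_trans (le_add_left le_rfl) hl2.le
  set N := g * r ^ (s + 1) with hNdef
  have hNv : N = b / v := by
    rw [hNdef, hgg, hr, Real.div_rpow hb0.le ha0.le, Real.rpow_add_one hb0.ne']
    field_simp
  have hlN : l ≤ 2 * N := by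
    rw [hNv, ← mul_div_assoc, le_div_iff₀ hv0]; exact hlv
  set Y' := ∫⁻ x in Q, ENNReal.ofReal
      (if θ * g ≤ w x then w x * kap s Φ c₀ (w x / g) else 0) ∂vol with hY'
  by_cases hY'top : Y' = ∞
  · rw [hY'top, ENNReal.mul_top (ENNReal.ofReal_pos.2 (by positivity)).ne']; exact le_top
  set Y := ∫⁻ x in Q, ENNReal.ofReal (w x * kap s Φ c₀ (w x / g)) ∂vol with hY
  have hkm : Measurable (fun x => kap s Φ c₀ (w x / g)) := (kap_meas s hΦ c₀).comp (hw.div_const g)
  have hYY' : Y ≤ Y' + ENNReal.ofReal (g / (4 * 8 ^ s) * v) := by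
    calc Y ≤ ∫⁻ x in Q, (ENNReal.ofReal
      (if θ * g ≤ w x then w x * kap s Φ c₀ (w x / g) else 0) +
        ENNReal.ofReal (g / (4 * 8 ^ s))) ∂vol := by
          apply lintegral_mono
          intro x
          show ENNReal.ofReal (w x * kap s Φ c₀ (w x / g)) ≤ ENNReal.ofReal
            (if θ * g ≤ w x then w x * kap s Φ c₀ (w x / g) else 0) +
              ENNReal.ofReal (g / (4 * 8 ^ s))
          split_ifs with h
          · exact le_add_right le_rfl
          · rw [ENNReal.ofReal_zero, zero_add]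
            apply ENNReal.ofReal_le_ofReal
            push Not at h
            have h1 := kap_le hs Φ hc (w x / g)
            have h2 := kap_nonneg s Φ hc (w x / g)
            calc w x * kap s Φ c₀ (w x / g) ≤ (θ * g) * (2 / c₀ ^ s) :=
                  mul_le_mul h.le h1 h2 (by positivity)
              _ ≤ ((c₀ / 8) ^ s / 8 * g) * (2 / c₀ ^ s) := by
                  apply mul_le_mul_of_nonneg_right _ (by positivity)
                  exact mul_le_mul_of_nonneg_right hθ hg0.le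
              _ = g / (4 * 8 ^ s) := by
                  rw [Real.div_rpow hc.le (by norm_num)]
                  field_simp
                  norm_num
      _ = Y' + ENNReal.ofReal (g / (4 * 8 ^ s) * v) := by
          rw [lintegral_add_right _ measurable_const, lintegral_const,
            Measure.restrict_apply MeasurableSet.univ, Set.univ_inter, hvE,
            ← ENNReal.ofReal_mul (by positivity)]
  have hYtop : Y ≠ ∞ := by
    refine (lt_of_le_of_lt hYY' (ENNReal.add_lt_top.2 ⟨lt_top_iff_ne_top.2 hY'top, ?_⟩)).ne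
    exact ENNReal.ofReal_lt_top
  -- integrate the pointwise inequality
  have hint : ENNReal.ofReal a ≤
      ENNReal.ofReal ((1 / (8 * r)) * (2 * b)) + ENNReal.ofReal ((8 * r) ^ s) * Y := by
    have hpt : ∀ x, ENNReal.ofReal (w x) ≤
        ENNReal.ofReal (1 / (8 * r)) * (ENNReal.ofReal l * ENNReal.ofReal (Φ (w x / l))) +
          ENNReal.ofReal ((8 * r) ^ s) * ENNReal.ofReal (w x * kap s Φ c₀ (w x / g)) := by
      intro x
      have h1 := hw0 x
      have h2 := hΦ.nn (w x / l)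
      have h3 := kap_nonneg s Φ hc (w x / g)
      rw [← ENNReal.ofReal_mul hl.le, ← ENNReal.ofReal_mul (by positivity),
        ← ENNReal.ofReal_mul (by positivity),
        ← ENNReal.ofReal_add (by positivity) (by positivity)]
      apply ENNReal.ofReal_le_ofReal
      exact key_pt hs hΦ hc hcr hg0 hl rfl hlN h1
    have h1 := lintegral_mono (μ := vol.restrict Q) hpt
    have hmΦ : Measurable (fun x => ENNReal.ofReal (Φ (w x / l))) :=
      (hΦ.meas.comp (hw.div_const l)).ennreal_ofReal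
    have hmw : Measurable (fun x => ENNReal.ofReal (w x)) := hw.ennreal_ofReal
    have hmk : Measurable (fun x => ENNReal.ofReal (w x * kap s Φ c₀ (w x / g))) :=
      (hw.mul hkm).ennreal_ofReal
    rw [lintegral_add_left (by fun_prop),
      lintegral_const_mul _ (by fun_prop), lintegral_const_mul _ hmΦ,
      lintegral_const_mul _ hmk, haE] at h1
    rw [← hY] at h1
    have e3 : ENNReal.ofReal ((1 / (8 * r)) * (2 * b)) =
        ENNReal.ofReal (1 / (8 * r)) * ENNReal.ofReal (2 * b) := by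
      rw [← ENNReal.ofReal_mul (by positivity)]
    rw [e3]
    refine h1.trans ?_
    apply add_le_add _ le_rfl
    exact mul_le_mul' le_rfl hΦl
  -- to the reals
  lift Y to NNReal using hYtop with y hy
  lift Y' to NNReal using hY'top with y' hy'
  have r1 : a ≤ (1 / (8 * r)) * (2 * b) + (8 * r) ^ s * y := by
    rw [← ENNReal.ofReal_coe_nnreal, ← ENNReal.ofReal_mul (by positivity),
      ← ENNReal.ofReal_add (by positivity) (by positivity)] at hint
    exact (ENNReal.ofReal_le_ofReal_iff (by positivity)).1 hint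
  have r2 : (y:ℝ) ≤ y' + g / (4 * 8 ^ s) * v := by
    rw [← ENNReal.ofReal_coe_nnreal, ← ENNReal.ofReal_coe_nnreal,
      ← ENNReal.ofReal_add (by positivity) (by positivity)] at hYY'
    exact (ENNReal.ofReal_le_ofReal_iff (by positivity)).1 hYY'
  have hbra : b = r * a := by rw [hr]; field_simp
  have r4 : (1 / (8 * r)) * (2 * b) = a / 4 := by
    rw [hbra]; field_simp; norm_num
  have hrs : 0 < r ^ s := by positivity
  have r6 : a ^ (s + 1) / b ^ s = a / r ^ s := by
    rw [hbra, Real.mul_rpow hr0.le ha0.le, Real.rpow_add_one ha0.ne']; field_simp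
  have r7 : g * v = a / r ^ s := by
    rw [← r6, hgg]; field_simp
  have e8 : (8 * r) ^ s = 8 ^ s * r ^ s := Real.mul_rpow (by norm_num) hr0.le
  have r8 : (8 * r) ^ s * y ≤ (8 * r) ^ s * y' + a / 4 := by
    have h1 := mul_le_mul_of_nonneg_left r2 (show 0 ≤ (8 * r) ^ s by positivity)
    have h2 : (8 * r) ^ s * (g / (4 * 8 ^ s) * v) = a / 4 := by
      have : g / (4 * 8 ^ s) * v = (g * v) / (4 * 8 ^ s) := by ring
      rw [this, r7, e8]; field_simp
    rw [mul_add, h2] at h1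
    exact h1
  have r9 : a ^ (s + 1) / b ^ s ≤ 2 * 8 ^ s * y' := by
    rw [r6, div_le_iff₀ hrs]
    rw [r4] at r1
    have : 2 * 8 ^ s * (y':ℝ) * r ^ s = 2 * ((8 * r) ^ s * y') := by rw [e8]; ring
    rw [this]
    linarith
  have : ENNReal.ofReal (2 * 8 ^ s) * (y' : ℝ≥0∞) = ENNReal.ofReal (2 * 8 ^ s * y') := by
    rw [ENNReal.ofReal_mul (p := 2 * 8 ^ s) (by positivity), ENNReal.ofReal_coe_nnreal]
  rw [this]
  exact ENNReal.ofReal_le_ofReal r9

end Pool.Agent.KS6_4.SB
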