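import Pool.Graph.R_seed8.H433R3.Sep10
import Pool.Agent.KS6_4.SB.A9

/-!
Separated bumps, all exponents: the integral condition.
-/

set_option autoImplicit false
set_option linter.unusedSectionVars false
set_option linter.unusedVariables false

namespace Pool.Agent.KS6_4.SB

open Finset MeasureTheory Pool.Agent.H433R3.Sep
open scoped ENNReal NNReal

lemma pow_rpow_comm {x : ℝ} (hx : 0 ≤ x) (j : ℕ) (e : ℝ) : (x ^ j) ^ e = (x ^ e) ^ j := by
  rw [← Real.rpow_natCast x j, ← Real.rpow_natCast (x ^ e) j, ← Real.rpow_mul hx,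
    ← Real.rpow_mul hx, mul_comm]

/-- the integrand `(x / Φ x) ^ s / x` -/
noncomputable def bint (s : ℝ) (Φ : ℝ≥0 → ℝ≥0) (x : ℝ) : ℝ≥0∞ :=
  (ENNReal.ofReal x / (Φ x.toNNReal : ℝ≥0∞)) ^ s / ENNReal.ofReal x

/-- the integrability condition gives the dyadic summation constant -/
lemma exists_Ck {s : ℝ} (hs : 0 < s) {Φ : ℝ≥0 → ℝ≥0} (h : IsYoung Φ) {t₀ : ℝ} (ht : 1 ≤ t₀)
    (hint : ∃ c : ℝ≥0, 0 < c ∧ ∫⁻ x in Set.Ioi (c:ℝ), bint s Φ x ≠ ∞) :
    ∃ θ : ℝ, 0 < θ ∧ θ ≤ ((1 / t₀) / 8) ^ s / 8 ∧ ∃ Ck : ℝ, 0 ≤ Ck ∧ ∀ J : Finset ℕ,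
      ∑ j ∈ J, kap s (rl Φ) (1 / t₀) (θ * 16 ^ j / 16) ≤ Ck := by
  classical
  obtain ⟨c, hc, hI⟩ := hint
  have ht0 : 0 < t₀ := by linarith
  set c₀ := 1 / t₀ with hc₀
  have hc₀pos : 0 < c₀ := by positivity
  have hc₀le : c₀ ≤ 1 := by rw [hc₀, div_le_one ht0]; exact ht
  set τ := (c₀ / 8) ^ s / 8 with hτ
  have hτ0 : 0 < τ := by positivity
  have hτ1 : τ ≤ 1 := by
    have : (c₀ / 8) ^ s ≤ 1 := Real.rpow_le_one (by positivity) (by linarith) hs.le
    rw [hτ]; linarith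
  refine ⟨τ ^ 4, by positivity, ?_, ?_⟩
  · calc τ ^ 4 ≤ τ ^ 1 := pow_le_pow_of_le_one hτ0.le hτ1 (by norm_num)
      _ = (c₀ / 8) ^ s / 8 := by rw [pow_one]
  set I := ∫⁻ x in Set.Ioi (c:ℝ), bint s Φ x with hIdef
  set xs : ℕ → ℝ := fun j => τ ^ 2 * 4 ^ j / 8 with hxs
  have hxs0 : ∀ j, 0 < xs j := fun j => by simp only [hxs]; positivity
  have hxsm : Monotone xs := by
    intro i j hij
    simp only [hxs]
    have : (4:ℝ) ^ i ≤ 4 ^ j := pow_le_pow_right₀ (by norm_num) hij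
    have h2 : τ ^ 2 * 4 ^ i ≤ τ ^ 2 * 4 ^ j := mul_le_mul_of_nonneg_left this (by positivity)
    linarith
  have hxss : ∀ j, xs (j + 1) = 4 * xs j := fun j => by simp only [hxs]; ring
  have hsq : ∀ j : ℕ, √(τ ^ 4 * 16 ^ j / 16) = τ ^ 2 * 4 ^ j / 4 := by
    intro j
    rw [Real.sqrt_eq_iff_mul_self_eq (by positivity) (by positivity)]
    have : (16:ℝ) ^ j = 4 ^ j * 4 ^ j := by rw [← mul_pow]; norm_num
    rw [this]; ring
  -- choose j₀
  obtain ⟨j₀, hj₀⟩ : ∃ j₀ : ℕ, (c:ℝ) ≤ xs j₀ := by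
    obtain ⟨n, hn⟩ := pow_unbounded_of_one_lt ((c:ℝ) * 8 / τ ^ 2) (by norm_num : (1:ℝ) < 4)
    refine ⟨n, ?_⟩
    simp only [hxs]
    rw [div_lt_iff₀ (by positivity)] at hn
    rw [le_div_iff₀ (by norm_num)]
    linarith
  -- second sum in ENNReal
  set c4 : ℝ := 4 ^ s * (4/3) with hc4
  have hc40 : 0 < c4 := by positivity
  have hone : ∀ j, j₀ < j → ENNReal.ofReal ((1 / max c₀ (rl Φ (xs j) / xs j)) ^ s) ≤
      ENNReal.ofReal c4 * ∫⁻ x in Set.Ioc (xs (j-1)) (xs j), bint s Φ x := by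
    intro j hj
    obtain ⟨i, rfl⟩ : ∃ i, j = i + 1 := ⟨j - 1, by omega⟩
    have hi : i + 1 - 1 = i := by omega
    rw [hi]
    set p : ℝ≥0 := Φ (xs (i+1)).toNNReal with hp
    have hmx : 0 < max c₀ (rl Φ (xs (i+1)) / xs (i+1)) := lt_of_lt_of_le hc₀pos (le_max_left _ _)
    have h1 : ENNReal.ofReal (1 / max c₀ (rl Φ (xs (i+1)) / xs (i+1))) ≤
        (p : ℝ≥0∞)⁻¹ * ENNReal.ofReal (xs (i+1)) := by
      by_cases hp0 : p = 0
      · rw [hp0]
        simp only [ENNReal.coe_zero, ENNReal.inv_zero]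
        rw [ENNReal.top_mul (by simpa using hxs0 (i+1))]
        exact le_top
      · have hp1 : (0:ℝ) < p := NNReal.coe_pos.2 (pos_iff_ne_zero.2 hp0)
        have h2 : 1 / max c₀ (rl Φ (xs (i+1)) / xs (i+1)) ≤ xs (i+1) / p := by
          have h3 : rl Φ (xs (i+1)) = (p:ℝ) := rfl
          rw [h3]
          have h4 : 1 / max c₀ ((p:ℝ) / xs (i+1)) ≤ 1 / ((p:ℝ) / xs (i+1)) :=
            one_div_le_one_div_of_le (div_pos hp1 (hxs0 _)) (le_max_right _ _)
          rw [one_div_div] at h4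
          exact h4
        calc ENNReal.ofReal (1 / max c₀ (rl Φ (xs (i+1)) / xs (i+1)))
            ≤ ENNReal.ofReal (xs (i+1) / p) := ENNReal.ofReal_le_ofReal h2
          _ = ENNReal.ofReal (xs (i+1)) / ENNReal.ofReal p := ENNReal.ofReal_div_of_pos hp1
          _ = _ := by
              rw [ENNReal.ofReal_coe_nnreal, ENNReal.div_eq_inv_mul]
    have h1' : ENNReal.ofReal ((1 / max c₀ (rl Φ (xs (i+1)) / xs (i+1))) ^ s) ≤
        ((p : ℝ≥0∞)⁻¹ * ENNReal.ofReal (xs (i+1))) ^ s := by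
      rw [← ENNReal.ofReal_rpow_of_nonneg (by positivity) hs.le]
      exact ENNReal.rpow_le_rpow h1 hs.le
    refine h1'.trans ?_
    have hxi1 : ENNReal.ofReal (xs (i+1)) ≠ 0 := (ENNReal.ofReal_pos.2 (hxs0 _)).ne'
    have h2 : ((p : ℝ≥0∞)⁻¹ * ENNReal.ofReal (xs i)) ^ s / ENNReal.ofReal (xs (i+1)) *
        ENNReal.ofReal (xs (i+1) - xs i) ≤
        ∫⁻ x in Set.Ioc (xs i) (xs (i+1)), bint s Φ x := by
      calc ((p : ℝ≥0∞)⁻¹ * ENNReal.ofReal (xs i)) ^ s / ENNReal.ofReal (xs (i+1)) *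
          ENNReal.ofReal (xs (i+1) - xs i)
          = ∫⁻ x in Set.Ioc (xs i) (xs (i+1)),
              ((p : ℝ≥0∞)⁻¹ * ENNReal.ofReal (xs i)) ^ s / ENNReal.ofReal (xs (i+1)) := by
            rw [lintegral_const, Measure.restrict_apply MeasurableSet.univ, Set.univ_inter,
              Real.volume_Ioc]
        _ ≤ _ := by
            apply setLIntegral_mono' measurableSet_Ioc
            intro x hx
            unfold bint
            apply ENNReal.div_le_div _ (ENNReal.ofReal_le_ofReal hx.2)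
            apply ENNReal.rpow_le_rpow _ hs.le
            rw [ENNReal.div_eq_inv_mul]
            apply mul_le_mul' _ (ENNReal.ofReal_le_ofReal hx.1.le)
            rw [ENNReal.inv_le_inv]
            exact ENNReal.coe_le_coe.2 (h.mono (Real.toNNReal_le_toNNReal hx.2))
    have h3 : ENNReal.ofReal (xs (i+1) - xs i) = ENNReal.ofReal (3/4) *
        ENNReal.ofReal (xs (i+1)) := by
      rw [← ENNReal.ofReal_mul (by norm_num)]
      congr 1
      rw [hxss]; ring
    have h4 : ((p : ℝ≥0∞)⁻¹ * ENNReal.ofReal (xs (i+1))) ^ s =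
        ENNReal.ofReal (4 ^ s) * ((p : ℝ≥0∞)⁻¹ * ENNReal.ofReal (xs i)) ^ s := by
      rw [← ENNReal.ofReal_rpow_of_nonneg (by norm_num) hs.le, ← ENNReal.mul_rpow_of_nonneg _ _ hs.le]
      congr 1
      rw [hxss, ENNReal.ofReal_mul (by norm_num)]
      ring
    have h5 : ((p : ℝ≥0∞)⁻¹ * ENNReal.ofReal (xs i)) ^ s / ENNReal.ofReal (xs (i+1)) *
        ENNReal.ofReal (xs (i+1) - xs i) =
        ENNReal.ofReal (3/4) * ((p : ℝ≥0∞)⁻¹ * ENNReal.ofReal (xs i)) ^ s := by
      rw [h3, mul_comm (ENNReal.ofReal (3/4)), ← mul_assoc,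
        ENNReal.div_mul_cancel hxi1 ENNReal.ofReal_ne_top, mul_comm]
    rw [h5] at h2
    rw [h4]
    calc ENNReal.ofReal (4 ^ s) * ((p : ℝ≥0∞)⁻¹ * ENNReal.ofReal (xs i)) ^ s
        = ENNReal.ofReal c4 * (ENNReal.ofReal (3/4) *
            ((p : ℝ≥0∞)⁻¹ * ENNReal.ofReal (xs i)) ^ s) := by
          rw [← mul_assoc, ← ENNReal.ofReal_mul hc40.le]
          congr 2
          rw [hc4]; ring
      _ ≤ _ := mul_le_mul' le_rfl h2
  have hsecond : ∀ J : Finset ℕ, ∑ j ∈ J, ENNReal.ofReal ((1 / max c₀ (rl Φ (xs j) / xs j)) ^ s) ≤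
      ENNReal.ofReal ((j₀ + 1) * (1 / c₀) ^ s) + ENNReal.ofReal c4 * I := by
    intro J
    rw [← Finset.sum_filter_add_sum_filter_not J (fun j => j ≤ j₀)]
    apply add_le_add
    · have h1 : ∀ j ∈ J.filter (fun j => j ≤ j₀),
          ENNReal.ofReal ((1 / max c₀ (rl Φ (xs j) / xs j)) ^ s) ≤ ENNReal.ofReal ((1 / c₀) ^ s) := by
        intro j _
        apply ENNReal.ofReal_le_ofReal
        have : 0 < max c₀ (rl Φ (xs j) / xs j) := lt_of_lt_of_le hc₀pos (le_max_left _ _)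
        apply Real.rpow_le_rpow (by positivity) _ hs.le
        exact one_div_le_one_div_of_le hc₀pos (le_max_left _ _)
      refine (Finset.sum_le_sum h1).trans ?_
      rw [Finset.sum_const, nsmul_eq_mul]
      have h2 : (J.filter (fun j => j ≤ j₀)).card ≤ j₀ + 1 := by
        calc _ ≤ (Finset.range (j₀ + 1)).card := Finset.card_le_card (by
              intro j hj
              simp only [Finset.mem_filter] at hj
              simp only [Finset.mem_range]; omega)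
          _ = _ := Finset.card_range _
      calc ((J.filter (fun j => j ≤ j₀)).card : ℝ≥0∞) * ENNReal.ofReal ((1 / c₀) ^ s)
          ≤ ((j₀ + 1 : ℕ) : ℝ≥0∞) * ENNReal.ofReal ((1 / c₀) ^ s) := by
            apply mul_le_mul' _ le_rfl
            exact_mod_cast h2
        _ = ENNReal.ofReal ((j₀ + 1 : ℕ) : ℝ) * ENNReal.ofReal ((1 / c₀) ^ s) := by
            rw [ENNReal.ofReal_natCast]
        _ = _ := by
            rw [← ENNReal.ofReal_mul (by positivity)]
            congr 1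
            push_cast; ring
    · have h1 : ∀ j ∈ J.filter (fun j => ¬ j ≤ j₀),
          ENNReal.ofReal ((1 / max c₀ (rl Φ (xs j) / xs j)) ^ s) ≤
          ENNReal.ofReal c4 * ∫⁻ x in Set.Ioc (xs (j-1)) (xs j), bint s Φ x := by
        intro j hj
        apply hone
        have := (Finset.mem_filter.1 hj).2
        omega
      refine (Finset.sum_le_sum h1).trans ?_
      rw [← Finset.mul_sum]
      apply mul_le_mul' le_rfl
      rw [← lintegral_biUnion_finset]
      · rw [hIdef]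
        apply lintegral_mono_set
        apply Set.iUnion₂_subset
        intro j hj x hx
        have hj2 := (Finset.mem_filter.1 hj).2
        have : xs j₀ ≤ xs (j-1) := hxsm (by omega)
        exact lt_of_le_of_lt (hj₀.trans this) hx.1
      · intro i hi j hj hij
        have hi2 := (Finset.mem_filter.1 hi).2
        have hj2 := (Finset.mem_filter.1 hj).2
        show Disjoint (Set.Ioc (xs (i-1)) (xs i)) (Set.Ioc (xs (j-1)) (xs j))
        rw [Set.disjoint_left]
        intro x hx hx'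
        rcases lt_or_gt_of_ne hij with h1 | h1
        · have : xs i ≤ xs (j-1) := hxsm (by omega)
          exact absurd (lt_of_le_of_lt this hx'.1) (not_lt.2 hx.2)
        · have : xs j ≤ xs (i-1) := hxsm (by omega)
          exact absurd (lt_of_le_of_lt this hx.1) (not_lt.2 hx'.2)
      · intro j _; exact measurableSet_Ioc
  have hfin : ENNReal.ofReal ((j₀ + 1) * (1 / c₀) ^ s) + ENNReal.ofReal c4 * I ≠ ∞ := by
    apply ENNReal.add_ne_top.2
    exact ⟨ENNReal.ofReal_ne_top, ENNReal.mul_ne_top ENNReal.ofReal_ne_top hI⟩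
  set B := (ENNReal.ofReal ((j₀ + 1) * (1 / c₀) ^ s) + ENNReal.ofReal c4 * I).toReal with hB
  have hsecondR : ∀ J : Finset ℕ, ∑ j ∈ J, (1 / max c₀ (rl Φ (xs j) / xs j)) ^ s ≤ B := by
    intro J
    have h1 := hsecond J
    have hn : ∀ j ∈ J, 0 ≤ (1 / max c₀ (rl Φ (xs j) / xs j)) ^ s := by
      intro j _
      have : 0 < max c₀ (rl Φ (xs j) / xs j) := lt_of_lt_of_le hc₀pos (le_max_left _ _)
      positivity
    rw [← ENNReal.ofReal_sum_of_nonneg hn, ← ENNReal.ofReal_toReal hfin] at h1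
    exact (ENNReal.ofReal_le_ofReal_iff ENNReal.toReal_nonneg).1 h1
  set e : ℝ := 1 / (2 * (s + 1)) * s with he
  have he0 : 0 < e := by positivity
  set β : ℝ := (1/16:ℝ) ^ e with hβ
  have hβ0 : 0 < β := by positivity
  have hβ1 : β < 1 := Real.rpow_lt_one (by norm_num) (by norm_num) he0
  refine ⟨(16 / τ ^ 4) ^ e * (1 - β)⁻¹ + B, ?_, ?_⟩
  · have : 0 < 1 - β := by linarith
    have : 0 ≤ B := ENNReal.toReal_nonneg
    positivity
  intro J
  have h1 : ∀ j ∈ J, kap s (rl Φ) c₀ (τ ^ 4 * 16 ^ j / 16) ≤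
      (16 / τ ^ 4) ^ e * β ^ j + (1 / max c₀ (rl Φ (xs j) / xs j)) ^ s := by
    intro j _
    unfold kap
    rw [hsq]
    have e1 : τ ^ 2 * 4 ^ j / 4 / 2 = xs j := by simp only [hxs]; ring
    rw [e1]
    apply add_le_add _ le_rfl
    set u : ℝ := τ ^ 4 * 16 ^ j / 16 with hu
    have hu0 : 0 < u := by positivity
    have hm : 0 < max c₀ (u ^ (1 / (2 * (s + 1)))) := lt_of_lt_of_le hc₀pos (le_max_left _ _)
    calc (1 / max c₀ (u ^ (1 / (2 * (s + 1))))) ^ s ≤ (1 / (u ^ (1 / (2 * (s + 1))))) ^ s := by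
          apply Real.rpow_le_rpow (by positivity) _ hs.le
          exact one_div_le_one_div_of_le (by positivity) (le_max_right _ _)
      _ = (1 / u) ^ e := by
          rw [Real.div_rpow (by norm_num) (by positivity), Real.one_rpow,
            Real.div_rpow (by norm_num) hu0.le, Real.one_rpow, ← Real.rpow_mul hu0.le]
      _ = ((16 / τ ^ 4) * (1/16) ^ j) ^ e := by
          congr 1
          rw [hu, one_div_pow]; field_simp
      _ = (16 / τ ^ 4) ^ e * β ^ j := by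
          rw [Real.mul_rpow (by positivity) (by positivity), hβ, pow_rpow_comm (by norm_num)]
  refine (Finset.sum_le_sum h1).trans ?_
  rw [Finset.sum_add_distrib]
  apply add_le_add _ (hsecondR J)
  rw [← Finset.mul_sum]
  have h2 : ∑ j ∈ J, β ^ j ≤ (1 - β)⁻¹ := by
    have := Summable.sum_le_tsum J (fun j _ => by positivity)
      (summable_geometric_of_lt_one hβ0.le hβ1)
    rw [tsum_geometric_of_lt_one hβ0.le hβ1] at this
    exact this
  exact mul_le_mul_of_nonneg_left h2 (by positivity)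

end Pool.Agent.KS6_4.SB
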