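import Pool.Graph.R_seed8.H433R3.Sep11
import Pool.Agent.KS6_4.SB.A10

/-!
Separated bumps, all exponents: positive operators on Carleson families.
-/

set_option autoImplicit false
set_option linter.unusedSectionVars false
set_option linter.unusedVariables false

namespace Pool.Agent.KS6_4.SB

open Finset MeasureTheory Pool.Agent.H433R3.Sep
open scoped ENNReal NNReal

variable {α : Type*} [MeasurableSpace α]

/-- Facts on the one-sided bump used in `setOp`. -/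
lemma bumpSide {s : ℝ} (hs : 0 < s) {Hc : ℕ} (hHc : 2 ≤ Hc) (vol : Measure α) {Φ : ℝ≥0 → ℝ≥0} {t₀ : ℝ} (hΦ : YData (rl Φ) t₀)
    {θ : ℝ} (hθ0 : 0 < θ) (hθ : θ ≤ ((1 / t₀) / 8) ^ s / 8)
    {Ck : ℝ} (hCk0 : 0 ≤ Ck)
    (hCk : ∀ J : Finset ℕ, ∑ j ∈ J, kap s (rl Φ) (1 / t₀) (θ * 16 ^ j / 16) ≤ Ck)
    (w σ : α → ℝ≥0) (hw : Measurable w) (K : ℝ≥0)
    (S : Finset (Set α)) (hS : SLam S)
    (hv : ∀ Q ∈ S, 0 < vol Q ∧ vol Q < ∞) (hμ : ∀ Q ∈ S, 0 < wm vol w Q ∧ wm vol w Q < ∞)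
    (hν : ∀ Q ∈ S, 0 < wm vol σ Q ∧ wm vol σ Q < ∞)
    (hH : ∀ Q ∈ S, (Hc : ℝ≥0∞) * vol (⋃ A ∈ {A ∈ (S : Set (Set α)) | A ⊂ Q}, A) ≤ vol Q)
    (hK : ∀ Q ∈ S, lux vol Φ w Q ^ s * (wm vol σ Q / vol Q) ≤ K) :
    ∃ ρ : Set α → ℝ, (∀ Q ∈ S, 1 ≤ ρ Q) ∧
      (∀ Q ∈ S, ((wm vol w Q).toReal / (vol Q).toReal) ^ s *
        ((wm vol σ Q).toReal / (vol Q).toReal) * ρ Q ^ s ≤ (2 * t₀) ^ s * K) ∧
      (∀ H ∈ S, ∀ M ⊆ S, (∀ F ∈ M, F ⊆ H) → (∀ A ∈ M, ∀ B ∈ M, A ≠ B → Disjoint A B) →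
        ∑ F ∈ M, (wm vol w F).toReal * ρ F ≤ (wm vol w H).toReal * ρ H) ∧
      (∀ R ∈ S, ∀ G ⊆ S, (∀ Q ∈ G, Q ⊆ R) →
        ∑ Q ∈ G, (wm vol w Q).toReal / ρ Q ^ s ≤ (32 * (2 * 8 ^ s) * Ck) *
          (wm vol w R).toReal) := by
  classical
  have ht : (0:ℝ) < t₀ := lt_of_lt_of_le one_pos hΦ.one
  set b : Set α → ℝ := fun Q => (NN vol (rl Φ) (fun x => (w x : ℝ)) Q).toReal with hb
  have hwr : Measurable (fun x => (w x : ℝ)) := by fun_prop
  have hw0 : ∀ x, (0:ℝ) ≤ w x := fun x => NNReal.coe_nonneg _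
  have hluxfin : ∀ Q ∈ S, lux vol Φ w Q ≠ ∞ := by
    intro Q hQ h
    have h2 := hK Q hQ
    rw [h, ENNReal.top_rpow_of_pos hs,
      ENNReal.top_mul (ENNReal.div_pos (hν Q hQ).1.ne' (hv Q hQ).2.ne).ne'] at h2
    exact absurd h2 (by simp)
  have hNfin : ∀ Q ∈ S, NN vol (rl Φ) (fun x => (w x : ℝ)) Q < ∞ := by
    intro Q hQ
    have h1 := hluxfin Q hQ
    refine lt_of_le_of_lt (NN_le_lux vol Φ w Q (hv Q hQ)) ?_
    exact ENNReal.mul_lt_top (ENNReal.mul_lt_top (by simp) (hv Q hQ).2) (lt_top_iff_ne_top.2 h1)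
  have hμ' : ∀ Q ∈ S, 0 < ∫⁻ x in Q, ENNReal.ofReal (w x : ℝ) ∂vol ∧
      ∫⁻ x in Q, ENNReal.ofReal (w x : ℝ) ∂vol < ∞ := by
    intro Q hQ
    have := hμ Q hQ
    rw [wm_apply vol w (hS.1 Q hQ)] at this
    exact this
  have hab : ∀ Q ∈ S, (wm vol w Q).toReal ≤ t₀ * b Q := by
    intro Q hQ
    have h1 := le_NN vol hΦ hwr hw0 Q
    rw [← wm_apply vol w (hS.1 Q hQ)] at h1
    have h2 := ENNReal.toReal_mono (ENNReal.mul_lt_top ENNReal.ofReal_lt_top (hNfin Q hQ)).ne h1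
    rw [ENNReal.toReal_mul, ENNReal.toReal_ofReal ht.le] at h2
    exact h2
  have ha0 : ∀ Q ∈ S, 0 < (wm vol w Q).toReal := fun Q hQ =>
    ENNReal.toReal_pos (hμ Q hQ).1.ne' (hμ Q hQ).2.ne
  have hb0 : ∀ Q ∈ S, 0 < b Q := by
    intro Q hQ
    by_contra hcon
    push Not at hcon
    have := hab Q hQ
    have := ha0 Q hQ
    nlinarith
  set ρ : Set α → ℝ := fun Q => t₀ * b Q / (wm vol w Q).toReal with hρ
  have hρa : ∀ Q ∈ S, (wm vol w Q).toReal * ρ Q = t₀ * b Q := by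
    intro Q hQ
    have := ha0 Q hQ
    simp only [hρ]; field_simp
  refine ⟨ρ, ?_, ?_, ?_, ?_⟩
  · intro Q hQ
    simp only [hρ]
    rw [le_div_iff₀ (ha0 Q hQ)]
    have := hab Q hQ
    linarith
  · intro Q hQ
    set L : ℝ := (lux vol Φ w Q).toReal with hL
    have hL0 : 0 ≤ L := ENNReal.toReal_nonneg
    have hv0 : 0 < (vol Q).toReal := ENNReal.toReal_pos (hv Q hQ).1.ne' (hv Q hQ).2.ne
    have hbL : b Q ≤ 2 * (vol Q).toReal * L := by
      have h1 := NN_le_lux vol Φ w Q (hv Q hQ)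
      have h2 := ENNReal.toReal_mono (ENNReal.mul_ne_top (ENNReal.mul_ne_top (by simp)
        (hv Q hQ).2.ne) (hluxfin Q hQ)) h1
      rw [ENNReal.toReal_mul, ENNReal.toReal_mul] at h2
      simp only [ENNReal.toReal_ofNat] at h2
      exact h2
    have hLK : L ^ s * ((wm vol σ Q).toReal / (vol Q).toReal) ≤ K := by
      have h2 := ENNReal.toReal_mono ENNReal.coe_ne_top (hK Q hQ)
      rw [ENNReal.toReal_mul, ← ENNReal.toReal_rpow, ENNReal.toReal_div,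
        ENNReal.coe_toReal] at h2
      exact h2
    have ha := ha0 Q hQ
    have hb := hb0 Q hQ
    have hq0 : 0 ≤ (wm vol σ Q).toReal / (vol Q).toReal := by positivity
    have e1 : ((wm vol w Q).toReal / (vol Q).toReal) ^ s *
        ((wm vol σ Q).toReal / (vol Q).toReal) * ρ Q ^ s =
        (t₀ * b Q / (vol Q).toReal) ^ s * ((wm vol σ Q).toReal / (vol Q).toReal) := by
      have e2 : t₀ * b Q / (vol Q).toReal = ((wm vol w Q).toReal / (vol Q).toReal) * ρ Q := by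
        rw [← hρa Q hQ]; ring
      have hρ0 : 0 ≤ ρ Q := by simp only [hρ]; positivity
      rw [e2, Real.mul_rpow (by positivity) hρ0]
      ring
    rw [e1]
    have e3 : t₀ * b Q / (vol Q).toReal ≤ (2 * t₀) * L := by
      rw [div_le_iff₀ hv0]
      calc t₀ * b Q ≤ t₀ * (2 * (vol Q).toReal * L) := mul_le_mul_of_nonneg_left hbL ht.le
        _ = _ := by ring
    calc (t₀ * b Q / (vol Q).toReal) ^ s * ((wm vol σ Q).toReal / (vol Q).toReal)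
        ≤ ((2 * t₀) * L) ^ s * ((wm vol σ Q).toReal / (vol Q).toReal) := by
          apply mul_le_mul_of_nonneg_right _ hq0
          exact Real.rpow_le_rpow (by positivity) e3 hs.le
      _ = (2 * t₀) ^ s * (L ^ s * ((wm vol σ Q).toReal / (vol Q).toReal)) := by
          rw [Real.mul_rpow (by positivity) hL0]; ring
      _ ≤ _ := mul_le_mul_of_nonneg_left hLK (by positivity)
  · intro H hH' M hM hMH hMd
    rw [hρa H hH', Finset.sum_congr rfl (fun F hF => hρa F (hM hF)), ← Finset.mul_sum]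
    apply mul_le_mul_of_nonneg_left _ ht.le
    have h1 := NN_super vol (rl Φ) (fun x => (w x : ℝ)) M H (fun F hF => hS.1 F (hM hF)) hMH hMd
    have h2 := ENNReal.toReal_mono (hNfin H hH').ne h1
    rw [ENNReal.toReal_sum (fun F hF => (hNfin F (hM hF)).ne)] at h2
    exact h2
  · intro R hR G hG hGR
    have h1 := embed hs vol hΦ hwr hw0 hθ0 hθ hCk G (hS.mono hG) (fun Q hQ => hv Q (hG hQ))
      (fun Q hQ => hμ' Q (hG hQ)) (fun Q hQ => hNfin Q (hG hQ)) (by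
        intro Q hQ
        refine le_trans ?_ (hH Q (hG hQ))
        refine mul_le_mul' (by exact_mod_cast hHc) (measure_mono ?_)
        intro x hx
        obtain ⟨A, hA, hxA⟩ := Set.mem_iUnion₂.1 hx
        exact Set.mem_iUnion₂.2 ⟨A, ⟨hG hA.1, hA.2⟩, hxA⟩) R hGR
    rw [← wm_apply vol w (hS.1 R hR)] at h1
    have e1 : ∀ Q ∈ G, (wm vol w Q).toReal / ρ Q ^ s ≤
        (∫⁻ x in Q, ENNReal.ofReal ((w x : ℝ)) ∂vol).toReal ^ (s + 1) /
        (NN vol (rl Φ) (fun x => (w x : ℝ)) Q).toReal ^ s := by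
      intro Q hQ
      have hQS := hG hQ
      rw [← wm_apply vol w (hS.1 Q hQS)]
      have q1 := ha0 Q hQS
      have q2 := hb0 Q hQS
      have q3 : (wm vol w Q).toReal / ρ Q ^ s =
          (1 / t₀ ^ s) * ((wm vol w Q).toReal ^ (s + 1) / b Q ^ s) := by
        simp only [hρ]
        rw [Real.div_rpow (by positivity) q1.le, Real.mul_rpow ht.le q2.le,
          Real.rpow_add_one q1.ne']
        field_simp
      rw [q3]
      have q4 : 1 / t₀ ^ s ≤ 1 := by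
        rw [div_le_one (by positivity)]; exact Real.one_le_rpow hΦ.one hs.le
      have q5 : 0 ≤ (wm vol w Q).toReal ^ (s + 1) / b Q ^ s := by positivity
      exact mul_le_of_le_one_left q5 q4
    refine (Finset.sum_le_sum e1).trans ?_
    have hfin : 32 * ENNReal.ofReal (2 * 8 ^ s) * (ENNReal.ofReal Ck * wm vol w R) ≠ ∞ :=
      ENNReal.mul_ne_top (ENNReal.mul_ne_top (by simp) ENNReal.ofReal_ne_top) (ENNReal.mul_ne_top ENNReal.ofReal_ne_top (hμ R hR).2.ne)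
    have h2 := ENNReal.toReal_mono hfin h1
    rw [ENNReal.toReal_sum (fun _ _ => ENNReal.ofReal_ne_top), ENNReal.toReal_mul,
      ENNReal.toReal_mul, ENNReal.toReal_mul, ENNReal.toReal_ofReal hCk0,
      ENNReal.toReal_ofReal (by positivity)] at h2
    simp only [ENNReal.toReal_ofNat] at h2
    refine le_trans (le_of_eq ?_) (h2.trans (le_of_eq (by ring)))
    apply Finset.sum_congr rfl
    intro Q _
    rw [ENNReal.toReal_ofReal]
    positivity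

/-- the sparseness parameter -/
noncomputable def et (p q : ℝ) : ℝ := max 2 (max ((16:ℝ) ^ (p - 1)) ((16:ℝ) ^ (q - 1)))

/-- the halving constant -/
noncomputable def hcn (p q : ℝ) : ℕ := ⌈et p q ^ 2⌉₊

lemma et_facts (p q : ℝ) : 2 ≤ et p q ∧ (16:ℝ) ^ (p - 1) ≤ et p q ∧ (16:ℝ) ^ (q - 1) ≤ et p q ∧
    ENNReal.ofReal (et p q ^ 2) ≤ (hcn p q : ℝ≥0∞) := by
  refine ⟨le_max_left _ _, (le_max_left _ _).trans (le_max_right _ _),
    (le_max_right _ _).trans (le_max_right _ _), ?_⟩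
  have h1 := ENNReal.ofReal_le_ofReal (Nat.le_ceil (et p q ^ 2))
  rwa [ENNReal.ofReal_natCast] at h1

lemma hcn_two (p q : ℝ) : 2 ≤ hcn p q := by
  have h1 : 2 ≤ et p q := le_max_left _ _
  have h2 := Nat.le_ceil (et p q ^ 2)
  have h3 : (2:ℝ) ≤ (hcn p q : ℝ) := by
    have : (hcn p q : ℝ) = (⌈et p q ^ 2⌉₊ : ℝ) := rfl
    rw [this]
    nlinarith
  exact_mod_cast h3

/-- bound for a halving family -/
theorem halvOp {p q : ℝ} (hpq : p.HolderConjugate q)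
    {Φ₁ Φ₂ : ℝ≥0 → ℝ≥0} (h₁ : IsYoung Φ₁) (h₂ : IsYoung Φ₂)
    (hint₁ : ∃ c : ℝ≥0, 0 < c ∧ ∫⁻ x in Set.Ioi (c:ℝ), bint (p - 1) Φ₁ x ≠ ∞)
    (hint₂ : ∃ c : ℝ≥0, 0 < c ∧ ∫⁻ x in Set.Ioi (c:ℝ), bint (q - 1) Φ₂ x ≠ ∞)
    (K₁ K₂ : ℝ≥0) : ∃ C : ℝ≥0, ∀ (vol : Measure α) (w σ : α → ℝ≥0), Measurable w → Measurable σ →
      ∀ S : Finset (Set α), SLam S →
      (∀ Q ∈ S, 0 < vol Q ∧ vol Q < ∞) → (∀ Q ∈ S, wm vol w Q < ∞) →
      (∀ Q ∈ S, wm vol σ Q < ∞) →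
      (∀ Q ∈ S, (hcn p q : ℝ≥0∞) * vol (⋃ A ∈ {A ∈ (S : Set (Set α)) | A ⊂ Q}, A) ≤ vol Q) →
      (∀ Q ∈ S, lux vol Φ₁ w Q ^ (p - 1) * (wm vol σ Q / vol Q) ≤ K₁) →
      (∀ Q ∈ S, lux vol Φ₂ σ Q ^ (q - 1) * (wm vol w Q / vol Q) ≤ K₂) →
      ∀ f : α → ℝ≥0∞, Measurable f →
      ∫⁻ y, (∑ Q ∈ S, Q.indicator (fun _ => (∫⁻ z in Q, f z ∂(wm vol w)) / vol Q) y) ^ p
        ∂(wm vol σ) ≤ C * ∫⁻ y, f y ^ p ∂(wm vol w) := by
  classical
  obtain ⟨t₁, hY₁⟩ := h₁.ydata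
  obtain ⟨t₂, hY₂⟩ := h₂.ydata
  have hp1 : 0 < p - 1 := by linarith [hpq.lt]
  have hq1 : 0 < q - 1 := by linarith [hpq.symm.lt]
  obtain ⟨θ₁, hθ₁, hθ₁', Ck₁, hCk₁0, hCk₁⟩ := exists_Ck hp1 h₁ hY₁.one hint₁
  obtain ⟨θ₂, hθ₂, hθ₂', Ck₂, hCk₂0, hCk₂⟩ := exists_Ck hq1 h₂ hY₂.one hint₂
  have ht₁ : (0:ℝ) < t₁ := lt_of_lt_of_le one_pos hY₁.one
  have ht₂ : (0:ℝ) < t₂ := lt_of_lt_of_le one_pos hY₂.one
  have hc2 := hcn_two p q
  obtain ⟨hη2, hηp, hηq, hηc⟩ := et_facts p q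
  set K' : ℝ := max 1 (max ((2 * t₁) * (K₁:ℝ) ^ (q - 1)) ((2 * t₂) ^ (q - 1) * K₂)) with hK'
  have hK'1 : (2 * t₁) ^ (p - 1) * K₁ ≤ K' ^ (p - 1) := by
    have e1 : (2 * t₁) * (K₁:ℝ) ^ (q - 1) ≤ K' := (le_max_left _ _).trans (le_max_right _ _)
    have e2 := Real.rpow_le_rpow (by positivity) e1 hp1.le
    have e3 : (q - 1) * (p - 1) = 1 := by
      have := hpq.sub_one_mul_conj
      linarith
    rw [Real.mul_rpow (by positivity) (by positivity), ← Real.rpow_mul K₁.coe_nonneg, e3,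
      Real.rpow_one] at e2
    exact e2
  have hK'2 : (2 * t₂) ^ (q - 1) * K₂ ≤ K' := (le_max_right _ _).trans (le_max_right _ _)
  set C0 : ℝ := (32 * (2 * 8 ^ (p - 1)) * Ck₁) + (32 * (2 * 8 ^ (q - 1)) * Ck₂) with hC0
  have hC01 : 32 * (2 * 8 ^ (p - 1)) * Ck₁ ≤ C0 := by
    have : 0 ≤ 32 * (2 * 8 ^ (q - 1)) * Ck₂ := by positivity
    linarith
  have hC02 : 32 * (2 * 8 ^ (q - 1)) * Ck₂ ≤ C0 := by
    have : 0 ≤ 32 * (2 * 8 ^ (p - 1)) * Ck₁ := by positivity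
    linarith
  have hC00 : 0 ≤ C0 := by positivity
  set CC : ℝ := (2 * dd p q C0 * K') ^ p with hCC
  refine ⟨CC.toNNReal, ?_⟩
  intro vol w σ hw hσ S hS hv hμ hν hH hK₁ hK₂ f hf
  set S₀ := S.filter (fun Q => 0 < wm vol w Q ∧ 0 < wm vol σ Q) with hS₀
  have hsub : S₀ ⊆ S := Finset.filter_subset _ _
  have hH₀ : ∀ Q ∈ S₀, (hcn p q : ℝ≥0∞) * vol (⋃ A ∈ {A ∈ (S₀ : Set (Set α)) | A ⊂ Q}, A) ≤ vol Q := by
    intro Q hQ
    refine le_trans ?_ (hH Q (hsub hQ))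
    refine mul_le_mul' le_rfl (measure_mono ?_)
    intro x hx
    obtain ⟨A, hA, hxA⟩ := Set.mem_iUnion₂.1 hx
    exact Set.mem_iUnion₂.2 ⟨A, ⟨hsub hA.1, hA.2⟩, hxA⟩
  have hμ₀ : ∀ Q ∈ S₀, 0 < wm vol w Q ∧ wm vol w Q < ∞ := fun Q hQ =>
    ⟨(Finset.mem_filter.1 hQ).2.1, hμ Q (hsub hQ)⟩
  have hν₀ : ∀ Q ∈ S₀, 0 < wm vol σ Q ∧ wm vol σ Q < ∞ := fun Q hQ =>
    ⟨(Finset.mem_filter.1 hQ).2.2, hν Q (hsub hQ)⟩
  obtain ⟨ρ₁, a1, a2, a3, a4⟩ := bumpSide hp1 hc2 vol hY₁ hθ₁ hθ₁' hCk₁0 hCk₁ w σ hw K₁ S₀ (hS.mono hsub)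
    (fun Q hQ => hv Q (hsub hQ)) hμ₀ hν₀ hH₀ (fun Q hQ => hK₁ Q (hsub hQ))
  obtain ⟨ρ₂, b1, b2, b3, b4⟩ := bumpSide hq1 hc2 vol hY₂ hθ₂ hθ₂' hCk₂0 hCk₂ σ w hσ K₂ S₀ (hS.mono hsub)
    (fun Q hQ => hv Q (hsub hQ)) hν₀ hμ₀ hH₀ (fun Q hQ => hK₂ Q (hsub hQ))
  have main := setOp hpq hη2 hηp hηq vol (wm vol w) (wm vol σ) S₀ (hS.mono hsub)
    (fun Q hQ => hv Q (hsub hQ))
    hμ₀ hν₀ (fun Q hQ => le_trans (mul_le_mul' hηc le_rfl) (hH₀ Q hQ)) ρ₁ ρ₂ K' (le_max_left _ _)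
    a1 b1 (fun Q hQ => (a2 Q hQ).trans hK'1) (fun Q hQ => (b2 Q hQ).trans hK'2) a3 b3 C0 hC00
    (fun R hR G hG hGR => (a4 R hR G hG hGR).trans (mul_le_mul_of_nonneg_right hC01
      ENNReal.toReal_nonneg))
    (fun R hR G hG hGR => (b4 R hR G hG hGR).trans (mul_le_mul_of_nonneg_right hC02
      ENNReal.toReal_nonneg)) f hf
  rw [← hCC] at main
  have e0 : ((CC.toNNReal : ℝ≥0) : ℝ≥0∞) = ENNReal.ofReal CC := rfl
  rw [e0]
  refine le_trans (le_of_eq ?_) main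
  apply lintegral_congr_ae
  have h0 : ∀ᵐ y ∂(wm vol σ), ∀ Q ∈ S, wm vol σ Q = 0 → y ∉ Q := by
    rw [Filter.eventually_all_finset]
    intro Q hQ
    by_cases h : wm vol σ Q = 0
    · have : ∀ᵐ y ∂(wm vol σ), y ∉ Q := measure_eq_zero_iff_ae_notMem.1 h
      filter_upwards [this] with y hy _
      exact hy
    · filter_upwards with y hy
      exact absurd hy h
  filter_upwards [h0] with y hy
  congr 1
  symm
  apply Finset.sum_subset hsub
  intro Q hQ hQ0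
  have : wm vol w Q = 0 ∨ wm vol σ Q = 0 := by
    by_contra hcon
    push Not at hcon
    exact hQ0 (Finset.mem_filter.2 ⟨hQ, pos_iff_ne_zero.2 hcon.1, pos_iff_ne_zero.2 hcon.2⟩)
  rcases this with h | h
  · rw [setLIntegral_measure_zero _ _ h]; simp
  · exact Set.indicator_of_notMem (hy Q hQ h) _

lemma p_sum_le {ι : Type*} {p : ℝ} (hp : 0 < p) (s : Finset ι) (a : ι → ℝ≥0∞) :
    (∑ i ∈ s, a i) ^ p ≤ (s.card : ℝ≥0∞) ^ p * ∑ i ∈ s, a i ^ p := by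
  rcases s.eq_empty_or_nonempty with h | h
  · subst h
    rw [Finset.sum_empty, ENNReal.zero_rpow_of_pos hp]
    exact bot_le
  · obtain ⟨i, hi, hmax⟩ := Finset.exists_max_image s a h
    have h1 : ∑ j ∈ s, a j ≤ s.card * a i := by
      have := Finset.sum_le_card_nsmul s a (a i) hmax
      rwa [nsmul_eq_mul] at this
    calc (∑ i ∈ s, a i) ^ p ≤ (s.card * a i) ^ p := ENNReal.rpow_le_rpow h1 hp.le
      _ = (s.card : ℝ≥0∞) ^ p * a i ^ p := ENNReal.mul_rpow_of_nonneg _ _ hp.le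
      _ ≤ _ := mul_le_mul' le_rfl (Finset.single_le_sum (f := fun j => a j ^ p)
        (fun _ _ => bot_le) hi)

/-- bound for a Carleson family -/
theorem carlOp {p q : ℝ} (hpq : p.HolderConjugate q)
    {Φ₁ Φ₂ : ℝ≥0 → ℝ≥0} (h₁ : IsYoung Φ₁) (h₂ : IsYoung Φ₂)
    (hint₁ : ∃ c : ℝ≥0, 0 < c ∧ ∫⁻ x in Set.Ioi (c:ℝ), bint (p - 1) Φ₁ x ≠ ∞)
    (hint₂ : ∃ c : ℝ≥0, 0 < c ∧ ∫⁻ x in Set.Ioi (c:ℝ), bint (q - 1) Φ₂ x ≠ ∞)
    (K₁ K₂ : ℝ≥0) (Λ : ℕ) (hΛ : 0 < Λ) :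
    ∃ C : ℝ≥0, ∀ (vol : Measure α) (w σ : α → ℝ≥0), Measurable w → Measurable σ →
      ∀ S : Finset (Set α), SLam S →
      (∀ Q ∈ S, 0 < vol Q ∧ vol Q < ∞) → (∀ Q ∈ S, wm vol w Q < ∞) →
      (∀ Q ∈ S, wm vol σ Q < ∞) →
      (∀ Q ∈ S, ∀ G ⊆ S, (∀ A ∈ G, A ⊆ Q) → ∑ A ∈ G, vol A ≤ Λ * vol Q) →
      (∀ Q ∈ S, lux vol Φ₁ w Q ^ (p - 1) * (wm vol σ Q / vol Q) ≤ K₁) →
      (∀ Q ∈ S, lux vol Φ₂ σ Q ^ (q - 1) * (wm vol w Q / vol Q) ≤ K₂) →
      ∀ f : α → ℝ≥0∞, Measurable f →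
      ∫⁻ y, (∑ Q ∈ S, Q.indicator (fun _ => (∫⁻ z in Q, f z ∂(wm vol w)) / vol Q) y) ^ p
        ∂(wm vol σ) ≤ C * ∫⁻ y, f y ^ p ∂(wm vol w) := by
  classical
  obtain ⟨C, hC⟩ := halvOp (α := α) hpq h₁ h₂ hint₁ hint₂ K₁ K₂
  have hp0 : 0 < p := by linarith [hpq.lt]
  have hc2 := hcn_two p q
  set N := hcn p q * Λ with hN
  have hN0 : 0 < N := by positivity
  refine ⟨(N : ℝ≥0) ^ p * (N * C), ?_⟩
  intro vol w σ hw hσ S hS hv hμ hν hcarl hK₁ hK₂ f hf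
  set gen : Set α → ℕ := fun Q => (S.filter (fun A => Q ⊂ A)).card with hgen
  set Sr : ℕ → Finset (Set α) := fun r => S.filter (fun Q => gen Q % N = r) with hSr
  have hSrS : ∀ r, Sr r ⊆ S := fun r => Finset.filter_subset _ _
  have hhalf : ∀ r, ∀ Q ∈ Sr r, (hcn p q : ℝ≥0∞) * vol (⋃ A ∈ {A ∈ (Sr r : Set (Set α)) | A ⊂ Q}, A) ≤ vol Q := by
    intro r Q hQ
    have hQS := hSrS r hQ
    have hQr : gen Q % N = r := (Finset.mem_filter.1 hQ).2
    set U := ⋃ A ∈ {A ∈ (Sr r : Set (Set α)) | A ⊂ Q}, A with hU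
    have hUm : MeasurableSet U := by
      apply Set.Finite.measurableSet_biUnion
      · exact (Sr r).finite_toSet.subset (fun A hA => hA.1)
      · intro A hA
        exact hS.1 A (hSrS r hA.1)
    have hcount : ∀ y ∈ U, (N : ℝ≥0∞) ≤ ∑ B ∈ S with B ⊆ Q, B.indicator (fun _ => (1:ℝ≥0∞)) y := by
      intro y hy
      obtain ⟨A, hA, hyA⟩ := Set.mem_iUnion₂.1 hy
      have hAS := hSrS r hA.1
      have hAr : gen A % N = r := (Finset.mem_filter.1 hA.1).2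
      have hAQ : A ⊂ Q := hA.2
      have h1 : gen Q < gen A := by
        apply Finset.card_lt_card
        rw [Finset.ssubset_iff_of_subset]
        · exact ⟨Q, Finset.mem_filter.2 ⟨hQS, hAQ⟩, fun hc => (Finset.mem_filter.1 hc).2.2 subset_rfl⟩
        · intro B hB
          have hB' := Finset.mem_filter.1 hB
          exact Finset.mem_filter.2 ⟨hB'.1, hAQ.trans hB'.2⟩
      have h2 : gen Q + N ≤ gen A := by
        have e1 := Nat.div_add_mod (gen Q) N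
        have e2 := Nat.div_add_mod (gen A) N
        rw [hQr] at e1
        rw [hAr] at e2
        have e3 : gen Q / N < gen A / N := by
          by_contra hcon
          push Not at hcon
          have := Nat.mul_le_mul_left N hcon
          omega
        have := Nat.mul_le_mul_left N (Nat.succ_le_of_lt e3)
        rw [Nat.mul_succ] at this
        omega
      have h3 : N ≤ (S.filter (fun B => A ⊂ B ∧ B ⊆ Q)).card := by
        have h4 : S.filter (fun B => A ⊂ B) ⊆ (S.filter (fun B => A ⊂ B ∧ B ⊆ Q)) ∪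
            (S.filter (fun B => Q ⊂ B)) := by
          intro B hB
          have hB' := Finset.mem_filter.1 hB
          rw [Finset.mem_union, Finset.mem_filter, Finset.mem_filter]
          rcases hS.comp hB'.1 hQS (hB'.2.1 hyA) (hAQ.1 hyA) with h | h
          · exact Or.inl ⟨hB'.1, hB'.2, h⟩
          · exact Or.inr ⟨hB'.1, h⟩
        have h5 := Finset.card_le_card h4
        have h6 := Finset.card_union_le (S.filter (fun B => A ⊂ B ∧ B ⊆ Q))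
          (S.filter (fun B => Q ⊂ B))
        simp only [hgen] at h2
        omega
      have h5 : (((S.filter (fun B => A ⊂ B ∧ B ⊆ Q)).card : ℕ) : ℝ≥0∞) ≤
          ∑ B ∈ S with B ⊆ Q, B.indicator (fun _ => (1:ℝ≥0∞)) y := by
        have h6 : (((S.filter (fun B => A ⊂ B ∧ B ⊆ Q)).card : ℕ) : ℝ≥0∞) =
            ∑ B ∈ S with A ⊂ B ∧ B ⊆ Q, B.indicator (fun _ => (1:ℝ≥0∞)) y := by
          rw [Finset.card_eq_sum_ones]
          push_cast
          apply Finset.sum_congr rfl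
          intro B hB
          have hB' := Finset.mem_filter.1 hB
          rw [Set.indicator_of_mem (hB'.2.1.1 hyA)]
        rw [h6]
        apply Finset.sum_le_sum_of_subset_of_nonneg
        · intro B hB
          have hB' := Finset.mem_filter.1 hB
          exact Finset.mem_filter.2 ⟨hB'.1, hB'.2.2⟩
        · intro _ _ _; exact bot_le
      refine le_trans ?_ h5
      exact_mod_cast h3
    have h1 : (N : ℝ≥0∞) * vol U ≤ Λ * vol Q := by
      calc (N : ℝ≥0∞) * vol U = ∫⁻ y in U, (N : ℝ≥0∞) ∂vol := by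
            rw [lintegral_const, Measure.restrict_apply MeasurableSet.univ, Set.univ_inter]
        _ ≤ ∫⁻ y in U, ∑ B ∈ S with B ⊆ Q, B.indicator (fun _ => (1:ℝ≥0∞)) y ∂vol :=
            setLIntegral_mono' hUm hcount
        _ ≤ ∫⁻ y, ∑ B ∈ S with B ⊆ Q, B.indicator (fun _ => (1:ℝ≥0∞)) y ∂vol :=
            setLIntegral_le_lintegral _ _
        _ = ∑ B ∈ S with B ⊆ Q, vol B := by
            rw [lintegral_finsetSum]
            · apply Finset.sum_congr rfl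
              intro B hB
              rw [lintegral_indicator (hS.1 B (Finset.mem_filter.1 hB).1), lintegral_const,
                Measure.restrict_apply MeasurableSet.univ, Set.univ_inter, one_mul]
            · intro B hB
              exact measurable_const.indicator (hS.1 B (Finset.mem_filter.1 hB).1)
        _ ≤ Λ * vol Q := hcarl Q hQS _ (Finset.filter_subset _ _)
            (fun A hA => (Finset.mem_filter.1 hA).2)
    have h2 : (Λ : ℝ≥0∞) * ((hcn p q : ℝ≥0∞) * vol U) ≤ Λ * vol Q := by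
      refine le_trans (le_of_eq ?_) h1
      rw [hN]; push_cast; ring
    exact (ENNReal.mul_le_mul_iff_right (by exact_mod_cast hΛ.ne') (by simp)).1 h2
  have hdec : ∀ y, ∑ Q ∈ S, Q.indicator (fun _ => (∫⁻ z in Q, f z ∂(wm vol w)) / vol Q) y =
      ∑ r ∈ Finset.range N, ∑ Q ∈ Sr r,
        Q.indicator (fun _ => (∫⁻ z in Q, f z ∂(wm vol w)) / vol Q) y := by
    intro y
    rw [← Finset.sum_fiberwise_of_maps_to (s := S) (t := Finset.range N) (g := fun Q => gen Q % N)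
      (fun Q _ => Finset.mem_range.2 (Nat.mod_lt _ hN0))]
  have hmeas : ∀ r, Measurable (fun y => ∑ Q ∈ Sr r,
        Q.indicator (fun _ => (∫⁻ z in Q, f z ∂(wm vol w)) / vol Q) y) := by
    intro r
    apply Finset.measurable_fun_sum
    intro Q hQ
    exact measurable_const.indicator (hS.1 Q (hSrS r hQ))
  calc ∫⁻ y, (∑ Q ∈ S, Q.indicator (fun _ => (∫⁻ z in Q, f z ∂(wm vol w)) / vol Q) y) ^ p
        ∂(wm vol σ)
      ≤ ∫⁻ y, (N : ℝ≥0∞) ^ p * ∑ r ∈ Finset.range N, (∑ Q ∈ Sr r,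
        Q.indicator (fun _ => (∫⁻ z in Q, f z ∂(wm vol w)) / vol Q) y) ^ p ∂(wm vol σ) := by
        apply lintegral_mono
        intro y
        show (∑ Q ∈ S, Q.indicator (fun _ => (∫⁻ z in Q, f z ∂(wm vol w)) / vol Q) y) ^ p ≤ _
        rw [hdec]
        have := p_sum_le hp0 (Finset.range N) (fun r => ∑ Q ∈ Sr r,
          Q.indicator (fun _ => (∫⁻ z in Q, f z ∂(wm vol w)) / vol Q) y)
        rw [Finset.card_range] at this
        exact this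
    _ = (N : ℝ≥0∞) ^ p * ∑ r ∈ Finset.range N, ∫⁻ y, (∑ Q ∈ Sr r,
        Q.indicator (fun _ => (∫⁻ z in Q, f z ∂(wm vol w)) / vol Q) y) ^ p ∂(wm vol σ) := by
        rw [lintegral_const_mul _ (Finset.measurable_fun_sum _ (fun r _ => (hmeas r).pow_const p)),
          lintegral_finsetSum _ (fun r _ => (hmeas r).pow_const p)]
    _ ≤ (N : ℝ≥0∞) ^ p * ∑ r ∈ Finset.range N, (C * ∫⁻ y, f y ^ p ∂(wm vol w)) := by
        apply mul_le_mul' le_rfl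
        apply Finset.sum_le_sum
        intro r _
        exact hC vol w σ hw hσ (Sr r) (hS.mono (hSrS r)) (fun Q hQ => hv Q (hSrS r hQ))
          (fun Q hQ => hμ Q (hSrS r hQ)) (fun Q hQ => hν Q (hSrS r hQ)) (hhalf r)
          (fun Q hQ => hK₁ Q (hSrS r hQ)) (fun Q hQ => hK₂ Q (hSrS r hQ)) f hf
    _ = _ := by
        rw [Finset.sum_const, Finset.card_range, nsmul_eq_mul, ENNReal.coe_mul, ENNReal.coe_mul,
          ENNReal.coe_rpow_of_nonneg _ hp0.le, ENNReal.coe_natCast]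
        ring

end Pool.Agent.KS6_4.SB
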