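import Pool.Graph.R_seed8.H433R3.Sep13
import Pool.Agent.KS6_4.SB.A11

/-!
Separated bumps, all exponents: sparse families with dilated averages.
-/

set_option autoImplicit false
set_option linter.unusedSectionVars false
set_option linter.unusedVariables false

namespace Pool.Agent.KS6_4.SB

open MeasureTheory Metric Pool.Agent.H433R3.Sep
open scoped ENNReal NNReal

variable {d : ℕ}

theorem sparseDil {p r : ℝ} (hpq : p.HolderConjugate r)
    (hd : 0 < d) {Φ₁ Φ₂ : ℝ≥0 → ℝ≥0} (h₁ : IsYoung Φ₁) (h₂ : IsYoung Φ₂)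
    (hint₁ : ∃ c : ℝ≥0, 0 < c ∧ ∫⁻ x in Set.Ioi (c:ℝ), bint (p - 1) Φ₁ x ≠ ∞)
    (hint₂ : ∃ c : ℝ≥0, 0 < c ∧ ∫⁻ x in Set.Ioi (c:ℝ), bint (r - 1) Φ₂ x ≠ ∞)
    (K₁ K₂ : ℝ≥0) (a : ℝ) (ha : 1 ≤ a) :
    ∃ C : ℝ≥0, ∀ (w σ : (Fin d → ℝ) → ℝ≥0), Measurable w → Measurable σ →
      (∀ (c : Fin d → ℝ) (l : ℝ), 0 < l → wm volume w (cube c l) < ∞) →
      (∀ (c : Fin d → ℝ) (l : ℝ), 0 < l → wm volume σ (cube c l) < ∞) →
      (∀ (c : Fin d → ℝ) (l : ℝ), 0 < l → lux volume Φ₁ w (cube c l) ^ (p - 1) *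
        (wm volume σ (cube c l) / volume (cube c l)) ≤ K₁) →
      (∀ (c : Fin d → ℝ) (l : ℝ), 0 < l → lux volume Φ₂ σ (cube c l) ^ (r - 1) *
        (wm volume w (cube c l) / volume (cube c l)) ≤ K₂) →
      ∀ (t₀ : Fin d → Bool) (F : Finset (Idx d)) (E : Idx d → Set (Fin d → ℝ)),
      (∀ I ∈ F, MeasurableSet (E I)) → (∀ I ∈ F, E I ⊆ gq t₀ I) →
      (∀ I ∈ F, volume (gq t₀ I) ≤ 2 * volume (E I)) →
      (∀ I ∈ F, ∀ J ∈ F, I ≠ J → Disjoint (E I) (E J)) →
      ∀ f : (Fin d → ℝ) → ℝ≥0∞, Measurable f →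
      ∫⁻ y, (∑ I ∈ F, (gq t₀ I).indicator (fun _ => (∫⁻ z in dil a t₀ I, f z ∂(wm volume w)) /
        volume (dil a t₀ I)) y) ^ p ∂(wm volume σ) ≤ C * ∫⁻ y, f y ^ p ∂(wm volume w) := by
  classical
  obtain ⟨s, hs⟩ := pow_unbounded_of_one_lt (3 * a) (by norm_num : (1:ℝ) < 2)
  set M₀ : ℕ := 2 ^ (s * d + 1) with hM₀
  have hM₀pos : 0 < M₀ := by positivity
  obtain ⟨C, hC⟩ := carlOp (α := Fin d → ℝ) hpq h₁ h₂ hint₁ hint₂ K₁ K₂ M₀ hM₀pos
  have hp0 : 0 < p := by linarith [hpq.lt]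
  set q : ℕ := 2 ^ (s * d) with hq
  refine ⟨(q * M₀ : ℝ≥0) ^ p * ((Fintype.card (Fin d → Bool) : ℝ≥0) ^ p *
    ((Fintype.card (Fin d → Bool) : ℝ≥0) * C)), ?_⟩
  intro w σ hw hσ hwf hσf hK₁ hK₂ t₀ F E hEm hEsub hEv hEdis f hf
  set μ := wm volume w with hμ
  set ν := wm volume σ with hν
  -- parents
  have hpar : ∀ I : Idx d, ∃ (t : Fin d → Bool) (n : Fin d → ℤ),
      dil a t₀ I ⊆ gq t (I.1 + s, n) := by
    intro I
    have h2 : (0:ℝ) < 2 ^ I.1 := by positivity
    apply third_pi _ _ _ (by positivity)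
    rw [zpow_add₀ (by norm_num), zpow_natCast]
    nlinarith
  choose tt nn hpar using hpar
  set J : Idx d → Idx d := fun I => (I.1 + s, nn I) with hJ
  have hJvol : ∀ I, volume (gq (tt I) (J I)) = q * volume (gq t₀ I) := by
    intro I
    rw [gq_vol, gq_vol]
    simp only [hJ]
    rw [zpow_add₀ (by norm_num), ENNReal.ofReal_mul (by positivity), mul_pow, mul_comm]
    congr 1
    rw [zpow_natCast, ENNReal.ofReal_pow (by norm_num), hq, ← pow_mul]
    push_cast
    norm_num
  have hsub : ∀ I, gq t₀ I ⊆ gq (tt I) (J I) := fun I => (gq_sub_dil ha t₀ I).trans (hpar I)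
  -- pointwise bound of a single term
  have hterm : ∀ I y, (gq t₀ I).indicator (fun _ => (∫⁻ z in dil a t₀ I, f z ∂μ) /
        volume (dil a t₀ I)) y ≤ q * ai f μ (gq (tt I) (J I)) y := by
    intro I y
    by_cases hy : y ∈ gq t₀ I
    · rw [Set.indicator_of_mem hy]
      unfold ai
      rw [Set.indicator_of_mem (hsub I hy)]
      have e1 : volume (gq t₀ I) ≤ volume (dil a t₀ I) := measure_mono (gq_sub_dil ha t₀ I)
      have hqpos : (q : ℝ≥0∞) ≠ 0 := by
        have : q ≠ 0 := by positivity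
        exact_mod_cast this
      calc (∫⁻ z in dil a t₀ I, f z ∂μ) / volume (dil a t₀ I)
          ≤ (∫⁻ z in gq (tt I) (J I), f z ∂μ) / volume (gq t₀ I) :=
            ENNReal.div_le_div (lintegral_mono_set (hpar I)) e1
        _ = q * ((∫⁻ z in gq (tt I) (J I), f z ∂μ) / volume (gq (tt I) (J I))) := by
            rw [hJvol, ← mul_div_assoc, ENNReal.mul_div_mul_left _ _ hqpos (by simp)]
    · rw [Set.indicator_of_notMem hy]; exact bot_le
  set Ft : (Fin d → Bool) → Finset (Idx d) := fun t => F.filter (fun I => tt I = t) with hFt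
  have hFtF : ∀ t, Ft t ⊆ F := fun t => Finset.filter_subset _ _
  set St : (Fin d → Bool) → Finset (Set (Fin d → ℝ)) :=
    fun t => (Ft t).image (fun I => gq t (J I)) with hSt
  -- cardinality of fibers
  have hcard : ∀ t, ∀ A ∈ St t, ((Ft t).filter (fun I => gq t (J I) = A)).card ≤ M₀ := by
    intro t A hA
    obtain ⟨I₀, hI₀, hA₀⟩ := Finset.mem_image.1 hA
    set G := (Ft t).filter (fun I => gq t (J I) = A) with hG
    have hGF : ∀ I ∈ G, I ∈ F ∧ tt I = t ∧ gq t (J I) = A := by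
      intro I hI
      have h3 := Finset.mem_filter.1 hI
      have h4 := Finset.mem_filter.1 h3.1
      exact ⟨h4.1, h4.2, h3.2⟩
    have h1 : ∑ I ∈ G, volume (E I) ≤ volume A := by
      rw [← measure_biUnion_finset (fun I hI J hJ hIJ => hEdis I (hGF I hI).1 J (hGF J hJ).1 hIJ)
        (fun I hI => hEm I (hGF I hI).1)]
      apply measure_mono
      apply Set.iUnion₂_subset
      intro I hI
      obtain ⟨h3, h4, h5⟩ := hGF I hI
      rw [← h5, ← h4]
      exact (hEsub I h3).trans (hsub I)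
    have h2 : ∀ I ∈ G, volume A ≤ M₀ * volume (E I) := by
      intro I hI
      obtain ⟨h3, h4, h5⟩ := hGF I hI
      rw [← h5, ← h4, hJvol]
      calc (q : ℝ≥0∞) * volume (gq t₀ I) ≤ q * (2 * volume (E I)) := mul_le_mul' le_rfl (hEv I h3)
        _ = M₀ * volume (E I) := by
            rw [hM₀, hq]; push_cast; ring
    have h3 : (G.card : ℝ≥0∞) * volume A ≤ M₀ * volume A := by
      calc (G.card : ℝ≥0∞) * volume A = ∑ I ∈ G, volume A := by
            rw [Finset.sum_const, nsmul_eq_mul]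
        _ ≤ ∑ I ∈ G, M₀ * volume (E I) := Finset.sum_le_sum h2
        _ = M₀ * ∑ I ∈ G, volume (E I) := by rw [Finset.mul_sum]
        _ ≤ _ := mul_le_mul' le_rfl h1
    have hAv : 0 < volume A ∧ volume A < ∞ := by rw [← hA₀]; exact gq_vol_pos _ _
    have h4 := (ENNReal.mul_le_mul_iff_left hAv.1.ne' hAv.2.ne).1 h3
    exact_mod_cast h4
  -- pointwise bound of the sum
  have hpt : ∀ y, ∑ I ∈ F, (gq t₀ I).indicator (fun _ => (∫⁻ z in dil a t₀ I, f z ∂μ) /
        volume (dil a t₀ I)) y ≤ (q * M₀) * ∑ t : Fin d → Bool, ∑ A ∈ St t, ai f μ A y := by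
    intro y
    calc ∑ I ∈ F, (gq t₀ I).indicator (fun _ => (∫⁻ z in dil a t₀ I, f z ∂μ) /
        volume (dil a t₀ I)) y ≤ ∑ I ∈ F, q * ai f μ (gq (tt I) (J I)) y :=
          Finset.sum_le_sum (fun I _ => hterm I y)
      _ = q * ∑ t : Fin d → Bool, ∑ I ∈ Ft t, ai f μ (gq t (J I)) y := by
          rw [← Finset.mul_sum]
          congr 1
          rw [← Finset.sum_fiberwise_of_maps_to (s := F) (t := Finset.univ) (g := tt)
            (fun _ _ => Finset.mem_univ _)]
          apply Finset.sum_congr rfl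
          intro t _
          apply Finset.sum_congr rfl
          intro I hI
          rw [(Finset.mem_filter.1 hI).2]
      _ ≤ q * ∑ t : Fin d → Bool, M₀ * ∑ A ∈ St t, ai f μ A y := by
          apply mul_le_mul' le_rfl
          apply Finset.sum_le_sum
          intro t _
          rw [Finset.sum_comp (fun A => ai f μ A y) (fun I => gq t (J I)), Finset.mul_sum]
          apply Finset.sum_le_sum
          intro A hA
          rw [nsmul_eq_mul]
          apply mul_le_mul' _ le_rfl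
          exact_mod_cast hcard t A hA
      _ = _ := by rw [← Finset.mul_sum]; ring
  -- bound for one grid
  have hgrid : ∀ t, ∫⁻ y, (∑ A ∈ St t, ai f μ A y) ^ p ∂ν ≤ C * ∫⁻ y, f y ^ p ∂μ := by
    intro t
    have hSgq : ∀ A ∈ St t, ∃ I ∈ Ft t, gq t (J I) = A := fun A hA => Finset.mem_image.1 hA
    apply hC volume w σ hw hσ (St t)
    · refine ⟨?_, ?_, ?_⟩
      · intro A hA
        obtain ⟨I, _, rfl⟩ := hSgq A hA
        exact gq_meas _ _
      · intro A hA
        obtain ⟨I, _, rfl⟩ := hSgq A hA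
        exact gq_nonempty _ _
      · intro A hA B hB
        obtain ⟨I, _, rfl⟩ := hSgq A hA
        obtain ⟨I', _, rfl⟩ := hSgq B hB
        exact gq_lam _ _ _
    · intro A hA
      obtain ⟨I, _, rfl⟩ := hSgq A hA
      exact gq_vol_pos _ _
    · intro A hA
      obtain ⟨I, _, rfl⟩ := hSgq A hA
      rw [gq_eq_cube]; exact hwf _ _ (by positivity)
    · intro A hA
      obtain ⟨I, _, rfl⟩ := hSgq A hA
      rw [gq_eq_cube]; exact hσf _ _ (by positivity)
    · intro Q hQ G hG hGQ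
      set G' := (Ft t).filter (fun I => gq t (J I) ∈ G) with hG'
      have h1 : G = G'.image (fun I => gq t (J I)) := by
        ext A
        rw [Finset.mem_image]
        constructor
        · intro hA
          obtain ⟨I, hI, hIA⟩ := hSgq A (hG hA)
          exact ⟨I, Finset.mem_filter.2 ⟨hI, by rw [hIA]; exact hA⟩, hIA⟩
        · rintro ⟨I, hI, rfl⟩
          exact (Finset.mem_filter.1 hI).2
      have h2 : ∑ A ∈ G, volume A ≤ ∑ I ∈ G', volume (gq t (J I)) := by
        rw [Finset.sum_comp (fun A => volume A) (fun I => gq t (J I)), ← h1]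
        apply Finset.sum_le_sum
        intro A hA
        rw [nsmul_eq_mul]
        have h3 : 1 ≤ (G'.filter (fun I => gq t (J I) = A)).card := by
          rw [h1] at hA
          obtain ⟨I, hI, hIA⟩ := Finset.mem_image.1 hA
          exact Finset.card_pos.2 ⟨I, Finset.mem_filter.2 ⟨hI, hIA⟩⟩
        calc volume A = 1 * volume A := by rw [one_mul]
          _ ≤ _ := mul_le_mul' (by exact_mod_cast h3) le_rfl
      have hG'F : ∀ I ∈ G', I ∈ F ∧ tt I = t ∧ gq t (J I) ∈ G := by
        intro I hI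
        have h3 := Finset.mem_filter.1 hI
        have h4 := Finset.mem_filter.1 h3.1
        exact ⟨h4.1, h4.2, h3.2⟩
      calc ∑ A ∈ G, volume A ≤ ∑ I ∈ G', volume (gq t (J I)) := h2
        _ ≤ ∑ I ∈ G', M₀ * volume (E I) := by
            apply Finset.sum_le_sum
            intro I hI
            obtain ⟨h3, h4, h5⟩ := hG'F I hI
            rw [← h4, hJvol]
            calc (q : ℝ≥0∞) * volume (gq t₀ I) ≤ q * (2 * volume (E I)) :=
                  mul_le_mul' le_rfl (hEv I h3)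
              _ = M₀ * volume (E I) := by
                  rw [hM₀, hq]; push_cast; ring
        _ = M₀ * ∑ I ∈ G', volume (E I) := by rw [Finset.mul_sum]
        _ ≤ M₀ * volume Q := by
            apply mul_le_mul' le_rfl
            rw [← measure_biUnion_finset (fun I hI J hJ hIJ =>
              hEdis I (hG'F I hI).1 J (hG'F J hJ).1 hIJ) (fun I hI => hEm I (hG'F I hI).1)]
            apply measure_mono
            apply Set.iUnion₂_subset
            intro I hI
            obtain ⟨h3, h4, h5⟩ := hG'F I hI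
            refine ((hEsub I h3).trans (hsub I)).trans ?_
            rw [h4]
            exact hGQ _ h5
    · intro A hA
      obtain ⟨I, _, rfl⟩ := hSgq A hA
      rw [gq_eq_cube]; exact hK₁ _ _ (by positivity)
    · intro A hA
      obtain ⟨I, _, rfl⟩ := hSgq A hA
      rw [gq_eq_cube]; exact hK₂ _ _ (by positivity)
    · exact hf
  have hmeas : ∀ t, Measurable (fun y => ∑ A ∈ St t, ai f μ A y) := by
    intro t
    apply Finset.measurable_fun_sum
    intro A hA
    obtain ⟨I, _, rfl⟩ := Finset.mem_image.1 hA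
    exact measurable_const.indicator (gq_meas _ _)
  calc ∫⁻ y, (∑ I ∈ F, (gq t₀ I).indicator (fun _ => (∫⁻ z in dil a t₀ I, f z ∂μ) /
        volume (dil a t₀ I)) y) ^ p ∂ν
      ≤ ∫⁻ y, ((q * M₀) * ∑ t : Fin d → Bool, ∑ A ∈ St t, ai f μ A y) ^ p ∂ν := by
        apply lintegral_mono
        intro y
        exact ENNReal.rpow_le_rpow (hpt y) hp0.le
    _ ≤ ∫⁻ y, (q * M₀) ^ p * ((Fintype.card (Fin d → Bool) : ℝ≥0∞) ^ p *
          ∑ t : Fin d → Bool, (∑ A ∈ St t, ai f μ A y) ^ p) ∂ν := by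
        apply lintegral_mono
        intro y
        show ((q * M₀) * ∑ t : Fin d → Bool, ∑ A ∈ St t, ai f μ A y) ^ p ≤ _
        rw [ENNReal.mul_rpow_of_nonneg _ _ hp0.le]
        apply mul_le_mul' le_rfl
        exact p_sum_le hp0 Finset.univ (fun t => ∑ A ∈ St t, ai f μ A y)
    _ = (q * M₀) ^ p * ((Fintype.card (Fin d → Bool) : ℝ≥0∞) ^ p *
          ∑ t : Fin d → Bool, ∫⁻ y, (∑ A ∈ St t, ai f μ A y) ^ p ∂ν) := by
        have hm1 : ∀ t ∈ (Finset.univ : Finset (Fin d → Bool)),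
            Measurable (fun y => (∑ A ∈ St t, ai f μ A y) ^ p) := fun t _ => (hmeas t).pow_const p
        rw [lintegral_const_mul _ (Measurable.const_mul (Finset.measurable_fun_sum _ hm1) _),
          lintegral_const_mul _ (Finset.measurable_fun_sum _ hm1),
          lintegral_finsetSum _ hm1]
    _ ≤ (q * M₀) ^ p * ((Fintype.card (Fin d → Bool) : ℝ≥0∞) ^ p *
          ∑ t : Fin d → Bool, C * ∫⁻ y, f y ^ p ∂μ) := by
        apply mul_le_mul' le_rfl
        apply mul_le_mul' le_rfl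
        exact Finset.sum_le_sum (fun t _ => hgrid t)
    _ = _ := by
        rw [Finset.sum_const, nsmul_eq_mul, Finset.card_univ]
        simp only [ENNReal.coe_mul, ENNReal.coe_rpow_of_nonneg _ hp0.le, ENNReal.coe_natCast]
        ring

end Pool.Agent.KS6_4.SB
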