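import Pool.Graph.R_seed8.H433R3.Sep13
import Pool.Agent.KS6_4.SB.A11

/-!
Separated bumps, all exponents: sparse families of arbitrary cubes.
-/

set_option autoImplicit false
set_option linter.unusedSectionVars false
set_option linter.unusedVariables false

namespace Pool.Agent.KS6_4.SB

open MeasureTheory Metric Pool.Agent.H433R3.Sep
open scoped ENNReal NNReal

variable {d : ℕ}

lemma cube_vol (a : Fin d → ℝ) (l : ℝ) : volume (cube a l) = ENNReal.ofReal l ^ d := by
  have : cube a l = Set.pi Set.univ (fun i => Set.Ico (a i) (a i + l)) := by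
    ext x
    simp only [cube, Set.mem_univ_pi, Set.mem_Ico, Set.mem_ofPred_eq]
  rw [this, Real.volume_pi_Ico]
  simp

lemma cube_msb (a : Fin d → ℝ) (l : ℝ) : MeasurableSet (cube a l) := by
  have : cube a l = Set.pi Set.univ (fun i => Set.Ico (a i) (a i + l)) := by
    ext x
    simp only [cube, Set.mem_univ_pi, Set.mem_Ico, Set.mem_ofPred_eq]
  rw [this]
  exact MeasurableSet.univ_pi (fun i => measurableSet_Ico)

lemma cube_parent (a : Fin d → ℝ) {l : ℝ} (hl : 0 < l) :
    ∃ (t : Fin d → Bool) (J : Idx d), cube a l ⊆ gq t J ∧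
      volume (gq t J) ≤ (6 : ℝ≥0∞) ^ d * volume (cube a l) := by
  obtain ⟨n, hn1, hn2⟩ := exists_mem_Ico_zpow (x := 3 * l) (y := (2:ℝ)) (by positivity) (by norm_num)
  obtain ⟨t, m, hm⟩ := third_pi (n + 1) (fun i => a i + l / 2) (l / 2) (by positivity)
    (by linarith)
  refine ⟨t, (n + 1, m), ?_, ?_⟩
  · refine Set.Subset.trans ?_ hm
    intro x hx
    rw [mem_closedBall, dist_pi_le_iff (by positivity)]
    intro i
    have := hx i
    rw [Real.dist_eq, abs_le]
    constructor <;> linarith [this.1, this.2]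
  · rw [gq_vol, cube_vol, ← mul_pow]
    apply pow_le_pow_left₀ bot_le
    have e : (6 : ℝ≥0∞) = ENNReal.ofReal 6 := by norm_num
    rw [e, ← ENNReal.ofReal_mul (by norm_num)]
    apply ENNReal.ofReal_le_ofReal
    simp only
    rw [zpow_add_one₀ (by norm_num)]
    linarith

theorem sparseFin {p r : ℝ} (hpq : p.HolderConjugate r)
    (hd : 0 < d) {Φ₁ Φ₂ : ℝ≥0 → ℝ≥0} (h₁ : IsYoung Φ₁) (h₂ : IsYoung Φ₂)
    (hint₁ : ∃ c : ℝ≥0, 0 < c ∧ ∫⁻ x in Set.Ioi (c:ℝ), bint (p - 1) Φ₁ x ≠ ∞)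
    (hint₂ : ∃ c : ℝ≥0, 0 < c ∧ ∫⁻ x in Set.Ioi (c:ℝ), bint (r - 1) Φ₂ x ≠ ∞)
    (K₁ K₂ : ℝ≥0) (N : ℕ) (hN : 0 < N) :
    ∃ C : ℝ≥0, ∀ (w σ : (Fin d → ℝ) → ℝ≥0), Measurable w → Measurable σ →
      (∀ (c : Fin d → ℝ) (l : ℝ), 0 < l → wm volume w (cube c l) < ∞) →
      (∀ (c : Fin d → ℝ) (l : ℝ), 0 < l → wm volume σ (cube c l) < ∞) →
      (∀ (c : Fin d → ℝ) (l : ℝ), 0 < l → lux volume Φ₁ w (cube c l) ^ (p - 1) *
        (wm volume σ (cube c l) / volume (cube c l)) ≤ K₁) →
      (∀ (c : Fin d → ℝ) (l : ℝ), 0 < l → lux volume Φ₂ σ (cube c l) ^ (r - 1) *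
        (wm volume w (cube c l) / volume (cube c l)) ≤ K₂) →
      ∀ (ι : Type) (F : Finset ι) (a : ι → Fin d → ℝ) (l : ι → ℝ) (E : ι → Set (Fin d → ℝ)),
      (∀ i ∈ F, 0 < l i) →
      (∀ i ∈ F, MeasurableSet (E i)) → (∀ i ∈ F, E i ⊆ cube (a i) (l i)) →
      (∀ i ∈ F, volume (cube (a i) (l i)) ≤ N * volume (E i)) →
      (∀ i ∈ F, ∀ j ∈ F, i ≠ j → Disjoint (E i) (E j)) →
      ∀ f : (Fin d → ℝ) → ℝ≥0∞, Measurable f →
      ∫⁻ y, (∑ i ∈ F, (cube (a i) (l i)).indicator
        (fun _ => (∫⁻ z in cube (a i) (l i), f z ∂(wm volume w)) /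
        volume (cube (a i) (l i))) y) ^ p ∂(wm volume σ) ≤ C * ∫⁻ y, f y ^ p ∂(wm volume w) := by
  classical
  set M₀ : ℕ := 6 ^ d * N with hM₀
  have hM₀pos : 0 < M₀ := by positivity
  obtain ⟨C, hC⟩ := carlOp (α := Fin d → ℝ) hpq h₁ h₂ hint₁ hint₂ K₁ K₂ M₀ hM₀pos
  have hp0 : 0 < p := by linarith [hpq.lt]
  set q : ℕ := 6 ^ d with hq
  refine ⟨(q * M₀ : ℝ≥0) ^ p * ((Fintype.card (Fin d → Bool) : ℝ≥0) ^ p *
    ((Fintype.card (Fin d → Bool) : ℝ≥0) * C)), ?_⟩
  intro w σ hw hσ hwf hσf hK₁ hK₂ ι F a l E hl hEm hEsub hEv hEdis f hf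
  set μ := wm volume w with hμ
  set ν := wm volume σ with hν
  -- parents
  have hpar : ∀ i : ι, ∃ (t : Fin d → Bool) (J : Idx d), i ∈ F → (cube (a i) (l i) ⊆ gq t J ∧
      volume (gq t J) ≤ q * volume (cube (a i) (l i))) := by
    intro i
    by_cases hi : i ∈ F
    · obtain ⟨t, J, h1, h2⟩ := cube_parent (a i) (hl i hi)
      refine ⟨t, J, fun _ => ⟨h1, ?_⟩⟩
      rw [hq]; push_cast; exact h2
    · exact ⟨fun _ => true, (0, fun _ => 0), fun h => absurd h hi⟩
  choose tt J hpar using hpar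
  have hsub : ∀ i ∈ F, cube (a i) (l i) ⊆ gq (tt i) (J i) := fun i hi => (hpar i hi).1
  have hJvol : ∀ i ∈ F, volume (gq (tt i) (J i)) ≤ q * volume (cube (a i) (l i)) :=
    fun i hi => (hpar i hi).2
  have hcv : ∀ i ∈ F, volume (cube (a i) (l i)) ≠ 0 ∧ volume (cube (a i) (l i)) ≠ ∞ := by
    intro i hi
    have := hl i hi
    rw [cube_vol]
    exact ⟨pow_ne_zero _ (by simpa using this), ENNReal.pow_ne_top ENNReal.ofReal_ne_top⟩
  -- pointwise bound of a single term
  have hterm : ∀ i ∈ F, ∀ y, (cube (a i) (l i)).indicator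
      (fun _ => (∫⁻ z in cube (a i) (l i), f z ∂μ) / volume (cube (a i) (l i))) y ≤
        q * ai f μ (gq (tt i) (J i)) y := by
    intro i hi y
    by_cases hy : y ∈ cube (a i) (l i)
    · rw [Set.indicator_of_mem hy]
      unfold ai
      rw [Set.indicator_of_mem (hsub i hi hy)]
      have hqpos : (q : ℝ≥0∞) ≠ 0 := by
        have : q ≠ 0 := by positivity
        exact_mod_cast this
      calc (∫⁻ z in cube (a i) (l i), f z ∂μ) / volume (cube (a i) (l i))
          ≤ (∫⁻ z in gq (tt i) (J i), f z ∂μ) / volume (cube (a i) (l i)) :=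
            ENNReal.div_le_div (lintegral_mono_set (hsub i hi)) le_rfl
        _ = q * ((∫⁻ z in gq (tt i) (J i), f z ∂μ) / (q * volume (cube (a i) (l i)))) := by
            rw [← mul_div_assoc, ENNReal.mul_div_mul_left _ _ hqpos (by simp)]
        _ ≤ q * ((∫⁻ z in gq (tt i) (J i), f z ∂μ) / volume (gq (tt i) (J i))) := by
            apply mul_le_mul' le_rfl
            exact ENNReal.div_le_div le_rfl (hJvol i hi)
    · rw [Set.indicator_of_notMem hy]; exact bot_le
  set Ft : (Fin d → Bool) → Finset ι := fun t => F.filter (fun I => tt I = t) with hFt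
  have hFtF : ∀ t, Ft t ⊆ F := fun t => Finset.filter_subset _ _
  set St : (Fin d → Bool) → Finset (Set (Fin d → ℝ)) :=
    fun t => (Ft t).image (fun I => gq t (J I)) with hSt
  -- cardinality of fibers
  have hcard : ∀ t, ∀ A ∈ St t, ((Ft t).filter (fun I => gq t (J I) = A)).card ≤ M₀ := by
    intro t A hA
    obtain ⟨I₀, hI₀, hA₀⟩ := Finset.mem_image.1 hA
    set G := (Ft t).filter (fun I => gq t (J I) = A) with hG
    have hGF : ∀ I ∈ G, I ∈ F ∧ tt I = t ∧ gq t (J I) = A := by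
      intro I hI
      have h3 := Finset.mem_filter.1 hI
      have h4 := Finset.mem_filter.1 h3.1
      exact ⟨h4.1, h4.2, h3.2⟩
    have h1 : ∑ I ∈ G, volume (E I) ≤ volume A := by
      rw [← measure_biUnion_finset (fun I hI J hJ hIJ => hEdis I (hGF I hI).1 J (hGF J hJ).1 hIJ)
        (fun I hI => hEm I (hGF I hI).1)]
      apply measure_mono
      apply Set.iUnion₂_subset
      intro I hI
      obtain ⟨h3, h4, h5⟩ := hGF I hI
      rw [← h5, ← h4]
      exact (hEsub I h3).trans (hsub I h3)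
    have h2 : ∀ I ∈ G, volume A ≤ M₀ * volume (E I) := by
      intro I hI
      obtain ⟨h3, h4, h5⟩ := hGF I hI
      rw [← h5, ← h4]
      calc volume (gq (tt I) (J I)) ≤ q * volume (cube (a I) (l I)) := hJvol I h3
        _ ≤ q * (N * volume (E I)) := mul_le_mul' le_rfl (hEv I h3)
        _ = M₀ * volume (E I) := by
            rw [hM₀, hq]; push_cast; ring
    have h3 : (G.card : ℝ≥0∞) * volume A ≤ M₀ * volume A := by
      calc (G.card : ℝ≥0∞) * volume A = ∑ I ∈ G, volume A := by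
            rw [Finset.sum_const, nsmul_eq_mul]
        _ ≤ ∑ I ∈ G, M₀ * volume (E I) := Finset.sum_le_sum h2
        _ = M₀ * ∑ I ∈ G, volume (E I) := by rw [Finset.mul_sum]
        _ ≤ _ := mul_le_mul' le_rfl h1
    have hAv : 0 < volume A ∧ volume A < ∞ := by rw [← hA₀]; exact gq_vol_pos _ _
    have h4 := (ENNReal.mul_le_mul_iff_left hAv.1.ne' hAv.2.ne).1 h3
    exact_mod_cast h4
  -- pointwise bound of the sum
  have hpt : ∀ y, ∑ i ∈ F, (cube (a i) (l i)).indicator
        (fun _ => (∫⁻ z in cube (a i) (l i), f z ∂μ) / volume (cube (a i) (l i))) y ≤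
        (q * M₀) * ∑ t : Fin d → Bool, ∑ A ∈ St t, ai f μ A y := by
    intro y
    calc ∑ i ∈ F, (cube (a i) (l i)).indicator
            (fun _ => (∫⁻ z in cube (a i) (l i), f z ∂μ) / volume (cube (a i) (l i))) y
          ≤ ∑ I ∈ F, q * ai f μ (gq (tt I) (J I)) y :=
          Finset.sum_le_sum (fun I hI => hterm I hI y)
      _ = q * ∑ t : Fin d → Bool, ∑ I ∈ Ft t, ai f μ (gq t (J I)) y := by
          rw [← Finset.mul_sum]
          congr 1
          rw [← Finset.sum_fiberwise_of_maps_to (s := F) (t := Finset.univ) (g := tt)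
            (fun _ _ => Finset.mem_univ _)]
          apply Finset.sum_congr rfl
          intro t _
          apply Finset.sum_congr rfl
          intro I hI
          rw [(Finset.mem_filter.1 hI).2]
      _ ≤ q * ∑ t : Fin d → Bool, M₀ * ∑ A ∈ St t, ai f μ A y := by
          apply mul_le_mul' le_rfl
          apply Finset.sum_le_sum
          intro t _
          rw [Finset.sum_comp (fun A => ai f μ A y) (fun I => gq t (J I)), Finset.mul_sum]
          apply Finset.sum_le_sum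
          intro A hA
          rw [nsmul_eq_mul]
          apply mul_le_mul' _ le_rfl
          exact_mod_cast hcard t A hA
      _ = _ := by rw [← Finset.mul_sum]; ring
  -- bound for one grid
  have hgrid : ∀ t, ∫⁻ y, (∑ A ∈ St t, ai f μ A y) ^ p ∂ν ≤ C * ∫⁻ y, f y ^ p ∂μ := by
    intro t
    have hSgq : ∀ A ∈ St t, ∃ I ∈ Ft t, gq t (J I) = A := fun A hA => Finset.mem_image.1 hA
    apply hC volume w σ hw hσ (St t)
    · refine ⟨?_, ?_, ?_⟩
      · intro A hA
        obtain ⟨I, _, rfl⟩ := hSgq A hA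
        exact gq_meas _ _
      · intro A hA
        obtain ⟨I, _, rfl⟩ := hSgq A hA
        exact gq_nonempty _ _
      · intro A hA B hB
        obtain ⟨I, _, rfl⟩ := hSgq A hA
        obtain ⟨I', _, rfl⟩ := hSgq B hB
        exact gq_lam _ _ _
    · intro A hA
      obtain ⟨I, _, rfl⟩ := hSgq A hA
      exact gq_vol_pos _ _
    · intro A hA
      obtain ⟨I, _, rfl⟩ := hSgq A hA
      rw [gq_eq_cube]; exact hwf _ _ (by positivity)
    · intro A hA
      obtain ⟨I, _, rfl⟩ := hSgq A hA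
      rw [gq_eq_cube]; exact hσf _ _ (by positivity)
    · intro Q hQ G hG hGQ
      set G' := (Ft t).filter (fun I => gq t (J I) ∈ G) with hG'
      have h1 : G = G'.image (fun I => gq t (J I)) := by
        ext A
        rw [Finset.mem_image]
        constructor
        · intro hA
          obtain ⟨I, hI, hIA⟩ := hSgq A (hG hA)
          exact ⟨I, Finset.mem_filter.2 ⟨hI, by rw [hIA]; exact hA⟩, hIA⟩
        · rintro ⟨I, hI, rfl⟩
          exact (Finset.mem_filter.1 hI).2
      have h2 : ∑ A ∈ G, volume A ≤ ∑ I ∈ G', volume (gq t (J I)) := by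
        rw [Finset.sum_comp (fun A => volume A) (fun I => gq t (J I)), ← h1]
        apply Finset.sum_le_sum
        intro A hA
        rw [nsmul_eq_mul]
        have h3 : 1 ≤ (G'.filter (fun I => gq t (J I) = A)).card := by
          rw [h1] at hA
          obtain ⟨I, hI, hIA⟩ := Finset.mem_image.1 hA
          exact Finset.card_pos.2 ⟨I, Finset.mem_filter.2 ⟨hI, hIA⟩⟩
        calc volume A = 1 * volume A := by rw [one_mul]
          _ ≤ _ := mul_le_mul' (by exact_mod_cast h3) le_rfl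
      have hG'F : ∀ I ∈ G', I ∈ F ∧ tt I = t ∧ gq t (J I) ∈ G := by
        intro I hI
        have h3 := Finset.mem_filter.1 hI
        have h4 := Finset.mem_filter.1 h3.1
        exact ⟨h4.1, h4.2, h3.2⟩
      calc ∑ A ∈ G, volume A ≤ ∑ I ∈ G', volume (gq t (J I)) := h2
        _ ≤ ∑ I ∈ G', M₀ * volume (E I) := by
            apply Finset.sum_le_sum
            intro I hI
            obtain ⟨h3, h4, h5⟩ := hG'F I hI
            rw [← h4]
            calc volume (gq (tt I) (J I)) ≤ q * volume (cube (a I) (l I)) := hJvol I h3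
              _ ≤ q * (N * volume (E I)) := mul_le_mul' le_rfl (hEv I h3)
              _ = M₀ * volume (E I) := by
                  rw [hM₀, hq]; push_cast; ring
        _ = M₀ * ∑ I ∈ G', volume (E I) := by rw [Finset.mul_sum]
        _ ≤ M₀ * volume Q := by
            apply mul_le_mul' le_rfl
            rw [← measure_biUnion_finset (fun I hI J hJ hIJ =>
              hEdis I (hG'F I hI).1 J (hG'F J hJ).1 hIJ) (fun I hI => hEm I (hG'F I hI).1)]
            apply measure_mono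
            apply Set.iUnion₂_subset
            intro I hI
            obtain ⟨h3, h4, h5⟩ := hG'F I hI
            refine ((hEsub I h3).trans (hsub I h3)).trans ?_
            rw [h4]
            exact hGQ _ h5
    · intro A hA
      obtain ⟨I, _, rfl⟩ := hSgq A hA
      rw [gq_eq_cube]; exact hK₁ _ _ (by positivity)
    · intro A hA
      obtain ⟨I, _, rfl⟩ := hSgq A hA
      rw [gq_eq_cube]; exact hK₂ _ _ (by positivity)
    · exact hf
  have hmeas : ∀ t, Measurable (fun y => ∑ A ∈ St t, ai f μ A y) := by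
    intro t
    apply Finset.measurable_fun_sum
    intro A hA
    obtain ⟨I, _, rfl⟩ := Finset.mem_image.1 hA
    exact measurable_const.indicator (gq_meas _ _)
  calc ∫⁻ y, (∑ i ∈ F, (cube (a i) (l i)).indicator
            (fun _ => (∫⁻ z in cube (a i) (l i), f z ∂μ) / volume (cube (a i) (l i))) y) ^ p ∂ν
      ≤ ∫⁻ y, ((q * M₀) * ∑ t : Fin d → Bool, ∑ A ∈ St t, ai f μ A y) ^ p ∂ν := by
        apply lintegral_mono
        intro y
        exact ENNReal.rpow_le_rpow (hpt y) hp0.le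
    _ ≤ ∫⁻ y, (q * M₀) ^ p * ((Fintype.card (Fin d → Bool) : ℝ≥0∞) ^ p *
          ∑ t : Fin d → Bool, (∑ A ∈ St t, ai f μ A y) ^ p) ∂ν := by
        apply lintegral_mono
        intro y
        show ((q * M₀) * ∑ t : Fin d → Bool, ∑ A ∈ St t, ai f μ A y) ^ p ≤ _
        rw [ENNReal.mul_rpow_of_nonneg _ _ hp0.le]
        apply mul_le_mul' le_rfl
        exact p_sum_le hp0 Finset.univ (fun t => ∑ A ∈ St t, ai f μ A y)
    _ = (q * M₀) ^ p * ((Fintype.card (Fin d → Bool) : ℝ≥0∞) ^ p *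
          ∑ t : Fin d → Bool, ∫⁻ y, (∑ A ∈ St t, ai f μ A y) ^ p ∂ν) := by
        have hm1 : ∀ t ∈ (Finset.univ : Finset (Fin d → Bool)),
            Measurable (fun y => (∑ A ∈ St t, ai f μ A y) ^ p) := fun t _ => (hmeas t).pow_const p
        rw [lintegral_const_mul _ (Measurable.const_mul (Finset.measurable_fun_sum _ hm1) _),
          lintegral_const_mul _ (Finset.measurable_fun_sum _ hm1),
          lintegral_finsetSum _ hm1]
    _ ≤ (q * M₀) ^ p * ((Fintype.card (Fin d → Bool) : ℝ≥0∞) ^ p *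
          ∑ t : Fin d → Bool, C * ∫⁻ y, f y ^ p ∂μ) := by
        apply mul_le_mul' le_rfl
        apply mul_le_mul' le_rfl
        exact Finset.sum_le_sum (fun t _ => hgrid t)
    _ = _ := by
        rw [Finset.sum_const, nsmul_eq_mul, Finset.card_univ]
        simp only [ENNReal.coe_mul, ENNReal.coe_rpow_of_nonneg _ hp0.le, ENNReal.coe_natCast]
        ring


/-- Countable sparse families. -/
theorem sparseGen {p r : ℝ} (hpq : p.HolderConjugate r)
    (hd : 0 < d) {Φ₁ Φ₂ : ℝ≥0 → ℝ≥0} (h₁ : IsYoung Φ₁) (h₂ : IsYoung Φ₂)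
    (hint₁ : ∃ c : ℝ≥0, 0 < c ∧ ∫⁻ x in Set.Ioi (c:ℝ), bint (p - 1) Φ₁ x ≠ ∞)
    (hint₂ : ∃ c : ℝ≥0, 0 < c ∧ ∫⁻ x in Set.Ioi (c:ℝ), bint (r - 1) Φ₂ x ≠ ∞)
    (K₁ K₂ : ℝ≥0) (N : ℕ) (hN : 0 < N) :
    ∃ C : ℝ≥0, ∀ (w σ : (Fin d → ℝ) → ℝ≥0), Measurable w → Measurable σ →
      (∀ (c : Fin d → ℝ) (l : ℝ), 0 < l → wm volume w (cube c l) < ∞) →
      (∀ (c : Fin d → ℝ) (l : ℝ), 0 < l → wm volume σ (cube c l) < ∞) →
      (∀ (c : Fin d → ℝ) (l : ℝ), 0 < l → lux volume Φ₁ w (cube c l) ^ (p - 1) *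
        (wm volume σ (cube c l) / volume (cube c l)) ≤ K₁) →
      (∀ (c : Fin d → ℝ) (l : ℝ), 0 < l → lux volume Φ₂ σ (cube c l) ^ (r - 1) *
        (wm volume w (cube c l) / volume (cube c l)) ≤ K₂) →
      ∀ (ι : Type) [Countable ι] (a : ι → Fin d → ℝ) (l : ι → ℝ) (E : ι → Set (Fin d → ℝ)),
      (∀ i, 0 < l i) →
      (∀ i, MeasurableSet (E i)) → (∀ i, E i ⊆ cube (a i) (l i)) →
      (∀ i, volume (cube (a i) (l i)) ≤ N * volume (E i)) →
      (∀ i, ∀ j, i ≠ j → Disjoint (E i) (E j)) →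
      ∀ f : (Fin d → ℝ) → ℝ≥0∞, Measurable f →
      ∫⁻ y, (∑' i, (cube (a i) (l i)).indicator
        (fun _ => (∫⁻ z in cube (a i) (l i), f z ∂(wm volume w)) /
        volume (cube (a i) (l i))) y) ^ p ∂(wm volume σ) ≤ C * ∫⁻ y, f y ^ p ∂(wm volume w) := by
  classical
  obtain ⟨C, hC⟩ := sparseFin hpq hd h₁ h₂ hint₁ hint₂ K₁ K₂ N hN
  have hp0 : 0 < p := by linarith [hpq.lt]
  refine ⟨C, ?_⟩
  intro w σ hw hσ hwf hσf hK₁ hK₂ ι _ a l E hl hEm hEsub hEv hEdis f hf
  have hmS : ∀ s : Finset ι, Measurable (fun y => ∑ i ∈ s, (cube (a i) (l i)).indicator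
        (fun _ => (∫⁻ z in cube (a i) (l i), f z ∂(wm volume w)) /
        volume (cube (a i) (l i))) y) := by
    intro s
    apply Finset.measurable_fun_sum
    intro i _
    exact measurable_const.indicator (cube_msb _ _)
  have hsup : ∀ y, (∑' i, (cube (a i) (l i)).indicator
        (fun _ => (∫⁻ z in cube (a i) (l i), f z ∂(wm volume w)) /
        volume (cube (a i) (l i))) y) ^ p =
      ⨆ s : Finset ι, (∑ i ∈ s, (cube (a i) (l i)).indicator
        (fun _ => (∫⁻ z in cube (a i) (l i), f z ∂(wm volume w)) /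
        volume (cube (a i) (l i))) y) ^ p := by
    intro y
    rw [ENNReal.tsum_eq_iSup_sum]
    exact (Monotone.map_iSup_of_continuousAt (f := fun y : ℝ≥0∞ => y ^ p)
      ENNReal.continuous_rpow_const.continuousAt
      (fun a b hab => ENNReal.rpow_le_rpow hab hp0.le)
      (by simp [hp0]))
  simp_rw [hsup]
  rw [lintegral_iSup_directed (fun s => ((hmS s).pow_const p).aemeasurable)]
  · apply iSup_le
    intro s
    exact hC w σ hw hσ hwf hσf hK₁ hK₂ ι s a l E (fun i _ => hl i) (fun i _ => hEm i)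
      (fun i _ => hEsub i) (fun i _ => hEv i) (fun i _ j _ => hEdis i j) f hf
  · intro s s'
    refine ⟨s ∪ s', fun x => ?_, fun x => ?_⟩
    · exact ENNReal.rpow_le_rpow (Finset.sum_le_sum_of_subset Finset.subset_union_left) hp0.le
    · exact ENNReal.rpow_le_rpow (Finset.sum_le_sum_of_subset Finset.subset_union_right) hp0.le

end Pool.Agent.KS6_4.SB
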