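import Pool.Graph.R_seed8.H433R3.Sep15
import Pool.Agent.KS6_4.SB.A14

/-!
Separated bumps, all exponents: a positive Calderon-Zygmund kernel of Hardy type.
-/

set_option autoImplicit false
set_option linter.unusedSectionVars false
set_option linter.unusedVariables false

namespace Pool.Agent.KS6_4.SB

open MeasureTheory Metric Pool.Agent.H433R3.Sep
open scoped ENNReal NNReal

variable {d : ℕ}

/-- one half of the kernel -/
noncomputable def hh (d : ℕ) (r s : ℝ) : ℝ := max 0 (r - 2 * s) / r ^ (d + 1)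

/-- the kernel -/
noncomputable def hk (x y : Fin d → ℝ) : ℝ := hh d ‖x‖ ‖y‖ + hh d ‖y‖ ‖x‖

lemma hk_symm (x y : Fin d → ℝ) : hk x y = hk y x := by
  unfold hk; ring

lemma hh_nonneg {r s : ℝ} (hr : 0 ≤ r) : 0 ≤ hh d r s := by
  unfold hh; positivity

lemma hk_nonneg (x y : Fin d → ℝ) : 0 ≤ hk x y :=
  add_nonneg (hh_nonneg (norm_nonneg _)) (hh_nonneg (norm_nonneg _))

lemma hh_zero {r s : ℝ} (h : r ≤ 2 * s) : hh d r s = 0 := by
  unfold hh
  rw [max_eq_left (by linarith), zero_div]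

lemma hh_le {r s : ℝ} (hr : 0 < r) (hs : 0 ≤ s) : hh d r s ≤ 1 / r ^ d := by
  unfold hh
  rw [div_le_div_iff₀ (by positivity) (by positivity), pow_succ]
  have h1 : max 0 (r - 2 * s) ≤ r := max_le hr.le (by linarith)
  have h2 : 0 < r ^ d := by positivity
  nlinarith

/-- both terms are never nonzero at once -/
lemma hk_le {x y : Fin d → ℝ} {r : ℝ} (hr : 0 < r) (h : r ≤ max ‖x‖ ‖y‖) :
    hk x y ≤ 1 / r ^ d := by
  have key : ∀ a b : ℝ, 0 ≤ a → 0 ≤ b → b ≤ a → r ≤ a → hh d a b + hh d b a ≤ 1 / r ^ d := by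
    intro a b ha hb hba hra
    have ha0 : 0 < a := lt_of_lt_of_le hr hra
    rw [hh_zero (r := b) (s := a) (by linarith), add_zero]
    refine (hh_le ha0 hb).trans ?_
    apply one_div_le_one_div_of_le (by positivity)
    exact pow_le_pow_left₀ hr.le hra d
  rcases le_total ‖x‖ ‖y‖ with h1 | h1
  · rw [max_eq_right h1] at h
    unfold hk
    rw [add_comm]
    exact key _ _ (norm_nonneg _) (norm_nonneg _) h1 h
  · rw [max_eq_left h1] at h
    exact key _ _ (norm_nonneg _) (norm_nonneg _) h1 h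

lemma el_add_le (x y : Fin d → ℝ) : el (x + y) ≤ el x + el y := by
  have h : ∀ z : Fin d → ℝ, el z = ‖(WithLp.toLp 2 z : EuclideanSpace ℝ (Fin d))‖ := by
    intro z
    rw [EuclideanSpace.norm_eq]
    unfold el
    congr 1
    apply Finset.sum_congr rfl
    intro i _
    simp
  rw [h, h, h, WithLp.toLp_add]
  exact norm_add_le _ _

lemma el_tri (x x' y : Fin d → ℝ) : el (x - y) ≤ el (x - x') + el (x' - y) := by
  have : x - y = (x - x') + (x' - y) := by abel
  rw [this]
  exact el_add_le _ _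

lemma hk_size (x y : Fin d → ℝ) (hxy : x ≠ y) : hk x y ≤ (2 * √d) ^ d / el (x - y) ^ d := by
  have hne : 0 < ‖x - y‖ := norm_pos_iff.2 (sub_ne_zero.2 hxy)
  have hel : 0 < el (x - y) := lt_of_lt_of_le hne (norm_le_el _)
  have h1 : ‖x - y‖ ≤ 2 * max ‖x‖ ‖y‖ := by
    have := norm_sub_le x y
    have h2 := le_max_left ‖x‖ ‖y‖
    have h3 := le_max_right ‖x‖ ‖y‖
    linarith
  have hd0 : 0 < √(d:ℝ) := by
    have := el_le (x - y)
    by_contra h
    push Not at h
    have h0 : √(d:ℝ) = 0 := le_antisymm h (Real.sqrt_nonneg _)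
    rw [h0, zero_mul] at this
    linarith
  have h4 : el (x - y) / (2 * √d) ≤ max ‖x‖ ‖y‖ := by
    rw [div_le_iff₀ (by positivity)]
    have := el_le (x - y)
    nlinarith
  refine (hk_le (r := el (x - y) / (2 * √d)) (by positivity) h4).trans (le_of_eq ?_)
  rw [div_pow, one_div_div]

/-- Lipschitz bound in the outer variable -/
lemma hh_lip1 {δ r r' s : ℝ} (hδ : 0 < δ) (hr : 0 ≤ r) (hr' : 0 ≤ r') (hs : 0 ≤ s)
    (h1 : 2 * s < r → δ ≤ r) (h2 : 2 * s < r' → δ ≤ r') :
    |hh d r s - hh d r' s| ≤ (d + 2) * |r - r'| / δ ^ (d + 1) := by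
  -- replace the denominators
  have hrep : ∀ t : ℝ, 0 ≤ t → (2 * s < t → δ ≤ t) →
      hh d t s = max 0 (t - 2 * s) / (max t δ) ^ (d + 1) := by
    intro t ht hth
    by_cases h : 2 * s < t
    · rw [max_eq_left (hth h)]; rfl
    · push Not at h
      rw [hh_zero h, max_eq_left (by linarith), zero_div]
  have key : ∀ a b : ℝ, 0 ≤ a → 0 ≤ b → a ≤ b →
      |max 0 (a - 2 * s) / (max a δ) ^ (d + 1) - max 0 (b - 2 * s) / (max b δ) ^ (d + 1)| ≤
        (d + 2) * |a - b| / δ ^ (d + 1) := by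
    intro a b ha hb hab
    set m := max a δ with hm
    set m' := max b δ with hm'
    set A := max 0 (a - 2 * s) with hA
    set B := max 0 (b - 2 * s) with hB
    have hA0 : 0 ≤ A := le_max_left _ _
    have hAB : A ≤ B := max_le_max le_rfl (by linarith)
    have hBA : B - A ≤ b - a := by
      rw [hB, hA]
      rcases le_total 0 (a - 2 * s) with h | h
      · rw [max_eq_right h, max_eq_right (by linarith)]; linarith
      · rw [max_eq_left h]
        have : max 0 (b - 2 * s) ≤ b - a := max_le (by linarith) (by linarith)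
        linarith
    have hAm : A ≤ m := max_le (le_trans hδ.le (le_max_right _ _))
      (le_trans (by linarith) (le_max_left a δ))
    have hδm : δ ≤ m := le_max_right _ _
    have hmm : m ≤ m' := max_le_max hab le_rfl
    have hm0 : 0 < m := lt_of_lt_of_le hδ hδm
    have hm0' : 0 < m' := lt_of_lt_of_le hm0 hmm
    have hmd : m' - m ≤ b - a := by
      rw [hm, hm']
      rcases le_total a δ with h | h
      · rw [max_eq_right h]
        have : max b δ ≤ δ + (b - a) := max_le (by linarith) (by linarith)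
        linarith
      · rw [max_eq_left h, max_eq_left (by linarith)]
    have hpow : m' ^ (d + 1) - m ^ (d + 1) ≤ (d + 1) * (m' - m) * m' ^ d := by
      have h := abs_pow_sub_pow_le m' m (d + 1)
      rw [abs_of_nonneg (sub_nonneg.2 (pow_le_pow_left₀ hm0.le hmm _)),
        abs_of_nonneg (sub_nonneg.2 hmm), abs_of_pos hm0', abs_of_pos hm0, max_eq_left hmm] at h
      simp only [Nat.add_sub_cancel] at h
      push_cast at h
      linarith
    have e : A / m ^ (d + 1) - B / m' ^ (d + 1) =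
        (A - B) / m' ^ (d + 1) + A * (m' ^ (d + 1) - m ^ (d + 1)) / (m ^ (d + 1) * m' ^ (d + 1)) := by
      field_simp
      ring
    rw [e]
    have hP0 : 0 < m ^ (d + 1) := by positivity
    have hP0' : 0 < m' ^ (d + 1) := by positivity
    have hδP : 0 < δ ^ (d + 1) := by positivity
    have t1 : |(A - B) / m' ^ (d + 1)| ≤ (b - a) / δ ^ (d + 1) := by
      rw [abs_div, abs_of_pos hP0', abs_sub_comm, abs_of_nonneg (sub_nonneg.2 hAB)]
      apply div_le_div₀ (by linarith) hBA hδP
      exact pow_le_pow_left₀ hδ.le (hδm.trans hmm) _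
    have t2 : |A * (m' ^ (d + 1) - m ^ (d + 1)) / (m ^ (d + 1) * m' ^ (d + 1))| ≤
        (d + 1) * (b - a) / δ ^ (d + 1) := by
      have hnn : 0 ≤ A * (m' ^ (d + 1) - m ^ (d + 1)) / (m ^ (d + 1) * m' ^ (d + 1)) := by
        have := sub_nonneg.2 (pow_le_pow_left₀ hm0.le hmm (d + 1))
        positivity
      rw [abs_of_nonneg hnn]
      calc A * (m' ^ (d + 1) - m ^ (d + 1)) / (m ^ (d + 1) * m' ^ (d + 1))
          ≤ m * ((d + 1) * (m' - m) * m' ^ d) / (m ^ (d + 1) * m' ^ (d + 1)) := by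
            apply div_le_div_of_nonneg_right _ (by positivity)
            apply mul_le_mul hAm hpow _ hm0.le
            exact sub_nonneg.2 (pow_le_pow_left₀ hm0.le hmm (d + 1))
        _ = (d + 1) * (m' - m) / (m ^ d * m') := by
            rw [pow_succ m, pow_succ m']
            field_simp
        _ ≤ (d + 1) * (b - a) / δ ^ (d + 1) := by
            apply div_le_div₀ (by have := sub_nonneg.2 hab; positivity) _ hδP
            · rw [pow_succ]
              exact mul_le_mul (pow_le_pow_left₀ hδ.le hδm d) (hδm.trans hmm) hδ.le (by positivity)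
            · exact mul_le_mul_of_nonneg_left hmd (by positivity)
    refine (abs_add_le _ _).trans ((add_le_add t1 t2).trans (le_of_eq ?_))
    rw [abs_sub_comm, abs_of_nonneg (sub_nonneg.2 hab)]
    ring
  rw [hrep r hr h1, hrep r' hr' h2]
  rcases le_total r r' with h | h
  · exact key r r' hr hr' h
  · rw [abs_sub_comm, abs_sub_comm r r']
    exact key r' r hr' hr h

/-- Lipschitz bound in the inner variable -/
lemma hh_lip2 {δ r r' s : ℝ} (hδ : 0 < δ) (hs : 0 ≤ s)
    (h1 : 2 * r < s → δ ≤ s) (h2 : 2 * r' < s → δ ≤ s) :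
    |hh d s r - hh d s r'| ≤ 2 * |r - r'| / δ ^ (d + 1) := by
  by_cases h : 2 * r < s ∨ 2 * r' < s
  · have hsδ : δ ≤ s := h.elim h1 h2
    have hs0 : 0 < s := lt_of_lt_of_le hδ hsδ
    unfold hh
    rw [← sub_div, abs_div, abs_of_pos (by positivity : 0 < s ^ (d + 1))]
    apply div_le_div₀ (by positivity) _ (by positivity) (pow_le_pow_left₀ hδ.le hsδ _)
    have := abs_max_sub_max_le_abs (s - 2 * r) (s - 2 * r') 0
    rw [max_comm (s - 2 * r) 0, max_comm (s - 2 * r') 0] at this
    refine this.trans (le_of_eq ?_)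
    rw [show s - 2 * r - (s - 2 * r') = 2 * (r' - r) by ring, abs_mul, abs_sub_comm]
    norm_num
  · push Not at h
    rw [hh_zero h.1, hh_zero h.2, sub_zero, abs_zero]
    positivity

lemma hk_reg (hd : 0 < d) (x x' y : Fin d → ℝ) (hxy : x ≠ y) (hx : el (x - x') ≤ el (x - y) / 2) :
    |hk x y - hk x' y| ≤ (d + 4) * (3 * √d) ^ (d + 1) * el (x - x') / el (x - y) ^ (d + 1) := by
  have hne : 0 < ‖x - y‖ := norm_pos_iff.2 (sub_ne_zero.2 hxy)
  have hel : 0 < el (x - y) := lt_of_lt_of_le hne (norm_le_el _)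
  have hd0 : 0 < √(d:ℝ) := by rw [Real.sqrt_pos]; exact_mod_cast hd
  set δ : ℝ := el (x - y) / (3 * √d) with hδ
  have hδ0 : 0 < δ := by positivity
  have hel' : el (x - y) / 2 ≤ el (x' - y) := by
    have := el_tri x x' y; linarith
  -- if one norm is more than twice the other one, then it is at least `δ`
  have big : ∀ u v : Fin d → ℝ, el (x - y) / 2 ≤ el (u - v) → 2 * ‖v‖ < ‖u‖ → δ ≤ ‖u‖ := by
    intro u v h1 h2
    have h3 := el_le (u - v)
    have h4 := norm_sub_le u v
    have h5 : el (x - y) ≤ 3 * √d * ‖u‖ := by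
      have : √d * ‖u - v‖ ≤ √d * (3 / 2 * ‖u‖) := by
        apply mul_le_mul_of_nonneg_left _ hd0.le
        linarith
      linarith
    rw [hδ, div_le_iff₀ (by positivity)]
    linarith
  have hxy2 : el (x - y) / 2 ≤ el (x - y) := by linarith
  have a1 := hh_lip1 (d := d) hδ0 (norm_nonneg x) (norm_nonneg x') (norm_nonneg y)
    (big x y hxy2) (big x' y hel')
  have a2 := hh_lip2 (d := d) (r := ‖x‖) (r' := ‖x'‖) hδ0 (norm_nonneg y)
    (big y x (by rw [el_sub_comm y x]; exact hxy2)) (big y x' (by rw [el_sub_comm y x']; exact hel'))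
  have h6 : |‖x‖ - ‖x'‖| ≤ el (x - x') := (abs_norm_sub_norm_le x x').trans (norm_le_el _)
  have e : hk x y - hk x' y = (hh d ‖x‖ ‖y‖ - hh d ‖x'‖ ‖y‖) + (hh d ‖y‖ ‖x‖ - hh d ‖y‖ ‖x'‖) := by
    unfold hk; ring
  rw [e]
  refine (abs_add_le _ _).trans ((add_le_add a1 a2).trans ?_)
  have h7 : (d + 2) * |‖x‖ - ‖x'‖| / δ ^ (d + 1) + 2 * |‖x‖ - ‖x'‖| / δ ^ (d + 1) =
      (d + 4) * |‖x‖ - ‖x'‖| / δ ^ (d + 1) := by ring
  rw [h7]
  have h8 : (d + 4) * (3 * √d) ^ (d + 1) * el (x - x') / el (x - y) ^ (d + 1) =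
      (d + 4) * el (x - x') / δ ^ (d + 1) := by
    rw [hδ, div_pow]
    field_simp
  rw [h8]
  apply div_le_div_of_nonneg_right _ (by positivity)
  exact mul_le_mul_of_nonneg_left h6 (by positivity)

end Pool.Agent.KS6_4.SB
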