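import Pool.Agent.KS6_4.SB.A15

/-!
Separated bumps, all exponents: the Hardy-type operator is dominated by a sparse operator.
-/

set_option autoImplicit false
set_option linter.unusedSectionVars false
set_option linter.unusedVariables false

namespace Pool.Agent.KS6_4.SB

open MeasureTheory Metric Filter Topology Pool.Agent.H433R3.Sep
open scoped ENNReal NNReal

variable {d : ℕ}

/-- the cubes `[-2^k, 2^k)^d` -/
def qk (d : ℕ) (k : ℤ) : Set (Fin d → ℝ) := cube (fun _ : Fin d => -(2:ℝ) ^ k) (2 * 2 ^ k)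

lemma qk_meas (k : ℤ) : MeasurableSet (qk d k) := cube_msb _ _

lemma qk_vol (k : ℤ) : volume (qk d k) = ENNReal.ofReal (2 * 2 ^ k) ^ d := cube_vol _ _

lemma mem_qk {k : ℤ} {x : Fin d → ℝ} : x ∈ qk d k ↔ ∀ i, -(2:ℝ) ^ k ≤ x i ∧ x i < 2 ^ k := by
  unfold qk cube
  simp only [Set.mem_ofPred_eq]
  constructor
  · intro h i
    have := h i
    constructor <;> linarith [this.1, this.2]
  · intro h i
    have := h i
    constructor <;> linarith [this.1, this.2]

lemma qk_of_norm {k : ℤ} {x : Fin d → ℝ} (h : ‖x‖ < 2 ^ k) : x ∈ qk d k := by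
  rw [mem_qk]
  intro i
  have h1 := norm_le_pi_norm x i
  rw [Real.norm_eq_abs] at h1
  have h2 := abs_le.1 (h1.trans h.le)
  have h3 := abs_lt.1 (lt_of_le_of_lt h1 h)
  exact ⟨h2.1, h3.2⟩

lemma qk_mono {j k : ℤ} (h : j ≤ k) : qk d j ⊆ qk d k := by
  intro x hx
  rw [mem_qk] at hx ⊢
  intro i
  have h1 : (2:ℝ) ^ j ≤ 2 ^ k := zpow_le_zpow_right₀ (by norm_num) h
  have := hx i
  constructor <;> linarith [this.1, this.2]

lemma qk_vol_ne (k : ℤ) : volume (qk d k) ≠ 0 ∧ volume (qk d k) ≠ ∞ := by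
  rw [qk_vol]
  refine ⟨pow_ne_zero _ ?_, ENNReal.pow_ne_top ENNReal.ofReal_ne_top⟩
  simp only [ne_eq, ENNReal.ofReal_eq_zero, not_le]
  positivity

/-- the pairwise disjoint parts -/
def ek (d : ℕ) (k : ℤ) : Set (Fin d → ℝ) := qk d k \ qk d (k - 1)

lemma ek_meas (k : ℤ) : MeasurableSet (ek d k) := (qk_meas k).diff (qk_meas _)

lemma ek_disj {i j : ℤ} (h : i ≠ j) : Disjoint (ek d i) (ek d j) := by
  have key : ∀ a b : ℤ, a < b → Disjoint (ek d a) (ek d b) := by
    intro a b hab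
    rw [Set.disjoint_left]
    intro x hxa hxb
    exact hxb.2 (qk_mono (by omega) hxa.1)
  rcases lt_or_gt_of_ne h with h1 | h1
  · exact key i j h1
  · exact (key j i h1).symm

lemma qk_two (hd : 0 < d) (k : ℤ) : 2 * volume (qk d (k - 1)) ≤ volume (qk d k) := by
  rw [qk_vol, qk_vol]
  have e : (2:ℝ) * 2 ^ k = 2 * (2 * 2 ^ (k - 1)) := by
    rw [zpow_sub_one₀ (by norm_num)]; ring
  rw [e, ENNReal.ofReal_mul (p := 2) (q := 2 * 2 ^ (k - 1)) (by norm_num), mul_pow]
  apply mul_le_mul' _ le_rfl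
  have : ENNReal.ofReal 2 = 2 := by norm_num
  rw [this]
  calc (2:ℝ≥0∞) = 2 ^ 1 := by norm_num
    _ ≤ 2 ^ d := pow_le_pow_right₀ (by norm_num) hd

lemma ek_vol (hd : 0 < d) (k : ℤ) : volume (qk d k) ≤ (2:ℕ) * volume (ek d k) := by
  have h1 : volume (qk d k) ≤ volume (ek d k) + volume (qk d (k - 1)) := by
    have : qk d k ⊆ ek d k ∪ qk d (k - 1) := by
      intro x hx
      by_cases h : x ∈ qk d (k - 1)
      · exact Or.inr h
      · exact Or.inl ⟨hx, h⟩
    exact (measure_mono this).trans (measure_union_le _ _)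
  have h2 := qk_two (d := d) hd k
  have h3 := (qk_vol_ne (d := d) k).2
  have h4 := (qk_vol_ne (d := d) (k - 1)).2
  have h5 : 2 * volume (qk d k) ≤ 2 * volume (ek d k) + volume (qk d k) := by
    calc 2 * volume (qk d k) ≤ 2 * (volume (ek d k) + volume (qk d (k - 1))) :=
          mul_le_mul' le_rfl h1
      _ = 2 * volume (ek d k) + 2 * volume (qk d (k - 1)) := by ring
      _ ≤ _ := add_le_add le_rfl h2
  have h6 : volume (qk d k) + volume (qk d k) ≤ 2 * volume (ek d k) + volume (qk d k) := by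
    rw [← two_mul]; exact h5
  have h7 := (ENNReal.add_le_add_iff_right h3).1 h6
  exact_mod_cast h7

/-- Domination of the kernel. -/
lemma hk_dom (x y : Fin d → ℝ) : ENNReal.ofReal (hk x y) ≤ 4 ^ d * ∑' k : ℤ,
    (qk d k).indicator (fun _ => (qk d k).indicator (fun _ => (volume (qk d k))⁻¹) y) x := by
  rcases (le_max_of_le_left (norm_nonneg x) : 0 ≤ max ‖x‖ ‖y‖).eq_or_lt with h0 | h0
  · have hx : ‖x‖ = 0 := le_antisymm ((le_max_left _ _).trans h0.symm.le) (norm_nonneg _)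
    have hy : ‖y‖ = 0 := le_antisymm ((le_max_right _ _).trans h0.symm.le) (norm_nonneg _)
    have : hk x y = 0 := by
      unfold hk
      rw [hx, hy, hh_zero (by norm_num), add_zero]
    rw [this, ENNReal.ofReal_zero]
    exact bot_le
  · obtain ⟨n, hn1, hn2⟩ := exists_mem_Ico_zpow (x := max ‖x‖ ‖y‖) (y := (2:ℝ)) h0 (by norm_num)
    have hp : (0:ℝ) < 2 ^ n := by positivity
    have h1 := hk_le hp hn1
    have hx : x ∈ qk d (n + 1) := qk_of_norm (lt_of_le_of_lt (le_max_left _ _) hn2)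
    have hy : y ∈ qk d (n + 1) := qk_of_norm (lt_of_le_of_lt (le_max_right _ _) hn2)
    refine le_trans ?_ (mul_le_mul' le_rfl (ENNReal.le_tsum (n + 1)))
    rw [Set.indicator_of_mem hx, Set.indicator_of_mem hy, qk_vol]
    have e : (2:ℝ) * 2 ^ (n + 1) = 4 * 2 ^ n := by
      rw [zpow_add_one₀ (by norm_num)]; ring
    rw [e, ENNReal.ofReal_mul (by norm_num), mul_pow]
    have e4 : ENNReal.ofReal 4 = 4 := by norm_num
    rw [e4, ENNReal.mul_inv (Or.inl (pow_ne_zero _ (by norm_num)))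
      (Or.inl (ENNReal.pow_ne_top (by norm_num))), ← mul_assoc,
      ENNReal.mul_inv_cancel (pow_ne_zero _ (by norm_num)) (ENNReal.pow_ne_top (by norm_num)),
      one_mul, ← ENNReal.ofReal_pow hp.le, ← ENNReal.ofReal_inv_of_pos (by positivity)]
    apply ENNReal.ofReal_le_ofReal
    rw [← one_div]
    exact h1

lemma hk_cont_meas : Measurable (fun z : (Fin d → ℝ) × (Fin d → ℝ) => hk z.1 z.2) := by
  unfold hk hh
  fun_prop

lemma op_dom {h : (Fin d → ℝ) → ℝ≥0∞} (hh : Measurable h) (x : Fin d → ℝ) :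
    ∫⁻ y, ENNReal.ofReal (hk x y) * h y ≤ 4 ^ d * ∑' k : ℤ,
      (qk d k).indicator (fun _ => (∫⁻ y in qk d k, h y) / volume (qk d k)) x := by
  calc ∫⁻ y, ENNReal.ofReal (hk x y) * h y
      ≤ ∫⁻ y, 4 ^ d * ∑' k : ℤ, (qk d k).indicator (fun _ =>
          (qk d k).indicator (fun y => (volume (qk d k))⁻¹ * h y) y) x := by
        apply lintegral_mono
        intro y
        refine (mul_le_mul' (hk_dom x y) le_rfl).trans (le_of_eq ?_)
        rw [mul_assoc, ← ENNReal.tsum_mul_right]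
        congr 1
        apply tsum_congr
        intro k
        by_cases hx : x ∈ qk d k
        · rw [Set.indicator_of_mem hx, Set.indicator_of_mem hx]
          by_cases hy : y ∈ qk d k
          · rw [Set.indicator_of_mem hy, Set.indicator_of_mem hy]
          · rw [Set.indicator_of_notMem hy, Set.indicator_of_notMem hy, zero_mul]
        · rw [Set.indicator_of_notMem hx, Set.indicator_of_notMem hx, zero_mul]
    _ = 4 ^ d * ∑' k : ℤ, ∫⁻ y, (qk d k).indicator (fun _ =>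
          (qk d k).indicator (fun y => (volume (qk d k))⁻¹ * h y) y) x := by
        rw [lintegral_const_mul' _ _ (ENNReal.pow_ne_top (by norm_num)), lintegral_tsum]
        intro k
        by_cases hx : x ∈ qk d k
        · simp only [Set.indicator_of_mem hx]
          exact ((hh.const_mul _).indicator (qk_meas k)).aemeasurable
        · simp only [Set.indicator_of_notMem hx]
          exact aemeasurable_const
    _ = _ := by
        congr 1
        apply tsum_congr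
        intro k
        by_cases hx : x ∈ qk d k
        · simp only [Set.indicator_of_mem hx]
          rw [lintegral_indicator (qk_meas k), lintegral_const_mul _ hh, mul_comm, div_eq_mul_inv]
        · simp only [Set.indicator_of_notMem hx, lintegral_zero]

/-- A weighted bound for the sparse operator gives one for the Hardy-type operator. -/
lemma hk_weighted {p : ℝ} (hp : 0 < p) {w σ : (Fin d → ℝ) → ℝ≥0} (hw : Measurable w)
    {C : ℝ≥0} {f : (Fin d → ℝ) → ℝ≥0∞} (hf : Measurable f)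
    (hb : ∫⁻ y, (∑' k : ℤ, (qk d k).indicator (fun _ => (∫⁻ z in qk d k, f z ∂(wm volume w)) /
        volume (qk d k)) y) ^ p ∂(wm volume σ) ≤ C * ∫⁻ y, f y ^ p ∂(wm volume w)) :
    ∫⁻ x, (∫⁻ y, ENNReal.ofReal (hk x y) * ((w y : ℝ≥0∞) * f y)) ^ p ∂(wm volume σ) ≤
      ((4 : ℝ≥0∞) ^ d) ^ p * C * ∫⁻ y, f y ^ p ∂(wm volume w) := by
  have h1 : ∀ k : ℤ, ∫⁻ z in qk d k, f z ∂(wm volume w) = ∫⁻ z in qk d k, (w z : ℝ≥0∞) * f z := by
    intro k
    unfold wm
    rw [setLIntegral_withDensity_eq_setLIntegral_mul volume hw.coe_nnreal_ennreal hf (qk_meas k)]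
    rfl
  simp only [h1] at hb
  calc ∫⁻ x, (∫⁻ y, ENNReal.ofReal (hk x y) * ((w y : ℝ≥0∞) * f y)) ^ p ∂(wm volume σ)
      ≤ ∫⁻ x, ((4:ℝ≥0∞) ^ d * ∑' k : ℤ, (qk d k).indicator (fun _ =>
          (∫⁻ z in qk d k, (w z : ℝ≥0∞) * f z) / volume (qk d k)) x) ^ p ∂(wm volume σ) := by
        apply lintegral_mono
        intro x
        exact ENNReal.rpow_le_rpow (op_dom (hw.coe_nnreal_ennreal.mul hf) x) hp.le
    _ = ((4:ℝ≥0∞) ^ d) ^ p * ∫⁻ x, (∑' k : ℤ, (qk d k).indicator (fun _ =>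
          (∫⁻ z in qk d k, (w z : ℝ≥0∞) * f z) / volume (qk d k)) x) ^ p ∂(wm volume σ) := by
        simp_rw [ENNReal.mul_rpow_of_nonneg _ _ hp.le]
        rw [lintegral_const_mul' _ _ (ENNReal.rpow_ne_top_of_nonneg hp.le
          (ENNReal.pow_ne_top (by norm_num)))]
    _ ≤ ((4:ℝ≥0∞) ^ d) ^ p * (C * ∫⁻ y, f y ^ p ∂(wm volume w)) := mul_le_mul' le_rfl hb
    _ = _ := by
        rw [← mul_assoc]

/-! ### `L²` bounds -/

lemma sq_young : IsYoung (fun t : ℝ≥0 => t ^ 2) := by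
  refine ⟨by fun_prop, ?_, ?_, by norm_num, ?_⟩
  · refine ⟨convex_univ, ?_⟩
    intro x _ y _ a b _ _ hab
    simp only [smul_eq_mul]
    have h1 : (a:ℝ) + b = 1 := by exact_mod_cast hab
    have ha : (0:ℝ) ≤ a := a.coe_nonneg
    have hb : (0:ℝ) ≤ b := b.coe_nonneg
    rw [← NNReal.coe_le_coe]
    push_cast
    have hb' : (b:ℝ) = 1 - a := by linarith
    rw [hb']
    nlinarith [mul_nonneg ha (by linarith : (0:ℝ) ≤ 1 - a), sq_nonneg ((x:ℝ) - y)]
  · intro x y h
    exact pow_le_pow_left₀ bot_le h 2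
  · refine tendsto_id.congr' ?_
    filter_upwards [eventually_gt_atTop (0:ℝ≥0)] with t ht
    rw [pow_two, mul_div_assoc, div_self ht.ne', mul_one]
    rfl

lemma sq_int : ∃ c : ℝ≥0, 0 < c ∧
    ∫⁻ x in Set.Ioi (c:ℝ), bint ((2:ℝ) - 1) (fun t : ℝ≥0 => t ^ 2) x ≠ ∞ := by
  refine ⟨1, one_pos, ?_⟩
  have h1 : ∫⁻ x in Set.Ioi ((1:ℝ≥0):ℝ), bint ((2:ℝ) - 1) (fun t : ℝ≥0 => t ^ 2) x =
      ∫⁻ x in Set.Ioi (1:ℝ), ENNReal.ofReal (x ^ (-2:ℝ)) := by
    rw [NNReal.coe_one]
    apply setLIntegral_congr_fun measurableSet_Ioi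
    intro x hx
    have hx0 : (0:ℝ) < x := lt_trans one_pos hx
    have hne : ENNReal.ofReal x ≠ 0 := by simpa using hx0
    unfold bint
    simp only
    rw [show (2:ℝ) - 1 = 1 by norm_num, ENNReal.rpow_one]
    have e : (((x.toNNReal ^ 2 : ℝ≥0)) : ℝ≥0∞) = ENNReal.ofReal x ^ 2 := by
      push_cast; rfl
    rw [e, Real.rpow_neg hx0.le, show (2:ℝ) = ((2:ℕ):ℝ) by norm_num, Real.rpow_natCast,
      ENNReal.ofReal_inv_of_pos (by positivity), ENNReal.ofReal_pow hx0.le, pow_two,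
      div_eq_mul_inv, div_eq_mul_inv, ENNReal.mul_inv (Or.inl hne) (Or.inl ENNReal.ofReal_ne_top),
      ← mul_assoc, ENNReal.mul_inv_cancel hne ENNReal.ofReal_ne_top, one_mul]
  rw [h1]
  have h2 := integrableOn_Ioi_rpow_of_lt (a := (-2:ℝ)) (by norm_num) (c := 1) one_pos
  have h3 := h2.2
  rw [hasFiniteIntegral_iff_norm] at h3
  refine (lt_of_le_of_lt (lintegral_mono fun x => ?_) h3).ne
  exact ENNReal.ofReal_le_ofReal (Real.le_norm_self _)

lemma wm_one : wm (volume : Measure (Fin d → ℝ)) (fun _ => (1:ℝ≥0)) = volume := by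
  unfold wm
  simp

/-- The `L²` bound of the positive operator. -/
lemma l2_bound (hd : 0 < d) : ∃ A : ℝ≥0, ∀ f : (Fin d → ℝ) → ℝ≥0∞, Measurable f →
    ∫⁻ x, (∫⁻ y, ENNReal.ofReal (hk x y) * f y) ^ (2:ℝ) ≤ A * ∫⁻ y, f y ^ (2:ℝ) := by
  have hpq : (2:ℝ).HolderConjugate 2 := by
    rw [Real.holderConjugate_iff]; norm_num
  obtain ⟨C, hC⟩ := sparseGen hpq hd sq_young sq_young sq_int sq_int 1 1 2 (by norm_num)
  refine ⟨((4 : ℝ≥0) ^ d) ^ (2:ℝ) * C, ?_⟩
  intro f hf
  have hlux : ∀ (c : Fin d → ℝ) (l : ℝ), 0 < l →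
      lux volume (fun t : ℝ≥0 => t ^ 2) (fun _ => (1:ℝ≥0)) (cube c l) ≤ 1 := by
    intro c l hl
    unfold lux
    refine iInf₂_le_of_le 1 ⟨one_pos, ?_⟩ (by simp)
    simp only [div_one, one_pow, ENNReal.coe_one, lintegral_const, MeasurableSet.univ,
      Measure.restrict_apply, Set.univ_inter, one_mul]
    exact ENNReal.inv_mul_le_one _
  have hfin : ∀ (c : Fin d → ℝ) (l : ℝ), 0 < l → volume (cube c l) < ∞ := by
    intro c l hl
    rw [cube_vol]
    exact ENNReal.pow_lt_top ENNReal.ofReal_lt_top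
  have hb : ∀ (c : Fin d → ℝ) (l : ℝ), 0 < l →
      lux volume (fun t : ℝ≥0 => t ^ 2) (fun _ => (1:ℝ≥0)) (cube c l) ^ ((2:ℝ) - 1) *
        (wm volume (fun _ => (1:ℝ≥0)) (cube c l) / volume (cube c l)) ≤ (1:ℝ≥0) := by
    intro c l hl
    rw [wm_one, show (2:ℝ) - 1 = 1 by norm_num, ENNReal.rpow_one]
    calc _ ≤ (1:ℝ≥0∞) * 1 := mul_le_mul' (hlux c l hl) ENNReal.div_self_le_one
      _ = _ := by simp
  have h1 := hC (fun _ => 1) (fun _ => 1) measurable_const measurable_const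
    (fun c l hl => by rw [wm_one]; exact hfin c l hl)
    (fun c l hl => by rw [wm_one]; exact hfin c l hl) hb hb
    ℤ (fun k _ => -(2:ℝ) ^ k) (fun k => 2 * 2 ^ k) (fun k => ek d k) (fun k => by positivity)
    (fun k => ek_meas k) (fun k => Set.diff_subset) (fun k => ek_vol hd k)
    (fun i j h => ek_disj h) f hf
  have h2 := hk_weighted (p := 2) (by norm_num) (w := fun _ => 1) (σ := fun _ => 1)
    measurable_const hf h1
  rw [wm_one] at h2
  simp only [ENNReal.coe_one, one_mul] at h2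
  refine h2.trans (le_of_eq ?_)
  rw [ENNReal.coe_mul, ENNReal.coe_rpow_of_nonneg _ (by norm_num), ENNReal.coe_pow]
  rfl

end Pool.Agent.KS6_4.SB
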