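import Pool.Agent.KS6_4.SB.A16

/-!
Separated bumps, all exponents: the Hardy-type operator as a Calderon-Zygmund operator.
-/

set_option autoImplicit false
set_option linter.unusedSectionVars false
set_option linter.unusedVariables false

namespace Pool.Agent.KS6_4.SB

open MeasureTheory Metric Filter Topology Pool.Agent.H433R3.Sep
open scoped ENNReal NNReal

variable {d : ℕ} {𝕜 : Type*} [RCLike 𝕜]

/-- the operator -/
noncomputable def TH (f : (Fin d → ℝ) → 𝕜) (x : Fin d → ℝ) : 𝕜 :=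
  ∫ y, ((hk x y : ℝ) : 𝕜) * f y

/-- the positive operator applied to the norm -/
noncomputable def Af (f : (Fin d → ℝ) → 𝕜) (x : Fin d → ℝ) : ℝ≥0∞ :=
  ∫⁻ y, ENNReal.ofReal (hk x y) * ‖f y‖ₑ

lemma enorm_hk (x y : Fin d → ℝ) (z : 𝕜) :
    ‖((hk x y : ℝ) : 𝕜) * z‖ₑ = ENNReal.ofReal (hk x y) * ‖z‖ₑ := by
  rw [enorm_mul]
  congr 1
  rw [← ofReal_norm, RCLike.norm_ofReal, abs_of_nonneg (hk_nonneg x y)]

lemma TH_congr {f g : (Fin d → ℝ) → 𝕜} (h : f =ᵐ[volume] g) : TH f = TH g := by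
  ext x
  unfold TH
  apply integral_congr_ae
  filter_upwards [h] with y hy
  rw [hy]

lemma Af_congr {f g : (Fin d → ℝ) → 𝕜} (h : f =ᵐ[volume] g) : Af f = Af g := by
  ext x
  unfold Af
  apply lintegral_congr_ae
  filter_upwards [h] with y hy
  rw [hy]

lemma enorm_TH (f : (Fin d → ℝ) → 𝕜) (x : Fin d → ℝ) : ‖TH f x‖ₑ ≤ Af f x := by
  unfold TH Af
  refine (enorm_integral_le_lintegral_enorm _).trans (le_of_eq ?_)
  apply lintegral_congr
  intro y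
  exact enorm_hk x y _

lemma Af_meas {f : (Fin d → ℝ) → 𝕜} (hf : Measurable f) : Measurable (Af f) := by
  unfold Af
  apply Measurable.lintegral_prod_right' (f := fun z : (Fin d → ℝ) × (Fin d → ℝ) =>
    ENNReal.ofReal (hk z.1 z.2) * ‖f z.2‖ₑ)
  exact (hk_cont_meas.ennreal_ofReal).mul (hf.comp measurable_snd).enorm

lemma hk_meas_right (x : Fin d → ℝ) : Measurable (fun y : Fin d → ℝ => hk x y) := by
  unfold hk hh
  fun_prop

lemma TH_meas {f : (Fin d → ℝ) → 𝕜} (hf : AEStronglyMeasurable f volume) :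
    StronglyMeasurable (TH f) := by
  rw [TH_congr hf.ae_eq_mk]
  unfold TH
  apply StronglyMeasurable.integral_prod_right' (f := fun z : (Fin d → ℝ) × (Fin d → ℝ) =>
    ((hk z.1 z.2 : ℝ) : 𝕜) * (hf.mk f) z.2)
  apply Measurable.stronglyMeasurable
  apply Measurable.mul
  · exact RCLike.continuous_ofReal.measurable.comp hk_cont_meas
  · exact hf.stronglyMeasurable_mk.measurable.comp measurable_snd

lemma Af_l2 (hd : 0 < d) : ∃ A : ℝ≥0, ∀ f : (Fin d → ℝ) → 𝕜, AEStronglyMeasurable f volume →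
    ∫⁻ x, Af f x ^ (2:ℝ) ≤ A * ∫⁻ y, ‖f y‖ₑ ^ (2:ℝ) := by
  obtain ⟨A, hA⟩ := l2_bound (d := d) hd
  refine ⟨A, ?_⟩
  intro f hf
  rw [Af_congr hf.ae_eq_mk]
  have h1 := hA (fun y => ‖hf.mk f y‖ₑ) hf.stronglyMeasurable_mk.measurable.enorm
  refine h1.trans (mul_le_mul' le_rfl (le_of_eq ?_))
  apply lintegral_congr_ae
  filter_upwards [hf.ae_eq_mk] with y hy
  rw [hy]

lemma two_norm {f : (Fin d → ℝ) → 𝕜} :
    eLpNorm f 2 volume = (∫⁻ x, ‖f x‖ₑ ^ (2:ℝ)) ^ (1 / (2:ℝ)) := by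
  rw [eLpNorm_eq_lintegral_rpow_enorm_toReal (by norm_num) (by norm_num)]
  simp

lemma memLp_int {f : (Fin d → ℝ) → 𝕜} (hf : MemLp f 2 volume) :
    ∫⁻ x, ‖f x‖ₑ ^ (2:ℝ) ≠ ∞ := by
  have h := hf.2
  rw [two_norm] at h
  intro h1
  rw [h1, ENNReal.top_rpow_of_pos (by norm_num)] at h
  exact lt_irrefl _ h

lemma ae_int (hd : 0 < d) {f : (Fin d → ℝ) → 𝕜} (hf : MemLp f 2 volume) :
    ∀ᵐ x, Integrable (fun y => ((hk x y : ℝ) : 𝕜) * f y) volume := by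
  obtain ⟨A, hA⟩ := Af_l2 (𝕜 := 𝕜) (d := d) hd
  have h1 := hA f hf.1
  have h2 : ∫⁻ x, Af f x ^ (2:ℝ) ≠ ∞ :=
    (lt_of_le_of_lt h1 (ENNReal.mul_lt_top ENNReal.coe_lt_top (memLp_int hf).lt_top)).ne
  have hm : Measurable (Af f) := by
    rw [Af_congr hf.1.ae_eq_mk]
    exact Af_meas hf.1.stronglyMeasurable_mk.measurable
  have h3 := ae_lt_top (hm.pow_const (2:ℝ)) h2
  filter_upwards [h3] with x hx
  refine ⟨?_, ?_⟩
  · exact ((RCLike.continuous_ofReal.measurable.comp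
      (hk_meas_right x)).aestronglyMeasurable).mul hf.1
  · unfold HasFiniteIntegral
    simp only [enorm_hk]
    by_contra hcon
    have : Af f x = ∞ := by
      unfold Af
      exact top_le_iff.1 (not_lt.1 hcon)
    rw [this, ENNReal.top_rpow_of_pos (by norm_num)] at hx
    exact lt_irrefl _ hx

lemma TH_bound (hd : 0 < d) : ∃ A : ℝ≥0, ∀ f : (Fin d → ℝ) → 𝕜, MemLp f 2 volume →
    eLpNorm (TH f) 2 volume ≤ A * eLpNorm f 2 volume := by
  obtain ⟨A, hA⟩ := Af_l2 (𝕜 := 𝕜) (d := d) hd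
  refine ⟨A ^ (1 / (2:ℝ)), ?_⟩
  intro f hf
  rw [two_norm, two_norm, ENNReal.coe_rpow_of_nonneg _ (by norm_num),
    ← ENNReal.mul_rpow_of_nonneg _ _ (by norm_num)]
  apply ENNReal.rpow_le_rpow _ (by norm_num)
  refine (lintegral_mono fun x => ?_).trans (hA f hf.1)
  exact ENNReal.rpow_le_rpow (enorm_TH f x) (by norm_num)

lemma TH_mem (hd : 0 < d) (f : (Fin d → ℝ) → 𝕜) (hf : MemLp f 2 volume) :
    MemLp (TH f) 2 volume := by
  obtain ⟨A, hA⟩ := TH_bound (𝕜 := 𝕜) (d := d) hd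
  exact ⟨(TH_meas hf.1).aestronglyMeasurable,
    lt_of_le_of_lt (hA f hf) (ENNReal.mul_lt_top ENNReal.coe_lt_top hf.2)⟩

lemma TH_add (hd : 0 < d) (f g : (Fin d → ℝ) → 𝕜) (hf : MemLp f 2 volume)
    (hg : MemLp g 2 volume) : TH (fun x => f x + g x) =ᵐ[volume] fun x => TH f x + TH g x := by
  filter_upwards [ae_int hd hf, ae_int hd hg] with x h1 h2
  unfold TH
  rw [← integral_add h1 h2]
  congr 1
  ext y
  ring

lemma TH_smul (c : 𝕜) (f : (Fin d → ℝ) → 𝕜) :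
    TH (fun x => c * f x) = fun x => c * TH f x := by
  ext x
  unfold TH
  rw [← integral_const_mul]
  congr 1
  ext y
  ring

lemma hkK_size : ∃ C : ℝ, ∀ x y : Fin d → ℝ, x ≠ y →
    ‖((hk x y : ℝ) : 𝕜)‖ ≤ C / el (x - y) ^ d := by
  refine ⟨(2 * √d) ^ d, ?_⟩
  intro x y hxy
  rw [RCLike.norm_ofReal, abs_of_nonneg (hk_nonneg x y)]
  exact hk_size x y hxy

lemma hkK_reg (hd : 0 < d) : ∃ C α : ℝ, 0 < α ∧ α ≤ 1 ∧ ∀ x x' y : Fin d → ℝ, x ≠ y →
    el (x - x') ≤ el (x - y) / 2 →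
    ‖((hk x y : ℝ) : 𝕜) - ((hk x' y : ℝ) : 𝕜)‖ + ‖((hk y x : ℝ) : 𝕜) - ((hk y x' : ℝ) : 𝕜)‖ ≤
      C * el (x - x') ^ α / el (x - y) ^ ((d : ℝ) + α) := by
  refine ⟨2 * ((d + 4) * (3 * √d) ^ (d + 1)), 1, one_pos, le_rfl, ?_⟩
  intro x x' y hxy hx
  rw [hk_symm y x, hk_symm y x', ← RCLike.ofReal_sub, RCLike.norm_ofReal, Real.rpow_one]
  have h1 := hk_reg hd x x' y hxy hx
  have h2 : el (x - y) ^ ((d : ℝ) + 1) = el (x - y) ^ (d + 1) := by
    rw [← Real.rpow_natCast]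
    push_cast
    rfl
  rw [h2]
  have e : 2 * ((d + 4) * (3 * √d) ^ (d + 1)) * el (x - x') / el (x - y) ^ (d + 1) =
      (d + 4) * (3 * √d) ^ (d + 1) * el (x - x') / el (x - y) ^ (d + 1) +
      (d + 4) * (3 * √d) ^ (d + 1) * el (x - x') / el (x - y) ^ (d + 1) := by ring
  rw [e]
  exact add_le_add h1 h1

end Pool.Agent.KS6_4.SB
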