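import Pool.Agent.KS6_4.SB.A17

/-!
Separated bumps, all exponents: the extremal weights when an integral condition fails.
-/

set_option autoImplicit false
set_option linter.unusedSectionVars false
set_option linter.unusedVariables false

namespace Pool.Agent.KS6_4.SB

open MeasureTheory Metric Filter Topology Pool.Agent.H433R3.Sep
open scoped ENNReal NNReal

variable {d : ℕ} {Φ Ψ : ℝ≥0 → ℝ≥0}

lemma young_tends (h : IsYoung Φ) (v : ℝ≥0) : ∃ t, v ≤ Φ t := by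
  have h1 := h.superlin.eventually_ge_atTop 1
  obtain ⟨t, ht1, ht2⟩ := (h1.and (eventually_ge_atTop (max v 1))).exists
  refine ⟨t, ?_⟩
  have ht0 : 0 < t := lt_of_lt_of_le one_pos ((le_max_right _ _).trans ht2)
  have : t ≤ Φ t := by
    have := (le_div_iff₀ ht0).1 ht1
    simpa using this
  exact ((le_max_left _ _).trans ht2).trans this

lemma young_exists (h : IsYoung Φ) (v : ℝ≥0) : ∃ t, Φ t = v := by
  obtain ⟨b, hb⟩ := young_tends h v
  exact mem_range_of_exists_le_of_exists_ge h.cont ⟨0, by rw [h.zero]; exact bot_le⟩ ⟨b, hb⟩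

/-- level points of a Young function -/
noncomputable def tk (h : IsYoung Φ) (d k : ℕ) : ℝ≥0 := (young_exists h (2 ^ (k * d))).choose

lemma tk_spec (h : IsYoung Φ) (d k : ℕ) : Φ (tk h d k) = 2 ^ (k * d) :=
  (young_exists h (2 ^ (k * d))).choose_spec

lemma tk_pos (h : IsYoung Φ) (d k : ℕ) : 0 < tk h d k := by
  rw [pos_iff_ne_zero]
  intro h0
  have := tk_spec h d k
  rw [h0, h.zero] at this
  exact absurd this.symm (pow_ne_zero _ (by norm_num))

lemma young_sub (h : IsYoung Φ) {c t : ℝ≥0} (hc : c ≤ 1) : Φ (c * t) ≤ c * Φ t := by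
  have h1 := h.conv.2 (Set.mem_univ t) (Set.mem_univ 0) (bot_le : (0:ℝ≥0) ≤ c)
    (bot_le : (0:ℝ≥0) ≤ 1 - c) (add_tsub_cancel_of_le hc)
  simp only [smul_eq_mul, mul_zero, add_zero, h.zero] at h1
  exact h1

lemma tk_lt (h : IsYoung Φ) (hd : 0 < d) {j : ℕ} {x : ℝ≥0} (hx : Φ x < 2 ^ (j * d)) :
    x < tk h d j := by
  by_contra hcon
  push Not at hcon
  have := h.mono hcon
  rw [tk_spec h] at this
  exact absurd (lt_of_le_of_lt this hx) (lt_irrefl _)

lemma tk_mono (h : IsYoung Φ) (hd : 0 < d) : Monotone (tk h d) := by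
  intro j k hjk
  rcases hjk.eq_or_lt with e | hlt
  · rw [e]
  · apply le_of_lt
    apply tk_lt h hd
    rw [tk_spec h]
    exact pow_lt_pow_right₀ (by norm_num) (Nat.mul_lt_mul_of_pos_right hlt hd)

lemma tk_succ_le (h : IsYoung Φ) (hd : 0 < d) (k : ℕ) :
    tk h d (k + 1) ≤ 2 ^ d * tk h d k := by
  have h0 := tk_pos h d (k + 1)
  have hc : tk h d k / tk h d (k + 1) ≤ 1 := by
    rw [div_le_one h0]; exact tk_mono h hd (Nat.le_succ k)
  have h1 := young_sub h (t := tk h d (k + 1)) hc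
  rw [div_mul_cancel₀ _ h0.ne', tk_spec h, tk_spec h] at h1
  have h2 : (2:ℝ≥0) ^ ((k + 1) * d) = 2 ^ (k * d) * 2 ^ d := by rw [← pow_add]; ring_nf
  rw [h2, div_mul_eq_mul_div, le_div_iff₀ h0] at h1
  have h3 : (2:ℝ≥0) ^ (k * d) * tk h d (k + 1) ≤ 2 ^ (k * d) * (2 ^ d * tk h d k) := by
    calc _ ≤ _ := h1
      _ = _ := by ring
  exact (mul_le_mul_iff_right₀ (by positivity)).1 h3

lemma tk_le (h : IsYoung Φ) (hd : 0 < d) (k : ℕ) :
    tk h d k ≤ tk h d 0 * 2 ^ (k * d) := by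
  have h0 := tk_pos h d k
  have hc : tk h d 0 / tk h d k ≤ 1 := by
    rw [div_le_one h0]; exact tk_mono h hd (Nat.zero_le k)
  have h1 := young_sub h (t := tk h d k) hc
  rw [div_mul_cancel₀ _ h0.ne', tk_spec h, tk_spec h, zero_mul, pow_zero, div_mul_eq_mul_div,
    le_div_iff₀ h0, one_mul] at h1
  exact h1

/-- the terms of the series -/
noncomputable def bk (h : IsYoung Φ) (s : ℝ) (d k : ℕ) : ℝ≥0 := (tk h d k / 2 ^ (k * d)) ^ s

lemma bk_le (h : IsYoung Φ) {s : ℝ} (hs : 0 < s) (hd : 0 < d) (k : ℕ) :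
    bk h s d k ≤ tk h d 0 ^ s := by
  unfold bk
  apply NNReal.rpow_le_rpow _ hs.le
  rw [div_le_iff₀ (by positivity)]
  exact tk_le h hd k

/-- Divergence of the series. -/
lemma bk_div (h : IsYoung Φ) {s : ℝ} (hs : 0 < s) (hd : 0 < d)
    (hint : ¬ ∃ c : ℝ≥0, 0 < c ∧ ∫⁻ x in Set.Ioi (c:ℝ), bint s Φ x ≠ ∞) :
    ∑' k, (bk h s d (k + 1) : ℝ≥0∞) = ∞ := by
  push Not at hint
  have h1 := hint (tk h d 0) (tk_pos h d 0)
  have hcov : Set.Ioi ((tk h d 0 : ℝ≥0) : ℝ) ⊆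
      ⋃ k : ℕ, Set.Ioc ((tk h d k : ℝ≥0) : ℝ) (tk h d (k + 1) : ℝ≥0) := by
    intro x hx
    have hx0 : (0:ℝ) < x := lt_of_le_of_lt (NNReal.coe_nonneg _) hx
    have hex : ∃ k : ℕ, x ≤ (tk h d k : ℝ≥0) := by
      obtain ⟨j, hj⟩ := pow_unbounded_of_one_lt (Φ x.toNNReal) (by norm_num : (1:ℝ≥0) < 2)
      refine ⟨j, ?_⟩
      have h2 : Φ x.toNNReal < 2 ^ (j * d) :=
        lt_of_lt_of_le hj (pow_le_pow_right₀ (by norm_num) (Nat.le_mul_of_pos_right j hd))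
      have h3 := tk_lt h hd h2
      rw [← Real.toNNReal_le_iff_le_coe]
      exact h3.le
    classical
    have hfind := Nat.find_spec hex
    have hne : Nat.find hex ≠ 0 := by
      intro h0
      rw [h0] at hfind
      exact absurd (lt_of_lt_of_le hx hfind) (lt_irrefl _)
    obtain ⟨m, hm⟩ := Nat.exists_eq_succ_of_ne_zero hne
    rw [Set.mem_iUnion]
    refine ⟨m, ?_, ?_⟩
    · by_contra hcon
      push Not at hcon
      exact Nat.find_min hex (m := m) (by omega) hcon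
    · rw [hm] at hfind; exact hfind
  have hterm : ∀ k : ℕ, ∫⁻ x in Set.Ioc ((tk h d k : ℝ≥0) : ℝ) (tk h d (k + 1) : ℝ≥0), bint s Φ x ≤
      ((2 ^ d) ^ s * 2 ^ d : ℝ≥0) * bk h s d (k + 1) := by
    intro k
    set a := tk h d k with ha
    set b := tk h d (k + 1) with hb
    have ha0 : 0 < a := tk_pos h d k
    have hb0 : 0 < b := tk_pos h d (k + 1)
    have hane : (a : ℝ≥0∞) ≠ 0 := by exact_mod_cast ha0.ne'
    have hP : (2:ℝ≥0) ^ (k * d) ≠ 0 := by positivity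
    have hbd : ∀ x ∈ Set.Ioc (a:ℝ) b, bint s Φ x ≤ ((b / 2 ^ (k * d) : ℝ≥0) : ℝ≥0∞) ^ s / a := by
      intro x hx
      have hx0 : 0 < x := lt_of_le_of_lt a.coe_nonneg hx.1
      have e1 : ENNReal.ofReal x ≤ b := by
        rw [← ENNReal.ofReal_coe_nnreal]; exact ENNReal.ofReal_le_ofReal hx.2
      have e2 : (a : ℝ≥0∞) ≤ ENNReal.ofReal x := by
        rw [← ENNReal.ofReal_coe_nnreal]; exact ENNReal.ofReal_le_ofReal hx.1.le
      have e3 : (2:ℝ≥0) ^ (k * d) ≤ Φ x.toNNReal := by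
        rw [← tk_spec h d k]
        apply h.mono
        rw [← ha]
        exact NNReal.le_toNNReal_of_coe_le hx.1.le
      unfold bint
      apply ENNReal.div_le_div _ e2
      apply ENNReal.rpow_le_rpow _ hs.le
      rw [ENNReal.coe_div hP]
      apply ENNReal.div_le_div e1
      exact_mod_cast e3
    calc ∫⁻ x in Set.Ioc (a:ℝ) b, bint s Φ x
        ≤ ∫⁻ x in Set.Ioc (a:ℝ) b, ((b / 2 ^ (k * d) : ℝ≥0) : ℝ≥0∞) ^ s / a :=
          setLIntegral_mono measurable_const hbd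
      _ = ((b / 2 ^ (k * d) : ℝ≥0) : ℝ≥0∞) ^ s / a * ENNReal.ofReal ((b:ℝ) - a) := by
          rw [setLIntegral_const, Real.volume_Ioc]
      _ ≤ ((b / 2 ^ (k * d) : ℝ≥0) : ℝ≥0∞) ^ s / a * (2 ^ d * a) := by
          apply mul_le_mul' le_rfl
          have h5 : (b:ℝ) - a ≤ (b:ℝ) := by have := a.coe_nonneg; linarith
          refine (ENNReal.ofReal_le_ofReal h5).trans ?_
          rw [ENNReal.ofReal_coe_nnreal]
          exact_mod_cast tk_succ_le h hd k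
      _ = ((b / 2 ^ (k * d) : ℝ≥0) : ℝ≥0∞) ^ s * 2 ^ d := by
          rw [mul_comm ((2:ℝ≥0∞) ^ d) (a:ℝ≥0∞), ← mul_assoc, ENNReal.div_mul_cancel hane (by simp)]
      _ = _ := by
          have h6 : b / 2 ^ (k * d) = 2 ^ d * (b / 2 ^ ((k + 1) * d)) := by
            have : (2:ℝ≥0) ^ ((k + 1) * d) = 2 ^ (k * d) * 2 ^ d := by rw [← pow_add]; ring_nf
            rw [this]
            field_simp
          rw [h6, ← ENNReal.coe_rpow_of_nonneg _ hs.le, NNReal.mul_rpow]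
          unfold bk
          rw [← hb]
          push_cast
          ring
  by_contra hcon
  have h7 : ∫⁻ x in Set.Ioi ((tk h d 0 : ℝ≥0) : ℝ), bint s Φ x < ∞ := by
    calc ∫⁻ x in Set.Ioi ((tk h d 0 : ℝ≥0) : ℝ), bint s Φ x
        ≤ ∫⁻ x in ⋃ k : ℕ, Set.Ioc ((tk h d k : ℝ≥0) : ℝ) (tk h d (k + 1) : ℝ≥0), bint s Φ x :=
          lintegral_mono_set hcov
      _ ≤ ∑' k : ℕ, ∫⁻ x in Set.Ioc ((tk h d k : ℝ≥0) : ℝ) (tk h d (k + 1) : ℝ≥0), bint s Φ x :=
          lintegral_iUnion_le _ _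
      _ ≤ ∑' k : ℕ, ((2 ^ d) ^ s * 2 ^ d : ℝ≥0) * (bk h s d (k + 1) : ℝ≥0∞) :=
          ENNReal.tsum_le_tsum hterm
      _ = ((2 ^ d) ^ s * 2 ^ d : ℝ≥0) * ∑' k : ℕ, (bk h s d (k + 1) : ℝ≥0∞) := by
          rw [ENNReal.tsum_mul_left]
      _ < ∞ := ENNReal.mul_lt_top ENNReal.coe_lt_top (lt_top_iff_ne_top.2 hcon)
  exact absurd h1 h7.ne

/-! ### the level function -/

/-- the dyadic level of the norm -/
noncomputable def lev (x : Fin d → ℝ) : ℕ := Nat.clog 2 ⌈‖x‖⌉₊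

lemma lev_le {x : Fin d → ℝ} {k : ℕ} : lev x ≤ k ↔ ‖x‖ ≤ 2 ^ k := by
  unfold lev
  rw [Nat.clog_le_iff_le_pow (by norm_num), Nat.ceil_le]
  push_cast
  rfl

lemma lev_meas : Measurable (lev : (Fin d → ℝ) → ℕ) := by
  unfold lev
  exact (measurable_of_countable (Nat.clog 2)).comp (Nat.measurable_ceil.comp measurable_norm)

lemma lev_set (k : ℕ) : {x : Fin d → ℝ | lev x ≤ k} = closedBall 0 (2 ^ k) := by
  ext x
  rw [Set.mem_ofPred_eq, lev_le, mem_closedBall, dist_zero_right]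

lemma lev_vol (k : ℕ) : volume {x : Fin d → ℝ | lev x ≤ k} = 2 ^ ((k + 1) * d) := by
  rw [lev_set, Real.volume_pi_closedBall _ (by positivity), Fintype.card_fin]
  have : (2:ℝ) * 2 ^ k = 2 ^ (k + 1) := by ring
  rw [this, ← pow_mul, ENNReal.ofReal_pow (by norm_num)]
  norm_num

lemma lev_eq_meas (k : ℕ) : MeasurableSet {x : Fin d → ℝ | lev x = k} :=
  lev_meas (measurableSet_singleton k)

lemma lev_eq_le (k : ℕ) : volume {x : Fin d → ℝ | lev x = k} ≤ 2 ^ ((k + 1) * d) := by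
  rw [← lev_vol k]
  apply measure_mono
  intro x hx
  have hx' : lev x = k := hx
  show lev x ≤ k
  exact hx'.le

lemma lev_eq_ge (hd : 0 < d) (k : ℕ) : 2 ^ ((k + 1) * d) ≤
    volume {x : Fin d → ℝ | lev x = k + 1} := by
  have h1 : volume {x : Fin d → ℝ | lev x ≤ k + 1} ≤
      volume {x : Fin d → ℝ | lev x = k + 1} + volume {x : Fin d → ℝ | lev x ≤ k} := by
    refine (measure_mono ?_).trans (measure_union_le _ _)
    intro x hx
    have hx' : lev x ≤ k + 1 := hx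
    rcases hx'.eq_or_lt with e | e
    · exact Or.inl e
    · right
      show lev x ≤ k
      omega
  rw [lev_vol, lev_vol] at h1
  have h2 : (2:ℝ≥0∞) ^ ((k + 1 + 1) * d) = 2 ^ ((k + 1) * d) * 2 ^ d := by
    rw [← pow_add]; ring_nf
  have h3 : (2:ℝ≥0∞) ^ ((k + 1) * d) + 2 ^ ((k + 1) * d) ≤ 2 ^ ((k + 1 + 1) * d) := by
    rw [h2, ← mul_two]
    apply mul_le_mul' le_rfl
    calc (2:ℝ≥0∞) = 2 ^ 1 := by norm_num
      _ ≤ 2 ^ d := pow_le_pow_right₀ (by norm_num) hd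
  have h4 := h3.trans h1
  have h5 : (2:ℝ≥0∞) ^ ((k + 1) * d) ≠ ∞ := ENNReal.pow_ne_top (by norm_num)
  exact (ENNReal.add_le_add_iff_right h5).1 h4

end Pool.Agent.KS6_4.SB
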