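import Pool.Agent.KS6_4.SB.A18

/-!
Separated bumps, all exponents: the extremal weights satisfy the bump conditions.
-/

set_option autoImplicit false
set_option linter.unusedSectionVars false
set_option linter.unusedVariables false

namespace Pool.Agent.KS6_4.SB

open MeasureTheory Metric Filter Topology Pool.Agent.H433R3.Sep
open scoped ENNReal NNReal

variable {d : ℕ} {Φ Ψ : ℝ≥0 → ℝ≥0}

/-- the indicator of the unit ball -/
noncomputable def uu (x : Fin d → ℝ) : ℝ≥0 := if lev x = 0 then 1 else 0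

/-- the extremal weight -/
noncomputable def tw (h : IsYoung Φ) (s : ℝ) (x : Fin d → ℝ) : ℝ≥0 := tk h d (lev x) ^ s

lemma uu_meas : Measurable (uu : (Fin d → ℝ) → ℝ≥0) :=
  (measurable_of_countable (fun n : ℕ => if n = 0 then (1:ℝ≥0) else 0)).comp lev_meas

lemma tw_meas (h : IsYoung Φ) (s : ℝ) : Measurable (tw h s : (Fin d → ℝ) → ℝ≥0) :=
  (measurable_of_countable (fun n : ℕ => tk h d n ^ s)).comp lev_meas

lemma cube_lev (a : Fin d → ℝ) {l : ℝ} (hl : 0 < l) :
    (∀ x ∈ cube a l, lev x ≠ 0) ∨ ∃ k : ℕ, (∀ x ∈ cube a l, lev x ≤ k) ∧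
      volume (cube a l ∩ {x | lev x = 0}) * 2 ^ (k * d) ≤ 8 ^ d * volume (cube a l) := by
  by_cases hne : ∀ x ∈ cube a l, lev x ≠ 0
  · exact Or.inl hne
  · right
    push Not at hne
    obtain ⟨z, hz, hz0⟩ := hne
    have hz1 : ‖z‖ ≤ 1 := by
      have := (lev_le (x := z) (k := 0)).1 hz0.le
      simpa using this
    set k := Nat.clog 2 ⌈1 + l⌉₊ with hk
    have h1 : 1 + l ≤ 2 ^ k := by
      have h2 : ⌈1 + l⌉₊ ≤ 2 ^ k := Nat.le_pow_clog (by norm_num) _
      have h3 : (⌈1 + l⌉₊ : ℝ) ≤ ((2 ^ k : ℕ) : ℝ) := by exact_mod_cast h2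
      have h4 := Nat.le_ceil (1 + l)
      push_cast at h3
      linarith
    have hc1 : 1 < ⌈1 + l⌉₊ := by
      rw [Nat.lt_ceil]; push_cast; linarith
    have h5 : (2:ℝ) ^ k < 2 * (1 + l) := by
      have h6 := Nat.pow_pred_clog_lt_self (b := 2) (by norm_num) hc1
      rw [← hk, Nat.lt_ceil] at h6
      push_cast at h6
      have hk1 : k ≠ 0 := by
        intro h0
        rw [h0, pow_zero] at h1
        linarith
      obtain ⟨m, hm⟩ := Nat.exists_eq_succ_of_ne_zero hk1
      rw [hm] at h6 ⊢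
      simp only [Nat.pred_succ, Nat.succ_eq_add_one] at h6
      rw [Nat.succ_eq_add_one, pow_succ]
      linarith
    refine ⟨k, ?_, ?_⟩
    · intro x hx
      rw [lev_le]
      refine le_trans ?_ h1
      rw [pi_norm_le_iff_of_nonneg (by linarith)]
      intro i
      have e1 := hx i
      have e2 := hz i
      have e3 := norm_le_pi_norm z i
      rw [Real.norm_eq_abs] at e3 ⊢
      have e4 := abs_le.1 (e3.trans hz1)
      rw [abs_le]
      constructor <;> linarith [e1.1, e1.2, e2.1, e2.2, e4.1, e4.2]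
    · rcases le_or_gt l 2 with hl2 | hl2
      · rw [mul_comm]
        apply mul_le_mul'
        · rw [pow_mul]
          apply pow_le_pow_left₀ bot_le
          have h7 : (2:ℝ) ^ k ≤ 8 := by linarith
          have h8 : (2:ℕ) ^ k ≤ 8 := by exact_mod_cast h7
          exact_mod_cast h8
        · exact measure_mono Set.inter_subset_left
      · have h9 : volume (cube a l ∩ {x | lev x = 0}) ≤ 2 ^ d := by
          refine (measure_mono Set.inter_subset_right).trans ((lev_eq_le 0).trans (le_of_eq ?_))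
          norm_num
        rw [cube_vol]
        calc volume (cube a l ∩ {x | lev x = 0}) * 2 ^ (k * d)
            ≤ 2 ^ d * 2 ^ (k * d) := mul_le_mul' h9 le_rfl
          _ = (2 * 2 ^ k) ^ d := by rw [mul_pow, pow_mul]
          _ ≤ (8 * ENNReal.ofReal l) ^ d := by
              apply pow_le_pow_left₀ bot_le
              have e8 : (8:ℝ≥0∞) = ENNReal.ofReal 8 := by norm_num
              have e2 : (2:ℝ≥0∞) = ENNReal.ofReal 2 := by norm_num
              rw [e8, e2, ← ENNReal.ofReal_pow (by norm_num), ← ENNReal.ofReal_mul (by norm_num),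
                ← ENNReal.ofReal_mul (by norm_num)]
              apply ENNReal.ofReal_le_ofReal
              linarith
          _ = _ := by rw [mul_pow]

lemma cube_vne (a : Fin d → ℝ) {l : ℝ} (hl : 0 < l) :
    volume (cube a l) ≠ 0 ∧ volume (cube a l) ≠ ∞ := by
  rw [cube_vol]
  exact ⟨pow_ne_zero _ (by simpa using hl), ENNReal.pow_ne_top ENNReal.ofReal_ne_top⟩

lemma wm_uu (Q : Set (Fin d → ℝ)) (hQ : MeasurableSet Q) :
    wm volume uu Q = volume (Q ∩ {x | lev x = 0}) := by
  unfold wm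
  rw [withDensity_apply _ hQ]
  have e : (fun x : Fin d → ℝ => ((uu x : ℝ≥0) : ℝ≥0∞)) =
      {x : Fin d → ℝ | lev x = 0}.indicator 1 := by
    ext x
    unfold uu
    by_cases h : lev x = 0
    · have h' : x ∈ {x : Fin d → ℝ | lev x = 0} := h
      rw [if_pos h, Set.indicator_of_mem h']; simp
    · have h' : x ∉ {x : Fin d → ℝ | lev x = 0} := h
      rw [if_neg h, Set.indicator_of_notMem h']; simp
  rw [e, lintegral_indicator_one (lev_eq_meas 0), Measure.restrict_apply (lev_eq_meas 0),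
    Set.inter_comm]

lemma lux_zero (h : IsYoung Φ) {w : (Fin d → ℝ) → ℝ≥0} {Q : Set (Fin d → ℝ)}
    (hQ : MeasurableSet Q) (hw : ∀ x ∈ Q, w x = 0) : lux volume Φ w Q = 0 := by
  rw [← nonpos_iff_eq_zero]
  apply ENNReal.le_of_forall_pos_le_add
  intro ε hε _
  rw [zero_add]
  unfold lux
  refine iInf₂_le_of_le ε ⟨hε, ?_⟩ le_rfl
  have : ∫⁻ x in Q, (Φ (w x / ε) : ℝ≥0∞) = 0 := by
    rw [setLIntegral_congr_fun hQ (g := fun _ => 0) (fun x hx => by
      simp only
      rw [hw x hx, zero_div, h.zero, ENNReal.coe_zero]), lintegral_zero]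
  rw [this, mul_zero]
  exact bot_le

lemma tw_le (h : IsYoung Φ) (hd : 0 < d) {s : ℝ} (hs : 0 < s) {x : Fin d → ℝ} {k : ℕ}
    (hx : lev x ≤ k) : tw h s x ≤ tk h d k ^ s :=
  NNReal.rpow_le_rpow (tk_mono h hd hx) hs.le

lemma bumpI (h : IsYoung Φ) (hd : 0 < d) {s : ℝ} (hs : 0 < s) (a : Fin d → ℝ) {l : ℝ}
    (hl : 0 < l) : lux volume Φ uu (cube a l) ^ s *
      (wm volume (tw h s) (cube a l) / volume (cube a l)) ≤ (((8:ℝ≥0) ^ d) ^ s : ℝ≥0) := by
  obtain ⟨hv0, hvt⟩ := cube_vne a hl
  rcases cube_lev a hl with hz | ⟨k, hk1, hk2⟩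
  · rw [lux_zero h (cube_msb a l) (fun x hx => by unfold uu; rw [if_neg (hz x hx)]),
      ENNReal.zero_rpow_of_pos hs, zero_mul]
    exact bot_le
  · set t := tk h d k with ht
    have ht0 : 0 < t := tk_pos h d k
    have h8 : (0:ℝ≥0) < 8 ^ d := by positivity
    have hlux : lux volume Φ uu (cube a l) ≤ ((8 ^ d / t : ℝ≥0) : ℝ≥0∞) := by
      unfold lux
      refine iInf₂_le_of_le (8 ^ d / t) ⟨by positivity, ?_⟩ le_rfl
      have h1 : ∀ x, (Φ (uu x / (8 ^ d / t)) : ℝ≥0∞) ≤
          {x : Fin d → ℝ | lev x = 0}.indicator (fun _ => ((2 ^ (k * d) / 8 ^ d : ℝ≥0) : ℝ≥0∞)) x := by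
        intro x
        by_cases hx : lev x = 0
        · have hx' : x ∈ {x : Fin d → ℝ | lev x = 0} := hx
          rw [Set.indicator_of_mem hx']
          unfold uu
          rw [if_pos hx]
          have e1 : (1:ℝ≥0) / (8 ^ d / t) = (8 ^ d)⁻¹ * t := by field_simp
          rw [e1]
          have e2 := young_sub h (c := (8 ^ d)⁻¹) (t := t)
            (inv_le_one_of_one_le₀ (one_le_pow₀ (by norm_num)))
          rw [ht, tk_spec h, ← ht] at e2
          rw [ENNReal.coe_le_coe]
          refine e2.trans (le_of_eq ?_)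
          rw [div_eq_mul_inv, mul_comm]
        · unfold uu
          rw [if_neg hx, zero_div, h.zero, ENNReal.coe_zero]
          exact bot_le
      calc (volume (cube a l))⁻¹ * ∫⁻ x in cube a l, (Φ (uu x / (8 ^ d / t)) : ℝ≥0∞)
          ≤ (volume (cube a l))⁻¹ * ∫⁻ x in cube a l, {x : Fin d → ℝ | lev x = 0}.indicator
            (fun _ => ((2 ^ (k * d) / 8 ^ d : ℝ≥0) : ℝ≥0∞)) x :=
            mul_le_mul' le_rfl (lintegral_mono h1)
        _ = (volume (cube a l))⁻¹ * (((2 ^ (k * d) / 8 ^ d : ℝ≥0) : ℝ≥0∞) *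
            volume (cube a l ∩ {x | lev x = 0})) := by
            rw [lintegral_indicator_const (lev_eq_meas 0), Measure.restrict_apply (lev_eq_meas 0),
              Set.inter_comm]
        _ = (volume (cube a l))⁻¹ * ((8 ^ d : ℝ≥0∞)⁻¹ *
            (volume (cube a l ∩ {x | lev x = 0}) * 2 ^ (k * d))) := by
            rw [ENNReal.coe_div h8.ne']
            push_cast
            rw [div_eq_mul_inv]
            ring
        _ ≤ (volume (cube a l))⁻¹ * ((8 ^ d : ℝ≥0∞)⁻¹ * (8 ^ d * volume (cube a l))) := by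
            gcongr
        _ = 1 := by
            rw [← mul_assoc (8 ^ d : ℝ≥0∞)⁻¹, ENNReal.inv_mul_cancel
              (pow_ne_zero _ (by norm_num)) (ENNReal.pow_ne_top (by norm_num)), one_mul,
              ENNReal.inv_mul_cancel hv0 hvt]
    have hwm : wm volume (tw h s) (cube a l) / volume (cube a l) ≤ ((t ^ s : ℝ≥0) : ℝ≥0∞) := by
      apply ENNReal.div_le_of_le_mul
      unfold wm
      rw [withDensity_apply _ (cube_msb a l)]
      calc ∫⁻ x in cube a l, ((tw h s x : ℝ≥0) : ℝ≥0∞)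
          ≤ ∫⁻ x in cube a l, ((t ^ s : ℝ≥0) : ℝ≥0∞) := by
            apply setLIntegral_mono measurable_const
            intro x hx
            exact_mod_cast tw_le h hd hs (hk1 x hx)
        _ = _ := by rw [setLIntegral_const]
    calc lux volume Φ uu (cube a l) ^ s * (wm volume (tw h s) (cube a l) / volume (cube a l))
        ≤ ((8 ^ d / t : ℝ≥0) : ℝ≥0∞) ^ s * ((t ^ s : ℝ≥0) : ℝ≥0∞) :=
          mul_le_mul' (ENNReal.rpow_le_rpow hlux hs.le) hwm
      _ = _ := by
          rw [← ENNReal.coe_rpow_of_nonneg _ hs.le, ← ENNReal.coe_mul, ← NNReal.mul_rpow,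
            div_mul_cancel₀ _ ht0.ne']

lemma bumpII (h : IsYoung Φ) (hΨ : IsYoung Ψ) (hd : 0 < d) {s : ℝ} (hs : 0 < s) :
    ∃ M : ℝ≥0, ∀ (a : Fin d → ℝ) (l : ℝ), 0 < l →
      (wm volume uu (cube a l) / volume (cube a l)) ^ s * lux volume Ψ (tw h s) (cube a l) ≤ M := by
  obtain ⟨v, hv⟩ := young_exists hΨ 1
  have hv0 : 0 < v := by
    rw [pos_iff_ne_zero]
    intro h0
    rw [h0, hΨ.zero] at hv
    exact one_ne_zero hv.symm
  refine ⟨(8 ^ d * tk h d 0) ^ s / v, ?_⟩
  intro a l hl
  obtain ⟨hc0, hct⟩ := cube_vne a hl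
  rcases cube_lev a hl with hz | ⟨k, hk1, hk2⟩
  · have : wm volume uu (cube a l) = 0 := by
      rw [wm_uu _ (cube_msb a l)]
      convert measure_empty (μ := (volume : Measure (Fin d → ℝ)))
      ext x
      simp only [Set.mem_inter_iff, Set.mem_ofPred_eq, Set.mem_empty_iff_false, iff_false, not_and]
      exact fun hx => hz x hx
    rw [this, ENNReal.zero_div, ENNReal.zero_rpow_of_pos hs, zero_mul]
    exact bot_le
  · set t := tk h d k with ht
    have ht0 : 0 < t := tk_pos h d k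
    have hts : 0 < t ^ s := NNReal.rpow_pos ht0
    have hlux : lux volume Ψ (tw h s) (cube a l) ≤ ((t ^ s / v : ℝ≥0) : ℝ≥0∞) := by
      unfold lux
      refine iInf₂_le_of_le (t ^ s / v) ⟨by positivity, ?_⟩ le_rfl
      calc (volume (cube a l))⁻¹ * ∫⁻ x in cube a l, (Ψ (tw h s x / (t ^ s / v)) : ℝ≥0∞)
          ≤ (volume (cube a l))⁻¹ * ∫⁻ x in cube a l, 1 := by
            apply mul_le_mul' le_rfl
            apply setLIntegral_mono measurable_const
            intro x hx
            have e1 : tw h s x / (t ^ s / v) ≤ v := by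
              rw [div_le_iff₀ (by positivity)]
              rw [mul_div_cancel₀ _ hv0.ne']
              exact tw_le h hd hs (hk1 x hx)
            have e2 := hΨ.mono e1
            rw [hv] at e2
            exact_mod_cast e2
        _ = 1 := by
            rw [setLIntegral_one, ENNReal.inv_mul_cancel hc0 hct]
    have hwm : wm volume uu (cube a l) / volume (cube a l) ≤ ((8 ^ d / 2 ^ (k * d) : ℝ≥0) : ℝ≥0∞) := by
      rw [wm_uu _ (cube_msb a l)]
      apply ENNReal.div_le_of_le_mul
      have hP : (2:ℝ≥0) ^ (k * d) ≠ 0 := by positivity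
      rw [ENNReal.coe_div hP]
      push_cast
      rw [ENNReal.div_eq_inv_mul, mul_assoc, ← ENNReal.mul_le_iff_le_inv
        (pow_ne_zero _ (by norm_num)) (ENNReal.pow_ne_top (by norm_num)), mul_comm]
      exact hk2
    calc (wm volume uu (cube a l) / volume (cube a l)) ^ s * lux volume Ψ (tw h s) (cube a l)
        ≤ ((8 ^ d / 2 ^ (k * d) : ℝ≥0) : ℝ≥0∞) ^ s * ((t ^ s / v : ℝ≥0) : ℝ≥0∞) :=
          mul_le_mul' (ENNReal.rpow_le_rpow hwm hs.le) hlux
      _ = (((8 ^ d * (t / 2 ^ (k * d))) ^ s / v : ℝ≥0) : ℝ≥0∞) := by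
          rw [← ENNReal.coe_rpow_of_nonneg _ hs.le, ← ENNReal.coe_mul]
          congr 1
          rw [← mul_div_assoc, ← NNReal.mul_rpow]
          congr 2
          ring
      _ ≤ _ := by
          rw [ENNReal.coe_le_coe]
          apply div_le_div_of_nonneg_right _ bot_le
          apply NNReal.rpow_le_rpow _ hs.le
          apply mul_le_mul' le_rfl
          rw [div_le_iff₀ (by positivity)]
          exact tk_le h hd k

end Pool.Agent.KS6_4.SB
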