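import Pool.Agent.KS6_4.SB.A1

/-!
Separated bumps, all exponents: the dyadic `T1` theorem for positive operators in `L^p`.
-/

set_option autoImplicit false
set_option linter.unusedSectionVars false
set_option linter.unusedVariables false

namespace Pool.Agent.KS6_4.SB

open Finset Pool.Agent.H433R3.Sep

variable {X : Type*} [Fintype X] [DecidableEq X]

/-- One half of the dyadic `T1` theorem for positive operators. -/
lemma oneSide (S : Finset (Finset X)) (hS : Lam S) (μ ν f g : X → ℝ) (c : Finset X → ℝ)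
    {p q : ℝ} (hpq : p.HolderConjugate q)
    (hμ : ∀ x, 0 ≤ μ x) (hν : ∀ x, 0 ≤ ν x) (hf : ∀ x, 0 ≤ f x) (hg : ∀ x, 0 ≤ g x)
    (hc : ∀ Q ∈ S, 0 ≤ c Q)
    (hμS : ∀ Q ∈ S, 0 < ∑ x ∈ Q, μ x) (hνS : ∀ Q ∈ S, 0 < ∑ x ∈ Q, ν x)
    (hfS : ∀ Q ∈ S, 0 < ∑ x ∈ Q, f x * μ x)
    (hcmp : ∀ Q ∈ S, ((∑ x ∈ Q, g x * ν x) / ∑ x ∈ Q, ν x) ^ q * (∑ x ∈ Q, ν x) ≤
      ((∑ x ∈ Q, f x * μ x) / ∑ x ∈ Q, μ x) ^ p * (∑ x ∈ Q, μ x))
    (T : ℝ) (hT0 : 0 ≤ T)
    (hT : ∀ R ∈ S, ∀ S' ⊆ S, (∀ Q ∈ S', Q ⊆ R) →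
      ∑ x ∈ R, ν x * (∑ Q ∈ S' with x ∈ Q, c Q * ∑ y ∈ Q, μ y) ^ p ≤ T * ∑ x ∈ R, μ x) :
    ∑ Q ∈ S, c Q * ((∑ x ∈ Q, f x * μ x) * (∑ x ∈ Q, g x * ν x)) ≤
      2 * (cc p * (T + 1) * ∑ x, f x ^ p * μ x + ∑ x, g x ^ q * ν x) := by
  classical
  have hp := hpq.lt
  have hq := hpq.symm.lt
  set a : Finset X → ℝ := fun Q => (∑ x ∈ Q, f x * μ x) / (∑ x ∈ Q, μ x) with ha_def
  have ha : ∀ Q ∈ S, 0 < a Q := fun Q hQ => div_pos (hfS Q hQ) (hμS Q hQ)
  have haI : ∀ Q ∈ S, a Q * ∑ x ∈ Q, μ x = ∑ x ∈ Q, f x * μ x := fun Q hQ => by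
    simp only [ha_def]
    exact div_mul_cancel₀ _ (hμS Q hQ).ne'
  set k : Finset X → ℤ := fun Q => Int.log 2 (a Q) with hk_def
  choose! π hπ using fun Q (hQ : Q ∈ S) => exists_rec hS k hQ
  set R : Finset (Finset X) := S.filter (IsRec S k) with hR_def
  have hRrec : ∀ F ∈ R, IsRec S k F := fun F hF => (Finset.mem_filter.1 hF).2
  have hRS : ∀ F ∈ R, F ∈ S := fun F hF => (Finset.mem_filter.1 hF).1
  have hπR : ∀ Q ∈ S, π Q ∈ R := fun Q hQ => by
    rw [hR_def, Finset.mem_filter]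
    exact ⟨(hπ Q hQ).1.1, (hπ Q hQ).1⟩
  -- averages along classes
  have hakk : ∀ Q ∈ S, a Q ≤ 2 * a (π Q) := by
    intro Q hQ
    have h1 := (Int.lt_zpow_succ_log_self (b := 2) (by norm_num) (a Q)).le
    have h2 := Int.zpow_log_le_self (b := 2) (by norm_num) (ha (π Q) (hRS _ (hπR Q hQ)))
    have h3 : k Q ≤ k (π Q) := (hπ Q hQ).2.2.1
    simp only [hk_def] at h3
    rw [zpow_add₀ (by norm_num)] at h1
    push_cast at h1 h2
    have h4 : (2:ℝ) ^ Int.log 2 (a Q) ≤ 2 ^ Int.log 2 (a (π Q)) :=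
      zpow_le_zpow_right₀ (by norm_num) h3
    linarith
  set φ : Finset X → X → ℝ := fun F x => ∑ Q ∈ (S.filter (fun Q => π Q = F)) with x ∈ Q,
    c Q * ∑ y ∈ Q, μ y with hφ_def
  have hμ0 : ∀ Q : Finset X, 0 ≤ ∑ y ∈ Q, μ y := fun Q => Finset.sum_nonneg (fun y _ => hμ y)
  have hν0 : ∀ Q : Finset X, 0 ≤ ∑ y ∈ Q, ν y := fun Q => Finset.sum_nonneg (fun y _ => hν y)
  have hg0 : ∀ Q : Finset X, 0 ≤ ∑ y ∈ Q, g y * ν y :=
    fun Q => Finset.sum_nonneg (fun y _ => mul_nonneg (hg y) (hν y))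
  have hφ0 : ∀ F x, 0 ≤ φ F x := by
    intro F x
    apply Finset.sum_nonneg
    intro Q hQ
    simp only [Finset.mem_filter] at hQ
    exact mul_nonneg (hc Q hQ.1.1) (hμ0 Q)
  -- Step 1, 2
  have step2 : ∑ Q ∈ S, c Q * ((∑ x ∈ Q, f x * μ x) * (∑ x ∈ Q, g x * ν x)) ≤
      ∑ F ∈ R, 2 * (a F * ∑ x ∈ F, φ F x * (g x * ν x)) := by
    rw [← Finset.sum_fiberwise_of_maps_to (s := S) (t := R) (g := π) (fun Q hQ => hπR Q hQ)]
    apply Finset.sum_le_sum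
    intro F hF
    have h1 : ∑ x ∈ F, φ F x * (g x * ν x) =
        ∑ Q ∈ S with π Q = F, (c Q * ∑ y ∈ Q, μ y) * ∑ x ∈ Q, g x * ν x := by
      rw [sum_swap (S.filter (fun Q => π Q = F)) (fun Q => c Q * ∑ y ∈ Q, μ y)
        (fun x => g x * ν x)]
      rw [← Finset.sum_subset (Finset.subset_univ F)]
      intro x _ hx
      have : (Finset.filter (fun Q => x ∈ Q) (S.filter (fun Q => π Q = F))) = ∅ := by
        apply Finset.filter_eq_empty_iff.2
        intro Q hQ hxQ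
        simp only [Finset.mem_filter] at hQ
        apply hx
        rw [← hQ.2]
        exact (hπ Q hQ.1).2.1 hxQ
      rw [this]; simp
    rw [h1, Finset.mul_sum, Finset.mul_sum]
    apply Finset.sum_le_sum
    intro Q hQ
    simp only [Finset.mem_filter] at hQ
    rw [← haI Q hQ.1]
    have h2 := hakk Q hQ.1
    rw [hQ.2] at h2
    have h3 : 0 ≤ (c Q * ∑ y ∈ Q, μ y) * ∑ x ∈ Q, g x * ν x :=
      mul_nonneg (mul_nonneg (hc Q hQ.1) (hμ0 Q)) (hg0 Q)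
    nlinarith
  -- children
  set ch : Finset X → Finset (Finset X) := fun F =>
    R.filter (fun F' => F' ⊂ F ∧ ∀ F'' ∈ R, F'' ⊂ F → F' ⊆ F'' → F' = F'') with hch_def
  set U : Finset X → Finset X := fun F => (ch F).biUnion id with hU_def
  have hchR : ∀ F, ch F ⊆ R := fun F => Finset.filter_subset _ _
  -- every record strictly inside F is in a child
  have hinch : ∀ F ∈ R, ∀ F' ∈ R, F' ⊂ F → F' ⊆ U F := by
    intro F hF F' hF' hFF'
    obtain ⟨M, hM, hMmax⟩ := Finset.exists_max_image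
      (R.filter (fun A => A ⊂ F ∧ F' ⊆ A)) Finset.card ⟨F', by
        simp only [Finset.mem_filter]; exact ⟨hF', hFF', subset_rfl⟩⟩
    simp only [Finset.mem_filter] at hM
    have hMch : M ∈ ch F := by
      simp only [hch_def, Finset.mem_filter]
      refine ⟨hM.1, hM.2.1, ?_⟩
      intro F'' hF'' hF''F hMF''
      have := hMmax F'' (by
        simp only [Finset.mem_filter]; exact ⟨hF'', hF''F, hM.2.2.trans hMF''⟩)
      exact Finset.eq_of_subset_of_card_le hMF'' this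
    intro x hx
    exact Finset.mem_biUnion.2 ⟨M, hMch, hM.2.2 hx⟩
  have hUF : ∀ F, U F ⊆ F := by
    intro F x hx
    obtain ⟨A, hA, hxA⟩ := Finset.mem_biUnion.1 hx
    simp only [hch_def, Finset.mem_filter] at hA
    exact hA.2.1.1 hxA
  have hchdis : ∀ F, ∀ A ∈ ch F, ∀ B ∈ ch F, A ≠ B → Disjoint A B := by
    intro F A hA B hB hAB
    simp only [hch_def, Finset.mem_filter] at hA hB
    rcases hS.2 A (hRS A hA.1) B (hRS B hB.1) with h | h | h
    · exact absurd (hA.2.2 B hB.1 hB.2.1 h) hAB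
    · exact absurd (hB.2.2 A hA.1 hA.2.1 h).symm hAB
    · exact h
  -- Step 3
  have step3 : ∀ F ∈ R, a F * ∑ x ∈ F, φ F x * (g x * ν x) ≤
      a F ^ p * (∑ x ∈ F, ν x * φ F x ^ p) + ∑ x ∈ F \ U F, g x ^ q * ν x
        + ∑ F' ∈ ch F, a F' ^ p * ∑ x ∈ F', μ x := by
    intro F hF
    have haF := (ha F (hRS F hF)).le
    have hsplit : ∀ w : X → ℝ, ∑ x ∈ F, w x = ∑ x ∈ F \ U F, w x + ∑ F' ∈ ch F, ∑ x ∈ F', w x := by
      intro w
      rw [← Finset.sum_sdiff (hUF F)]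
      congr 1
      have e : U F = (ch F).biUnion id := rfl
      rw [e, Finset.sum_biUnion (t := id) (fun A hA B hB hAB => hchdis F A hA B hB hAB)]
      rfl
    rw [hsplit, hsplit (fun x => ν x * φ F x ^ p)]
    have h1 : a F * ∑ x ∈ F \ U F, φ F x * (g x * ν x) ≤
        a F ^ p * (∑ x ∈ F \ U F, ν x * φ F x ^ p) + ∑ x ∈ F \ U F, g x ^ q * ν x := by
      rw [Finset.mul_sum, Finset.mul_sum, ← Finset.sum_add_distrib]
      apply Finset.sum_le_sum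
      intro x _
      have y1 := young (mul_nonneg haF (hφ0 F x)) (hg x) hpq
      rw [Real.mul_rpow haF (hφ0 F x)] at y1
      have y2 := mul_le_mul_of_nonneg_right y1 (hν x)
      linarith
    have h2 : ∀ F' ∈ ch F, a F * ∑ x ∈ F', φ F x * (g x * ν x) ≤
        a F ^ p * (∑ x ∈ F', ν x * φ F x ^ p) + a F' ^ p * ∑ x ∈ F', μ x := by
      intro F' hF'
      have hF'R := hchR F hF'
      have hF'F : F' ⊂ F := by
        simp only [hch_def, Finset.mem_filter] at hF'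
        exact hF'.2.1
      -- φ F is constant on F'
      set v : ℝ := ∑ Q ∈ (S.filter (fun Q => π Q = F)) with F' ⊆ Q, c Q * ∑ y ∈ Q, μ y with hv
      have hv0 : 0 ≤ v := by
        apply Finset.sum_nonneg
        intro Q hQ
        simp only [Finset.mem_filter] at hQ
        exact mul_nonneg (hc Q hQ.1.1) (hμ0 Q)
      have hconst : ∀ x ∈ F', φ F x = v := by
        intro x hx
        simp only [hφ_def, hv]
        apply Finset.sum_congr _ (fun _ _ => rfl)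
        apply Finset.filter_congr
        intro Q hQ
        simp only [Finset.mem_filter] at hQ
        constructor
        · intro hxQ
          rcases hS.comp (hRS F' hF'R) hQ.1 hx hxQ with h | h
          · exact h
          · exfalso
            have h1 := (hπ Q hQ.1).2.2.2 F' (hRrec F' hF'R) h.1
            rw [hQ.2] at h1
            exact (Finset.ssubset_iff_subset_ne.1 hF'F).2 (Finset.Subset.antisymm hF'F.1 h1)
        · intro h; exact h hx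
      have e1 : ∑ x ∈ F', φ F x * (g x * ν x) = v * ∑ x ∈ F', g x * ν x := by
        rw [Finset.mul_sum]
        exact Finset.sum_congr rfl (fun x hx => by rw [hconst x hx])
      have e2 : ∑ x ∈ F', ν x * φ F x ^ p = v ^ p * ∑ x ∈ F', ν x := by
        rw [Finset.mul_sum]
        exact Finset.sum_congr rfl (fun x hx => by rw [hconst x hx]; ring)
      rw [e1, e2]
      have h3 := hcmp F' (hRS F' hF'R)
      have hn := hνS F' (hRS F' hF'R)
      have e3 : ∑ x ∈ F', g x * ν x =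
          ((∑ x ∈ F', g x * ν x) / ∑ x ∈ F', ν x) * ∑ x ∈ F', ν x := by
        rw [div_mul_cancel₀ _ hn.ne']
      have y1 := young (mul_nonneg haF hv0)
        (div_nonneg (hg0 F') (hν0 F')) hpq
      rw [Real.mul_rpow haF hv0] at y1
      have y2 := mul_le_mul_of_nonneg_right y1 (hν0 F')
      calc a F * (v * ∑ x ∈ F', g x * ν x)
          = a F * v * ((∑ x ∈ F', g x * ν x) / ∑ x ∈ F', ν x) * ∑ x ∈ F', ν x := by
            rw [mul_assoc (a F * v), ← e3]; ring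
        _ ≤ (a F ^ p * v ^ p + ((∑ x ∈ F', g x * ν x) / ∑ x ∈ F', ν x) ^ q) *
              ∑ x ∈ F', ν x := y2
        _ ≤ _ := by
            rw [add_mul]
            have : a F' ^ p = ((∑ x ∈ F', f x * μ x) / ∑ x ∈ F', μ x) ^ p := rfl
            rw [this]
            linarith
    have h3 : ∑ F' ∈ ch F, a F * ∑ x ∈ F', φ F x * (g x * ν x) ≤
        ∑ F' ∈ ch F, (a F ^ p * (∑ x ∈ F', ν x * φ F x ^ p) + a F' ^ p * ∑ x ∈ F', μ x) :=
      Finset.sum_le_sum h2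
    rw [Finset.sum_add_distrib, ← Finset.mul_sum, ← Finset.mul_sum] at h3
    rw [mul_add, mul_add]
    linarith
  -- Step 4
  have hcarl := carleson_rec S hS μ f hμ hf a ha haI R hRrec hpq
  have hTF : ∀ F ∈ R, ∑ x ∈ F, ν x * φ F x ^ p ≤ T * ∑ x ∈ F, μ x := by
    intro F hF
    apply hT F (hRS F hF) (S.filter (fun Q => π Q = F)) (Finset.filter_subset _ _)
    intro Q hQ
    simp only [Finset.mem_filter] at hQ
    rw [← hQ.2]
    exact (hπ Q hQ.1).2.1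
  have s1 : ∑ F ∈ R, a F ^ p * (∑ x ∈ F, ν x * φ F x ^ p) ≤ T * (cc p * ∑ x, f x ^ p * μ x) := by
    calc ∑ F ∈ R, a F ^ p * (∑ x ∈ F, ν x * φ F x ^ p)
        ≤ ∑ F ∈ R, T * (a F ^ p * ∑ x ∈ F, μ x) := by
          apply Finset.sum_le_sum
          intro F hF
          have := mul_le_mul_of_nonneg_left (hTF F hF)
            (Real.rpow_nonneg (ha F (hRS F hF)).le p)
          linarith
      _ = T * ∑ F ∈ R, a F ^ p * ∑ x ∈ F, μ x := by rw [Finset.mul_sum]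
      _ ≤ _ := mul_le_mul_of_nonneg_left hcarl hT0
  have s2 : ∑ F ∈ R, ∑ x ∈ F \ U F, g x ^ q * ν x ≤ ∑ x, g x ^ q * ν x := by
    apply sum_sum_le R Finset.univ (fun F => F \ U F) (fun F _ => Finset.subset_univ _)
    · intro F hF G hG hFG
      rw [Finset.disjoint_left]
      intro x hx hx'
      simp only [Finset.mem_sdiff] at hx hx'
      rcases hS.comp (hRS F hF) (hRS G hG) hx.1 hx'.1 with h | h
      · rcases eq_or_ssubset_of_subset h with h | h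
        · exact hFG h
        · exact hx'.2 (hinch G hG F hF h hx.1)
      · exact hx.2 (hinch F hF G hG h hx'.1)
    · intro x _; exact mul_nonneg (Real.rpow_nonneg (hg x) _) (hν x)
  have s3 : ∑ F ∈ R, ∑ F' ∈ ch F, a F' ^ p * ∑ x ∈ F', μ x ≤
      ∑ F' ∈ R, a F' ^ p * ∑ x ∈ F', μ x := by
    apply sum_sum_le R R ch (fun F _ => hchR F)
    · intro F hF G hG hFG
      rw [Finset.disjoint_left]
      intro A hA hA'
      simp only [hch_def, Finset.mem_filter] at hA hA'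
      obtain ⟨x, hx⟩ := hS.1 A (hRS A hA.1)
      rcases hS.comp (hRS F hF) (hRS G hG) (hA.2.1.1 hx) (hA'.2.1.1 hx) with h | h
      · rcases eq_or_ssubset_of_subset h with h | h
        · exact hFG h
        · have := hA'.2.2 F hF h hA.2.1.1
          exact (Finset.ssubset_iff_subset_ne.1 hA.2.1).2 this
      · have := hA.2.2 G hG h hA'.2.1.1
        exact (Finset.ssubset_iff_subset_ne.1 hA'.2.1).2 this
    · intro F' hF'; exact mul_nonneg (Real.rpow_nonneg (ha F' (hRS F' hF')).le _) (hμ0 F')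
  calc _ ≤ ∑ F ∈ R, 2 * (a F * ∑ x ∈ F, φ F x * (g x * ν x)) := step2
    _ = 2 * ∑ F ∈ R, (a F * ∑ x ∈ F, φ F x * (g x * ν x)) := by rw [Finset.mul_sum]
    _ ≤ 2 * ∑ F ∈ R, (a F ^ p * (∑ x ∈ F, ν x * φ F x ^ p) + ∑ x ∈ F \ U F, g x ^ q * ν x
        + ∑ F' ∈ ch F, a F' ^ p * ∑ x ∈ F', μ x) :=
          mul_le_mul_of_nonneg_left (Finset.sum_le_sum step3) (by norm_num)
    _ = 2 * (∑ F ∈ R, a F ^ p * (∑ x ∈ F, ν x * φ F x ^ p) +
        ∑ F ∈ R, ∑ x ∈ F \ U F, g x ^ q * ν x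
        + ∑ F ∈ R, ∑ F' ∈ ch F, a F' ^ p * ∑ x ∈ F', μ x) := by
          rw [Finset.sum_add_distrib, Finset.sum_add_distrib]
    _ ≤ 2 * (T * (cc p * ∑ x, f x ^ p * μ x) + ∑ x, g x ^ q * ν x +
          cc p * ∑ x, f x ^ p * μ x) := by
          linarith
    _ = _ := by ring

/-- The dyadic `T1` theorem for positive operators. -/
theorem dyadicT1 (S : Finset (Finset X)) (hS : Lam S) (μ ν f g : X → ℝ) (c : Finset X → ℝ)
    {p q : ℝ} (hpq : p.HolderConjugate q)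
    (hμ : ∀ x, 0 ≤ μ x) (hν : ∀ x, 0 ≤ ν x) (hf : ∀ x, 0 ≤ f x) (hg : ∀ x, 0 ≤ g x)
    (hc : ∀ Q ∈ S, 0 ≤ c Q)
    (hμS : ∀ Q ∈ S, 0 < ∑ x ∈ Q, μ x) (hνS : ∀ Q ∈ S, 0 < ∑ x ∈ Q, ν x)
    (T : ℝ) (hT0 : 0 ≤ T)
    (hT : ∀ R ∈ S, ∀ S' ⊆ S, (∀ Q ∈ S', Q ⊆ R) →
      ∑ x ∈ R, ν x * (∑ Q ∈ S' with x ∈ Q, c Q * ∑ y ∈ Q, μ y) ^ p ≤ T * ∑ x ∈ R, μ x)
    (hT' : ∀ R ∈ S, ∀ S' ⊆ S, (∀ Q ∈ S', Q ⊆ R) →
      ∑ x ∈ R, μ x * (∑ Q ∈ S' with x ∈ Q, c Q * ∑ y ∈ Q, ν y) ^ q ≤ T * ∑ x ∈ R, ν x) :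
    ∑ Q ∈ S, c Q * ((∑ x ∈ Q, f x * μ x) * (∑ x ∈ Q, g x * ν x)) ≤
      2 * ((cc p + cc q) * (T + 1) + 1) * (∑ x, f x ^ p * μ x + ∑ x, g x ^ q * ν x) := by
  classical
  have hf0 : ∀ Q : Finset X, 0 ≤ ∑ y ∈ Q, f y * μ y :=
    fun Q => Finset.sum_nonneg (fun y _ => mul_nonneg (hf y) (hμ y))
  have hg0 : ∀ Q : Finset X, 0 ≤ ∑ y ∈ Q, g y * ν y :=
    fun Q => Finset.sum_nonneg (fun y _ => mul_nonneg (hg y) (hν y))
  set S₀ := S.filter (fun Q => 0 < ∑ x ∈ Q, f x * μ x ∧ 0 < ∑ x ∈ Q, g x * ν x) with hS₀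
  have hsub0 : S₀ ⊆ S := Finset.filter_subset _ _
  set P : Finset X → Prop := fun Q =>
    ((∑ x ∈ Q, g x * ν x) / ∑ x ∈ Q, ν x) ^ q * (∑ x ∈ Q, ν x) ≤
      ((∑ x ∈ Q, f x * μ x) / ∑ x ∈ Q, μ x) ^ p * (∑ x ∈ Q, μ x) with hP
  have h0 : ∑ Q ∈ S, c Q * ((∑ x ∈ Q, f x * μ x) * (∑ x ∈ Q, g x * ν x)) =
      ∑ Q ∈ S₀, c Q * ((∑ x ∈ Q, f x * μ x) * (∑ x ∈ Q, g x * ν x)) := by
    symm
    apply Finset.sum_subset hsub0
    intro Q hQ hQ'
    simp only [hS₀, Finset.mem_filter, not_and_or, not_lt] at hQ'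
    rcases hQ' with h | h | h
    · exact absurd hQ h
    · rw [le_antisymm h (hf0 Q)]; ring
    · rw [le_antisymm h (hg0 Q)]; ring
  rw [h0, ← Finset.sum_filter_add_sum_filter_not S₀ P]
  have A := oneSide (S₀.filter P) (hS.mono ((Finset.filter_subset _ _).trans hsub0)) μ ν f g c
    hpq hμ hν hf hg (fun Q hQ => hc Q (hsub0 (Finset.filter_subset _ _ hQ)))
    (fun Q hQ => hμS Q (hsub0 (Finset.filter_subset _ _ hQ)))
    (fun Q hQ => hνS Q (hsub0 (Finset.filter_subset _ _ hQ)))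
    (fun Q hQ => by
      simp only [hS₀, Finset.mem_filter] at hQ
      exact hQ.1.2.1)
    (fun Q hQ => by
      simp only [Finset.mem_filter] at hQ
      exact hQ.2) T hT0
    (fun R hR S' hS' hQ => hT R (hsub0 (Finset.filter_subset _ _ hR)) S'
      (hS'.trans ((Finset.filter_subset _ _).trans hsub0)) hQ)
  have B := oneSide (S₀.filter (fun Q => ¬ P Q))
    (hS.mono ((Finset.filter_subset _ _).trans hsub0)) ν μ g f c
    hpq.symm hν hμ hg hf (fun Q hQ => hc Q (hsub0 (Finset.filter_subset _ _ hQ)))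
    (fun Q hQ => hνS Q (hsub0 (Finset.filter_subset _ _ hQ)))
    (fun Q hQ => hμS Q (hsub0 (Finset.filter_subset _ _ hQ)))
    (fun Q hQ => by
      simp only [hS₀, Finset.mem_filter] at hQ
      exact hQ.1.2.2)
    (fun Q hQ => by
      simp only [Finset.mem_filter, hP, not_le] at hQ
      exact hQ.2.le) T hT0
    (fun R hR S' hS' hQ => hT' R (hsub0 (Finset.filter_subset _ _ hR)) S'
      (hS'.trans ((Finset.filter_subset _ _).trans hsub0)) hQ)
  have C : ∑ Q ∈ S₀ with ¬ P Q, c Q * ((∑ x ∈ Q, f x * μ x) * (∑ x ∈ Q, g x * ν x)) =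
      ∑ Q ∈ S₀ with ¬ P Q, c Q * ((∑ x ∈ Q, g x * ν x) * (∑ x ∈ Q, f x * μ x)) :=
    Finset.sum_congr rfl (fun Q _ => by ring)
  rw [C]
  have hcp := cc_pos hpq.lt
  have hcq := cc_pos hpq.symm.lt
  have hF0 : 0 ≤ ∑ x, f x ^ p * μ x :=
    Finset.sum_nonneg (fun x _ => mul_nonneg (Real.rpow_nonneg (hf x) _) (hμ x))
  have hG0 : 0 ≤ ∑ x, g x ^ q * ν x :=
    Finset.sum_nonneg (fun x _ => mul_nonneg (Real.rpow_nonneg (hg x) _) (hν x))
  have z1 : 0 ≤ cc p * (T + 1) * ∑ x, g x ^ q * ν x := by positivity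
  have z2 : 0 ≤ cc q * (T + 1) * ∑ x, f x ^ p * μ x := by positivity
  nlinarith

end Pool.Agent.KS6_4.SB
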