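import Pool.Agent.KS6_4.SB.A19

/-!
Separated bumps, all exponents: the Hardy-type operator is unbounded for the extremal weights.
-/

set_option autoImplicit false
set_option linter.unusedSectionVars false
set_option linter.unusedVariables false

namespace Pool.Agent.KS6_4.SB

open MeasureTheory Metric Filter Topology Pool.Agent.H433R3.Sep
open scoped ENNReal NNReal

variable {d : ℕ} {Φ Ψ : ℝ≥0 → ℝ≥0}

lemma hk_lower {x y : Fin d → ℝ} {k : ℕ} (hx : lev x = k + 3) (hy : lev y = 0) :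
    ((2 * 2 ^ ((k + 3) * d) : ℝ≥0∞))⁻¹ ≤ ENNReal.ofReal (hk x y) := by
  have h1 : ‖x‖ ≤ 2 ^ (k + 3) := lev_le.1 hx.le
  have h2 : (2:ℝ) ^ (k + 2) < ‖x‖ := by
    by_contra hcon
    push Not at hcon
    have := lev_le.2 hcon
    omega
  have h3 : ‖y‖ ≤ 1 := by
    have := (lev_le (x := y) (k := 0)).1 hy.le
    simpa using this
  have h4 : (4:ℝ) ≤ 2 ^ (k + 2) := by
    have : (1:ℝ) ≤ 2 ^ k := one_le_pow₀ (by norm_num)
    rw [pow_add]; linarith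
  have hx0 : 0 < ‖x‖ := by linarith
  have h5 : 1 / (2 * (2 ^ (k + 3)) ^ d) ≤ hk x y := by
    have h6 : 1 / (2 * ‖x‖ ^ d) ≤ hh d ‖x‖ ‖y‖ := by
      unfold hh
      rw [max_eq_right (by linarith), div_le_div_iff₀ (by positivity) (by positivity), pow_succ]
      have h7 : 0 < ‖x‖ ^ d := by positivity
      nlinarith
    have h8 : 1 / (2 * (2 ^ (k + 3)) ^ d) ≤ 1 / (2 * ‖x‖ ^ d) := by
      apply one_div_le_one_div_of_le (by positivity)
      apply mul_le_mul_of_nonneg_left _ (by norm_num)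
      exact pow_le_pow_left₀ hx0.le h1 d
    unfold hk
    have := hh_nonneg (d := d) (s := ‖x‖) (norm_nonneg y)
    linarith
  have h9 : ((2 * 2 ^ ((k + 3) * d) : ℝ≥0∞))⁻¹ = ENNReal.ofReal (1 / (2 * (2 ^ (k + 3)) ^ d)) := by
    rw [one_div, ENNReal.ofReal_inv_of_pos (by positivity), ENNReal.ofReal_mul (by norm_num),
      ← pow_mul, ENNReal.ofReal_pow (by norm_num)]
    norm_num
  rw [h9]
  exact ENNReal.ofReal_le_ofReal h5

lemma bk_div3 (h : IsYoung Φ) {s : ℝ} (hs : 0 < s) (hd : 0 < d)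
    (hint : ¬ ∃ c : ℝ≥0, 0 < c ∧ ∫⁻ x in Set.Ioi (c:ℝ), bint s Φ x ≠ ∞) :
    ∑' k, (bk h s d (k + 3) : ℝ≥0∞) = ∞ := by
  have h1 := bk_div h hs hd hint
  by_contra hcon
  rw [tsum_eq_zero_add' ENNReal.summable, tsum_eq_zero_add' ENNReal.summable] at h1
  have h2 : ∑' b : ℕ, (bk h s d (b + 1 + 1 + 1) : ℝ≥0∞) ≠ ∞ := hcon
  exact absurd h1 (ENNReal.add_ne_top.2 ⟨ENNReal.coe_ne_top,
    ENNReal.add_ne_top.2 ⟨ENNReal.coe_ne_top, h2⟩⟩)

lemma wm_tw (h : IsYoung Φ) (s : ℝ) (k : ℕ) : wm volume (tw h s) {x : Fin d → ℝ | lev x = k} =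
    ((tk h d k ^ s : ℝ≥0) : ℝ≥0∞) * volume {x : Fin d → ℝ | lev x = k} := by
  unfold wm
  rw [withDensity_apply _ (lev_eq_meas k)]
  rw [setLIntegral_congr_fun (lev_eq_meas k) (g := fun _ => ((tk h d k ^ s : ℝ≥0) : ℝ≥0∞))
    (fun x hx => by
      have hx' : lev x = k := hx
      simp only [tw, hx'])]
  rw [setLIntegral_const]

/-- First case: the function `1`. -/
lemma unb1 (h : IsYoung Φ) (hd : 0 < d) {p : ℝ} (hp : 1 < p)
    (hint : ¬ ∃ c : ℝ≥0, 0 < c ∧ ∫⁻ x in Set.Ioi (c:ℝ), bint (p - 1) Φ x ≠ ∞) :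
    ∫⁻ x, (∫⁻ y : Fin d → ℝ, ENNReal.ofReal (hk x y) * (uu y : ℝ≥0∞)) ^ p
      ∂(wm volume (tw h (p - 1))) = ∞ := by
  have hs : 0 < p - 1 := by linarith
  have hp0 : 0 < p := by linarith
  set F : (Fin d → ℝ) → ℝ≥0∞ := fun x =>
    (∫⁻ y : Fin d → ℝ, ENNReal.ofReal (hk x y) * (uu y : ℝ≥0∞)) ^ p with hF
  have hin : ∀ k : ℕ, ∀ x : Fin d → ℝ, lev x = k + 3 →
      ((2 ^ ((k + 3) * d) : ℝ≥0∞))⁻¹ ≤ ∫⁻ y : Fin d → ℝ, ENNReal.ofReal (hk x y) * (uu y : ℝ≥0∞) := by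
    intro k x hx
    have hv : (2:ℝ≥0∞) ≤ volume {y : Fin d → ℝ | lev y = 0} := by
      have : {y : Fin d → ℝ | lev y = 0} = {y : Fin d → ℝ | lev y ≤ 0} := by
        ext y; simp
      rw [this, lev_vol]
      calc (2:ℝ≥0∞) = 2 ^ 1 := by norm_num
        _ ≤ 2 ^ ((0 + 1) * d) := pow_le_pow_right₀ (by norm_num) (by omega)
    have hne : (2 ^ ((k + 3) * d) : ℝ≥0∞) ≠ 0 := pow_ne_zero _ (by norm_num)
    have hnt : (2 ^ ((k + 3) * d) : ℝ≥0∞) ≠ ∞ := ENNReal.pow_ne_top (by norm_num)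
    have ez : ∀ z : ℝ≥0∞, (2:ℝ≥0∞)⁻¹ * z * 2 = z := by
      intro z
      rw [mul_comm, ← mul_assoc, ENNReal.mul_inv_cancel (by norm_num) (by norm_num), one_mul]
    calc ((2 ^ ((k + 3) * d) : ℝ≥0∞))⁻¹ = (2 * 2 ^ ((k + 3) * d) : ℝ≥0∞)⁻¹ * 2 := by
          rw [ENNReal.mul_inv (Or.inl (by norm_num)) (Or.inl (by norm_num)), ez]
      _ ≤ (2 * 2 ^ ((k + 3) * d) : ℝ≥0∞)⁻¹ * volume {y : Fin d → ℝ | lev y = 0} :=
          mul_le_mul' le_rfl hv
      _ = ∫⁻ y in {y : Fin d → ℝ | lev y = 0}, (2 * 2 ^ ((k + 3) * d) : ℝ≥0∞)⁻¹ := by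
          rw [setLIntegral_const]
      _ ≤ ∫⁻ y in {y : Fin d → ℝ | lev y = 0}, ENNReal.ofReal (hk x y) * (uu y : ℝ≥0∞) := by
          apply setLIntegral_mono' (lev_eq_meas 0)
          intro y hy
          have hy' : lev y = 0 := hy
          unfold uu
          rw [if_pos hy', ENNReal.coe_one, mul_one]
          exact hk_lower hx hy'
      _ ≤ _ := setLIntegral_le_lintegral _ _
  have hdis : Pairwise (fun i j : ℕ => Disjoint {x : Fin d → ℝ | lev x = i + 3}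
      {x : Fin d → ℝ | lev x = j + 3}) := by
    intro i j hij
    rw [Set.disjoint_left]
    intro x hx hx'
    have h1 : lev x = i + 3 := hx
    have h2 : lev x = j + 3 := hx'
    omega
  have h1 : ∑' k : ℕ, ∫⁻ x in {x : Fin d → ℝ | lev x = k + 3}, F x ∂(wm volume (tw h (p - 1))) ≤
      ∫⁻ x, F x ∂(wm volume (tw h (p - 1))) := by
    rw [← lintegral_iUnion (fun k => lev_eq_meas (k + 3)) hdis]
    exact setLIntegral_le_lintegral _ _
  have h2 : ∀ k : ℕ, (bk h (p - 1) d (k + 3) : ℝ≥0∞) ≤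
      ∫⁻ x in {x : Fin d → ℝ | lev x = k + 3}, F x ∂(wm volume (tw h (p - 1))) := by
    intro k
    set P : ℝ≥0 := 2 ^ ((k + 3) * d) with hP
    have hP0 : 0 < P := by positivity
    have hv : (P : ℝ≥0∞) ≤ volume {x : Fin d → ℝ | lev x = k + 3} := by
      have := lev_eq_ge (d := d) hd (k + 2)
      rw [hP]; push_cast
      exact this
    calc (bk h (p - 1) d (k + 3) : ℝ≥0∞)
        = ((P⁻¹ ^ p : ℝ≥0) : ℝ≥0∞) * (((tk h d (k + 3) ^ (p - 1) : ℝ≥0) : ℝ≥0∞) * P) := by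
          rw [← ENNReal.coe_mul, ← ENNReal.coe_mul]
          congr 1
          unfold bk
          rw [← hP, NNReal.div_rpow, NNReal.inv_rpow]
          have e : P ^ p = P ^ (p - 1) * P := by
            rw [← NNReal.rpow_add_one hP0.ne']; ring_nf
          have e1 : P ^ (p - 1) ≠ 0 := (NNReal.rpow_pos hP0).ne'
          rw [e]
          field_simp
      _ ≤ ((P⁻¹ ^ p : ℝ≥0) : ℝ≥0∞) * (((tk h d (k + 3) ^ (p - 1) : ℝ≥0) : ℝ≥0∞) *
          volume {x : Fin d → ℝ | lev x = k + 3}) := by gcongr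
      _ = ((P⁻¹ ^ p : ℝ≥0) : ℝ≥0∞) * wm volume (tw h (p - 1)) {x : Fin d → ℝ | lev x = k + 3} := by
          rw [wm_tw]
      _ = ∫⁻ x in {x : Fin d → ℝ | lev x = k + 3}, ((P⁻¹ ^ p : ℝ≥0) : ℝ≥0∞)
            ∂(wm volume (tw h (p - 1))) := by rw [setLIntegral_const]
      _ ≤ _ := by
          apply setLIntegral_mono' (lev_eq_meas (k + 3))
          intro x hx
          have hx' : lev x = k + 3 := hx
          rw [hF]
          simp only
          rw [ENNReal.coe_rpow_of_nonneg _ hp0.le, ENNReal.coe_inv hP0.ne']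
          apply ENNReal.rpow_le_rpow _ hp0.le
          have := hin k x hx'
          rw [hP]; push_cast
          exact this
  rw [← top_le_iff]
  calc ∞ = ∑' k : ℕ, (bk h (p - 1) d (k + 3) : ℝ≥0∞) := (bk_div3 h hs hd hint).symm
    _ ≤ ∑' k : ℕ, ∫⁻ x in {x : Fin d → ℝ | lev x = k + 3}, F x ∂(wm volume (tw h (p - 1))) :=
        ENNReal.tsum_le_tsum h2
    _ ≤ _ := h1

/-! ### second case -/

/-- the coefficients of the test functions -/
noncomputable def ck (s : ℝ) (d k : ℕ) : ℝ≥0 := ((2 ^ (k * d) : ℝ≥0)⁻¹) ^ s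

/-- the test functions -/
noncomputable def fN (s : ℝ) (N : ℕ) (y : Fin d → ℝ) : ℝ≥0 :=
  if 3 ≤ lev y ∧ lev y < N + 3 then ck s d (lev y) else 0

lemma fN_meas (s : ℝ) (N : ℕ) : Measurable (fN s N : (Fin d → ℝ) → ℝ≥0) :=
  (measurable_of_countable (fun n : ℕ => if 3 ≤ n ∧ n < N + 3 then ck s d n else 0)).comp lev_meas

lemma lint_lev (G : ℕ → ℝ≥0∞) (N : ℕ) :
    ∫⁻ y : Fin d → ℝ, (if 3 ≤ lev y ∧ lev y < N + 3 then G (lev y) else 0) =
      ∑ k ∈ Finset.range N, G (k + 3) * volume {y : Fin d → ℝ | lev y = k + 3} := by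
  have h1 : ∀ y : Fin d → ℝ, (if 3 ≤ lev y ∧ lev y < N + 3 then G (lev y) else 0) =
      ∑ k ∈ Finset.range N, {y : Fin d → ℝ | lev y = k + 3}.indicator (fun _ => G (k + 3)) y := by
    intro y
    by_cases hy : 3 ≤ lev y ∧ lev y < N + 3
    · rw [if_pos hy]
      obtain ⟨m, hm⟩ : ∃ m, lev y = m + 3 := ⟨lev y - 3, by omega⟩
      rw [Finset.sum_eq_single m]
      · have hy' : y ∈ {y : Fin d → ℝ | lev y = m + 3} := hm
        rw [Set.indicator_of_mem hy', hm]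
      · intro k _ hk
        have hy' : y ∉ {y : Fin d → ℝ | lev y = k + 3} := by
          intro h
          have h' : lev y = k + 3 := h
          omega
        rw [Set.indicator_of_notMem hy']
      · intro hmr
        exfalso
        apply hmr
        rw [Finset.mem_range]
        omega
    · rw [if_neg hy]
      symm
      apply Finset.sum_eq_zero
      intro k hk
      rw [Finset.mem_range] at hk
      have hy' : y ∉ {y : Fin d → ℝ | lev y = k + 3} := by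
        intro h
        have h' : lev y = k + 3 := h
        exact hy ⟨by omega, by omega⟩
      rw [Set.indicator_of_notMem hy']
  simp_rw [h1]
  rw [lintegral_finsetSum _ (fun k _ => measurable_const.indicator (lev_eq_meas (k + 3)))]
  apply Finset.sum_congr rfl
  intro k _
  rw [lintegral_indicator_const (lev_eq_meas (k + 3))]

lemma unb2_lower (h : IsYoung Φ) (hd : 0 < d) (s : ℝ) (N : ℕ) {x : Fin d → ℝ} (hx : lev x = 0) :
    2⁻¹ * ((∑ k ∈ Finset.range N, bk h s d (k + 3) : ℝ≥0) : ℝ≥0∞) ≤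
      ∫⁻ y : Fin d → ℝ, ENNReal.ofReal (hk x y) * ((tw h s y : ℝ≥0∞) * (fN s N y : ℝ≥0∞)) := by
  calc 2⁻¹ * ((∑ k ∈ Finset.range N, bk h s d (k + 3) : ℝ≥0) : ℝ≥0∞)
      ≤ ∑ k ∈ Finset.range N, (2 * 2 ^ ((k + 3) * d) : ℝ≥0∞)⁻¹ *
          ((tk h d (k + 3) ^ s : ℝ≥0) * (ck s d (k + 3) : ℝ≥0)) *
            volume {y : Fin d → ℝ | lev y = k + 3} := by
        rw [ENNReal.ofNNReal_finsetSum, Finset.mul_sum]
        apply Finset.sum_le_sum
        intro k _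
        set P : ℝ≥0 := 2 ^ ((k + 3) * d) with hP
        have hP0 : 0 < P := by positivity
        have hv : (P : ℝ≥0∞) ≤ volume {x : Fin d → ℝ | lev x = k + 3} := by
          have := lev_eq_ge (d := d) hd (k + 2)
          rw [hP]; push_cast
          exact this
        have hPe : (2 ^ ((k + 3) * d) : ℝ≥0∞) = (P : ℝ≥0∞) := by rw [hP]; push_cast; rfl
        have hPne : (P : ℝ≥0∞) ≠ 0 := by exact_mod_cast hP0.ne'
        rw [hPe]
        calc 2⁻¹ * (bk h s d (k + 3) : ℝ≥0∞)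
            = (2 * (P : ℝ≥0∞))⁻¹ * ((tk h d (k + 3) ^ s : ℝ≥0) * (ck s d (k + 3) : ℝ≥0)) * P := by
              have e : bk h s d (k + 3) = tk h d (k + 3) ^ s * ck s d (k + 3) := by
                unfold bk ck
                rw [← NNReal.mul_rpow, div_eq_mul_inv]
              rw [e, ENNReal.mul_inv (Or.inl (by norm_num)) (Or.inl (by norm_num)), ENNReal.coe_mul]
              have e2 : (2:ℝ≥0∞)⁻¹ * (P:ℝ≥0∞)⁻¹ * ((tk h d (k + 3) ^ s : ℝ≥0) *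
                  (ck s d (k + 3) : ℝ≥0)) * P = 2⁻¹ * ((tk h d (k + 3) ^ s : ℝ≥0) *
                  (ck s d (k + 3) : ℝ≥0)) * ((P:ℝ≥0∞)⁻¹ * P) := by ring
              rw [e2, ENNReal.inv_mul_cancel hPne ENNReal.coe_ne_top, mul_one]
          _ ≤ _ := by gcongr
    _ = ∫⁻ y : Fin d → ℝ, (if 3 ≤ lev y ∧ lev y < N + 3 then
          (2 * 2 ^ (lev y * d) : ℝ≥0∞)⁻¹ * ((tk h d (lev y) ^ s : ℝ≥0) * (ck s d (lev y) : ℝ≥0))
            else 0) :=
        (lint_lev (fun k => (2 * 2 ^ (k * d) : ℝ≥0∞)⁻¹ *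
          ((tk h d k ^ s : ℝ≥0) * (ck s d k : ℝ≥0))) N).symm
    _ ≤ _ := by
        apply lintegral_mono
        intro y
        simp only
        by_cases hy : 3 ≤ lev y ∧ lev y < N + 3
        · rw [if_pos hy]
          obtain ⟨m, hm⟩ : ∃ m, lev y = m + 3 := ⟨lev y - 3, by omega⟩
          unfold tw fN
          rw [if_pos hy, hk_symm x y, hm]
          exact mul_le_mul' (hk_lower hm hx) le_rfl
        · rw [if_neg hy]; exact bot_le

lemma unb2_upper (h : IsYoung Φ) {p q : ℝ} (hpq : p.HolderConjugate q) (N : ℕ) :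
    ∫⁻ y : Fin d → ℝ, (fN (q - 1) N y : ℝ≥0∞) ^ p ∂(wm volume (tw h (q - 1))) ≤
      2 ^ d * ((∑ k ∈ Finset.range N, bk h (q - 1) d (k + 3) : ℝ≥0) : ℝ≥0∞) := by
  have hp0 : 0 < p := by linarith [hpq.lt]
  have hq1 : 0 < q - 1 := by linarith [hpq.symm.lt]
  have e1 : (q - 1) * p = q := by
    have := hpq.mul_eq_add
    nlinarith
  unfold wm
  rw [lintegral_withDensity_eq_lintegral_mul _ (tw_meas h (q - 1)).coe_nnreal_ennreal
    ((fN_meas (q - 1) N).coe_nnreal_ennreal.pow_const p)]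
  have e0 : ∀ y : Fin d → ℝ, ((fun x : Fin d → ℝ => ((tw h (q - 1) x : ℝ≥0) : ℝ≥0∞)) *
      (fun y : Fin d → ℝ => (fN (q - 1) N y : ℝ≥0∞) ^ p)) y = (if 3 ≤ lev y ∧ lev y < N + 3 then
          ((tk h d (lev y) ^ (q - 1) : ℝ≥0) : ℝ≥0∞) * (ck (q - 1) d (lev y) : ℝ≥0∞) ^ p else 0) := by
    intro y
    simp only [Pi.mul_apply]
    unfold tw fN
    by_cases hy : 3 ≤ lev y ∧ lev y < N + 3
    · rw [if_pos hy, if_pos hy]
    · rw [if_neg hy, if_neg hy, ENNReal.coe_zero, ENNReal.zero_rpow_of_pos hp0, mul_zero]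
  rw [lintegral_congr e0, lint_lev (fun k => ((tk h d k ^ (q - 1) : ℝ≥0) : ℝ≥0∞) *
    (ck (q - 1) d k : ℝ≥0∞) ^ p) N, ENNReal.ofNNReal_finsetSum, Finset.mul_sum]
  apply Finset.sum_le_sum
  intro k _
  have hv := lev_eq_le (d := d) (k + 3)
  set P : ℝ≥0 := 2 ^ ((k + 3) * d) with hP
  have hP0 : 0 < P := by positivity
  have hv2 : volume {y : Fin d → ℝ | lev y = k + 3} ≤ 2 ^ d * (P : ℝ≥0∞) := by
    refine hv.trans (le_of_eq ?_)
    rw [hP]; push_cast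
    rw [← pow_add]
    ring_nf
  have hc : (ck (q - 1) d (k + 3)) ^ p * P = ck (q - 1) d (k + 3) := by
    unfold ck
    rw [← hP, ← NNReal.rpow_mul, e1, NNReal.inv_rpow, NNReal.inv_rpow]
    have e : P ^ q = P ^ (q - 1) * P := by
      rw [← NNReal.rpow_add_one hP0.ne']; ring_nf
    have e2 : P ^ (q - 1) ≠ 0 := (NNReal.rpow_pos hP0).ne'
    rw [e]
    field_simp
  calc ((tk h d (k + 3) ^ (q - 1) : ℝ≥0) : ℝ≥0∞) * (ck (q - 1) d (k + 3) : ℝ≥0∞) ^ p *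
        volume {y : Fin d → ℝ | lev y = k + 3}
      ≤ ((tk h d (k + 3) ^ (q - 1) : ℝ≥0) : ℝ≥0∞) * (ck (q - 1) d (k + 3) : ℝ≥0∞) ^ p *
        (2 ^ d * (P : ℝ≥0∞)) := by gcongr
    _ = 2 ^ d * (((tk h d (k + 3) ^ (q - 1) * ((ck (q - 1) d (k + 3)) ^ p * P) : ℝ≥0)) : ℝ≥0∞) := by
        rw [ENNReal.coe_mul, ENNReal.coe_mul, ENNReal.coe_rpow_of_nonneg _ hp0.le]
        ring
    _ = _ := by
        rw [hc]
        congr 2
        unfold bk ck
        rw [← NNReal.mul_rpow, div_eq_mul_inv]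

/-- Second case: no inequality between the two norms holds for all test functions. -/
lemma unb2 (h : IsYoung Φ) (hd : 0 < d) {p q : ℝ} (hpq : p.HolderConjugate q)
    (hint : ¬ ∃ c : ℝ≥0, 0 < c ∧ ∫⁻ x in Set.Ioi (c:ℝ), bint (q - 1) Φ x ≠ ∞) (C : ℝ≥0) :
    ∃ N : ℕ, C * ∫⁻ y : Fin d → ℝ, (fN (q - 1) N y : ℝ≥0∞) ^ p ∂(wm volume (tw h (q - 1))) <
      ∫⁻ x, (∫⁻ y : Fin d → ℝ, ENNReal.ofReal (hk x y) *
        ((tw h (q - 1) y : ℝ≥0∞) * (fN (q - 1) N y : ℝ≥0∞))) ^ p ∂(wm volume uu) := by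
  have hp1 : 1 < p := hpq.lt
  have hp0 : 0 < p := by linarith
  have hq1 : 0 < q - 1 := by linarith [hpq.symm.lt]
  set S : ℕ → ℝ≥0 := fun N => ∑ k ∈ Finset.range N, bk h (q - 1) d (k + 3) with hS
  set B : ℝ≥0 := max 1 ((C * 2 ^ d * 2 ^ p) ^ (1 / (p - 1))) with hB
  obtain ⟨N, hN⟩ : ∃ N, B < S N := by
    have h1 := bk_div3 h hq1 hd hint
    rw [ENNReal.tsum_eq_iSup_nat] at h1
    have h2 : (B : ℝ≥0∞) < ⨆ i : ℕ, ∑ k ∈ Finset.range i, (bk h (q - 1) d (k + 3) : ℝ≥0∞) := by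
      rw [h1]; exact ENNReal.coe_lt_top
    obtain ⟨N, hN⟩ := lt_iSup_iff.1 h2
    refine ⟨N, ?_⟩
    rw [← ENNReal.ofNNReal_finsetSum, ENNReal.coe_lt_coe] at hN
    exact hN
  refine ⟨N, ?_⟩
  have hS0 : 0 < S N := lt_of_lt_of_le one_pos ((le_max_left _ _).trans hN.le)
  have hkey : C * 2 ^ d * 2 ^ p < S N ^ (p - 1) := by
    have h1 : (C * 2 ^ d * 2 ^ p) ^ (1 / (p - 1)) < S N := lt_of_le_of_lt (le_max_right _ _) hN
    have h2 := NNReal.rpow_lt_rpow h1 (by linarith : 0 < p - 1)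
    rwa [← NNReal.rpow_mul, one_div_mul_cancel (by linarith : p - 1 ≠ 0), NNReal.rpow_one] at h2
  have hkey2 : C * (2 ^ d * S N) < (2⁻¹ * S N) ^ p := by
    have e : (2⁻¹ * S N) ^ p = (S N ^ (p - 1) * S N) / 2 ^ p := by
      rw [← NNReal.rpow_add_one hS0.ne', NNReal.mul_rpow, NNReal.inv_rpow]
      rw [show p - 1 + 1 = p by ring]
      field_simp
    have h2p : (0:ℝ≥0) < 2 ^ p := NNReal.rpow_pos (by norm_num)
    rw [e, lt_div_iff₀ h2p]
    calc C * (2 ^ d * S N) * 2 ^ p = (C * 2 ^ d * 2 ^ p) * S N := by ring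
      _ < S N ^ (p - 1) * S N := mul_lt_mul_of_pos_right hkey hS0
  have hu : (1:ℝ≥0∞) ≤ wm volume uu {x : Fin d → ℝ | lev x = 0} := by
    rw [wm_uu _ (lev_eq_meas 0), Set.inter_self]
    have : {y : Fin d → ℝ | lev y = 0} = {y : Fin d → ℝ | lev y ≤ 0} := by
      ext y; simp
    rw [this, lev_vol]
    exact one_le_pow₀ (by norm_num)
  calc C * ∫⁻ y : Fin d → ℝ, (fN (q - 1) N y : ℝ≥0∞) ^ p ∂(wm volume (tw h (q - 1)))
      ≤ C * (2 ^ d * (S N : ℝ≥0∞)) := mul_le_mul' le_rfl (unb2_upper h hpq N)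
    _ = ((C * (2 ^ d * S N) : ℝ≥0) : ℝ≥0∞) := by push_cast; rfl
    _ < (((2⁻¹ * S N) ^ p : ℝ≥0) : ℝ≥0∞) := ENNReal.coe_lt_coe.2 hkey2
    _ = (2⁻¹ * (S N : ℝ≥0∞)) ^ p * 1 := by
        rw [ENNReal.coe_rpow_of_nonneg _ hp0.le, ENNReal.coe_mul, ENNReal.coe_inv (by norm_num),
          mul_one]
        rfl
    _ ≤ (2⁻¹ * (S N : ℝ≥0∞)) ^ p * wm volume uu {x : Fin d → ℝ | lev x = 0} :=
        mul_le_mul' le_rfl hu
    _ = ∫⁻ x in {x : Fin d → ℝ | lev x = 0}, (2⁻¹ * (S N : ℝ≥0∞)) ^ p ∂(wm volume uu) := by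
        rw [setLIntegral_const]
    _ ≤ ∫⁻ x in {x : Fin d → ℝ | lev x = 0}, (∫⁻ y : Fin d → ℝ, ENNReal.ofReal (hk x y) *
        ((tw h (q - 1) y : ℝ≥0∞) * (fN (q - 1) N y : ℝ≥0∞))) ^ p ∂(wm volume uu) := by
        apply setLIntegral_mono' (lev_eq_meas 0)
        intro x hx
        exact ENNReal.rpow_le_rpow (unb2_lower h hd (q - 1) N hx) hp0.le
    _ ≤ _ := setLIntegral_le_lintegral _ _

end Pool.Agent.KS6_4.SB
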