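import Pool.Graph.R_seed8.H433R3.Sep21
import Pool.Agent.KS6_4.SB.A13

/-!
Separated bumps, all exponents: Calderon-Zygmund operators on bounded functions.
-/

set_option autoImplicit false
set_option linter.unusedSectionVars false
set_option linter.unusedVariables false

namespace Pool.Agent.KS6_4.SB

open MeasureTheory Metric Filter Topology
open Pool.Agent.H433R3.Sep hiding bddCase
open scoped ENNReal NNReal

variable {d : ℕ} {𝕜 : Type*} [RCLike 𝕜]
variable {T : Lp 𝕜 2 (volume : Measure (Fin d → ℝ)) →L[𝕜] Lp 𝕜 2 (volume : Measure (Fin d → ℝ))}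
variable {K : (Fin d → ℝ) → (Fin d → ℝ) → 𝕜}

lemma bddCase {p q : ℝ} (hpq : p.HolderConjugate q)
    (hd : 0 < d) {Φ₁ Φ₂ : ℝ≥0 → ℝ≥0} (h₁ : IsYoung Φ₁) (h₂ : IsYoung Φ₂)
    (hint₁ : ∃ c : ℝ≥0, 0 < c ∧ ∫⁻ x in Set.Ioi (c:ℝ), bint (p - 1) Φ₁ x ≠ ∞)
    (hint₂ : ∃ c : ℝ≥0, 0 < c ∧ ∫⁻ x in Set.Ioi (c:ℝ), bint (q - 1) Φ₂ x ≠ ∞)
    (M₁ M₂ : ℝ≥0) (hT : IsCZO T K) :
    ∃ C : ℝ≥0, ∀ (w σ : (Fin d → ℝ) → ℝ≥0), Measurable w → Measurable σ →
      (∀ (c : Fin d → ℝ) (l : ℝ), 0 < l → wm volume w (cube c l) < ∞) →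
      (∀ (c : Fin d → ℝ) (l : ℝ), 0 < l → wm volume σ (cube c l) < ∞) →
      (∀ (c : Fin d → ℝ) (l : ℝ), 0 < l → lux volume Φ₁ w (cube c l) ^ (p - 1) *
        (wm volume σ (cube c l) / volume (cube c l)) ≤ M₁) →
      (∀ (c : Fin d → ℝ) (l : ℝ), 0 < l → lux volume Φ₂ σ (cube c l) ^ (q - 1) *
        (wm volume w (cube c l) / volume (cube c l)) ≤ M₂) →
      ∀ (g₀ f : (Fin d → ℝ) → 𝕜), Measurable g₀ → Measurable f →
      (∀ x, ‖f x‖ₑ = (w x : ℝ≥0∞) * ‖g₀ x‖ₑ) → ∀ B : ℝ≥0, (∀ x, ‖f x‖ ≤ B) → ∀ R : ℝ, 0 ≤ R →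
      (∀ x, x ∉ closedBall 0 R → f x = 0) →
      ∫⁻ x, ‖TT T f x‖ₑ ^ p ∂(wm volume σ) ≤ C * ∫⁻ x, ‖g₀ x‖ₑ ^ p ∂(wm volume w) := by
  obtain ⟨a, A, ha, hdom⟩ := domin hd hT
  obtain ⟨C, hC⟩ := sparseDil hpq hd h₁ h₂ hint₁ hint₂ M₁ M₂ a ha
  have hp0 : 0 < p := by linarith [hpq.lt]
  refine ⟨A ^ p * C, ?_⟩
  intro w σ hw hσ hwf hσf hb₁ hb₂ g₀ f hg₀ hf hfg B hB R hR h0
  set t : Fin d → Bool := fun _ => true with ht
  set G : ℕ → Set (Fin d → ℝ) := fun j => gq t (ix t (j:ℤ) 0) with hG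
  have hGm : ∀ j, MeasurableSet (G j) := fun j => gq_meas _ _
  have hGmono : Monotone G := zero_mem_grid t
  have hGU : ⋃ j, G j = Set.univ := by
    apply Set.eq_univ_of_forall
    intro x
    obtain ⟨N, hN⟩ := exists_ball (d := d) ‖x‖ (norm_nonneg x)
    have hx : x ∈ closedBall (0 : Fin d → ℝ) ‖x‖ := by
      rw [mem_closedBall, dist_zero_right]
    exact Set.mem_iUnion.2 ⟨N, hN N le_rfl hx⟩
  have havg : ∀ I, avg a t f I =
      (∫⁻ z in dil a t I, ‖g₀ z‖ₑ ∂(wm volume w)) / volume (dil a t I) := by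
    intro I
    unfold avg wm
    rw [setLIntegral_withDensity_eq_setLIntegral_mul volume hw.coe_nnreal_ennreal hg₀.enorm
      (dil_meas a t I)]
    congr 1
    apply lintegral_congr
    intro x
    rw [hfg x]
    rfl
  have key : ∀ j, closedBall 0 R ⊆ G j → ∫⁻ x in G j, ‖TT T f x‖ₑ ^ p ∂(wm volume σ) ≤
      (A ^ p * C : ℝ≥0) * ∫⁻ x, ‖g₀ x‖ₑ ^ p ∂(wm volume w) := by
    intro j hj
    obtain ⟨S, E, hE1, hE2, hE3, hE4, hE5⟩ := hdom f hf B hB 0 R h0 t _ hj
    have hac : wm volume σ ≪ volume := withDensity_absolutelyContinuous _ _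
    have h1 : ∀ᵐ x ∂(wm volume σ).restrict (G j), ‖TT T f x‖ₑ ^ p ≤
        (A * ∑' I : S, (gq t (I : Idx d)).indicator (fun _ => avg a t f I) x) ^ p := by
      rw [ae_restrict_iff' (hGm j)]
      filter_upwards [hac.ae_le hE5] with x hx hxG
      exact ENNReal.rpow_le_rpow (hx hxG) hp0.le
    have hmS : ∀ s : Finset S, Measurable (fun x => ∑ I ∈ s, (gq t (I : Idx d)).indicator
        (fun _ => avg a t f I) x) := by
      intro s
      apply Finset.measurable_fun_sum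
      intro I _
      exact measurable_const.indicator (gq_meas _ _)
    have hsup : ∀ x, (∑' I : S, (gq t (I : Idx d)).indicator (fun _ => avg a t f I) x) ^ p =
        ⨆ s : Finset S, (∑ I ∈ s, (gq t (I : Idx d)).indicator (fun _ => avg a t f I) x) ^ p := by
      intro x
      rw [ENNReal.tsum_eq_iSup_sum]
      exact (Monotone.map_iSup_of_continuousAt (f := fun y : ℝ≥0∞ => y ^ p)
        ENNReal.continuous_rpow_const.continuousAt
        (fun a b hab => ENNReal.rpow_le_rpow hab hp0.le)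
        (by simp [hp0]))
    have hfin : ∀ s : Finset S, ∫⁻ x, (∑ I ∈ s, (gq t (I : Idx d)).indicator
        (fun _ => avg a t f I) x) ^ p ∂(wm volume σ) ≤
        C * ∫⁻ x, ‖g₀ x‖ₑ ^ p ∂(wm volume w) := by
      intro s
      have h2 := hC w σ hw hσ hwf hσf hb₁ hb₂ t (s.map (Function.Embedding.subtype _)) E
        (by
          intro I hI
          obtain ⟨I', _, rfl⟩ := Finset.mem_map.1 hI
          exact hE1 _ I'.2)
        (by
          intro I hI
          obtain ⟨I', _, rfl⟩ := Finset.mem_map.1 hI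
          exact hE2 _ I'.2)
        (by
          intro I hI
          obtain ⟨I', _, rfl⟩ := Finset.mem_map.1 hI
          exact hE3 _ I'.2)
        (by
          intro I hI J hJ
          obtain ⟨I', _, rfl⟩ := Finset.mem_map.1 hI
          obtain ⟨J', _, rfl⟩ := Finset.mem_map.1 hJ
          exact hE4 _ I'.2 _ J'.2)
        (fun z => ‖g₀ z‖ₑ) hg₀.enorm
      refine le_trans (le_of_eq ?_) h2
      apply lintegral_congr
      intro x
      rw [Finset.sum_map]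
      congr 1
      apply Finset.sum_congr rfl
      intro I _
      rw [havg]
      rfl
    calc ∫⁻ x in G j, ‖TT T f x‖ₑ ^ p ∂(wm volume σ)
        ≤ ∫⁻ x in G j, (A * ∑' I : S, (gq t (I : Idx d)).indicator
            (fun _ => avg a t f I) x) ^ p ∂(wm volume σ) := lintegral_mono_ae h1
      _ ≤ ∫⁻ x, (A * ∑' I : S, (gq t (I : Idx d)).indicator
            (fun _ => avg a t f I) x) ^ p ∂(wm volume σ) := setLIntegral_le_lintegral _ _
      _ = (A : ℝ≥0∞) ^ p * ∫⁻ x, (∑' I : S, (gq t (I : Idx d)).indicator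
            (fun _ => avg a t f I) x) ^ p ∂(wm volume σ) := by
          simp_rw [ENNReal.mul_rpow_of_nonneg _ _ hp0.le]
          rw [lintegral_const_mul' _ _ (ENNReal.rpow_ne_top_of_nonneg hp0.le ENNReal.coe_ne_top)]
      _ = (A : ℝ≥0∞) ^ p * ⨆ s : Finset S, ∫⁻ x, (∑ I ∈ s, (gq t (I : Idx d)).indicator
            (fun _ => avg a t f I) x) ^ p ∂(wm volume σ) := by
          simp_rw [hsup]
          rw [lintegral_iSup_directed (fun s => ((hmS s).pow_const p).aemeasurable)]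
          intro s s'
          classical
          refine ⟨s ∪ s', fun x => ?_, fun x => ?_⟩
          · exact ENNReal.rpow_le_rpow (Finset.sum_le_sum_of_subset Finset.subset_union_left) hp0.le
          · exact ENNReal.rpow_le_rpow (Finset.sum_le_sum_of_subset Finset.subset_union_right)
              hp0.le
      _ ≤ (A : ℝ≥0∞) ^ p * (C * ∫⁻ x, ‖g₀ x‖ₑ ^ p ∂(wm volume w)) :=
          mul_le_mul' le_rfl (iSup_le hfin)
      _ = _ := by rw [ENNReal.coe_mul, ENNReal.coe_rpow_of_nonneg _ hp0.le]; ring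
  have h3 : ∫⁻ x, ‖TT T f x‖ₑ ^ p ∂(wm volume σ) =
      ⨆ j, ∫⁻ x in G j, ‖TT T f x‖ₑ ^ p ∂(wm volume σ) := by
    rw [← setLIntegral_univ, ← hGU]
    exact setLIntegral_iUnion_of_directed _ hGmono.directed_le
  rw [h3]
  apply iSup_le
  intro j
  obtain ⟨N, hN⟩ := exists_ball (d := d) R hR
  have h4 := key (max j N) (hN _ (le_max_right _ _))
  exact (lintegral_mono_set (hGmono (le_max_left j N))).trans h4

end Pool.Agent.KS6_4.SB
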