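import Pool.Agent.KS6_4.SB.A20

/-!
Separated bumps, all exponents: necessity of the integral conditions.
-/

set_option autoImplicit false
set_option linter.unusedSectionVars false
set_option linter.unusedVariables false

namespace Pool.Agent.KS6_4.SB

open MeasureTheory Metric Filter Topology Pool.Agent.H433R3.Sep
open scoped ENNReal NNReal

variable {d : ℕ} {Φ₁ Φ₂ : ℝ≥0 → ℝ≥0}

lemma exists_lev (R : ℝ) : ∃ k : ℕ, ∀ x : Fin d → ℝ, ‖x‖ ≤ R → lev x ≤ k := by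
  obtain ⟨k, hk⟩ := pow_unbounded_of_one_lt R (by norm_num : (1:ℝ) < 2)
  exact ⟨k, fun x hx => lev_le.2 (hx.trans hk.le)⟩

lemma uu_lb (R : ℝ) : ∃ B : ℝ≥0, ∀ x : Fin d → ℝ, ‖x‖ ≤ R → uu x ≤ B := by
  refine ⟨1, fun x _ => ?_⟩
  unfold uu
  split_ifs
  · exact le_rfl
  · exact bot_le

lemma tw_lb {Φ : ℝ≥0 → ℝ≥0} (h : IsYoung Φ) (hd : 0 < d) {s : ℝ} (hs : 0 < s) (R : ℝ) :
    ∃ B : ℝ≥0, ∀ x : Fin d → ℝ, ‖x‖ ≤ R → tw h s x ≤ B := by
  obtain ⟨k, hk⟩ := exists_lev (d := d) R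
  exact ⟨tk h d k ^ s, fun x hx => tw_le h hd hs (hk x hx)⟩

theorem necess {p q : ℝ} (hpq : p.HolderConjugate q) (hd : 0 < d) (h₁ : IsYoung Φ₁)
    (h₂ : IsYoung Φ₂)
    (H : ∀ w σ : (Fin d → ℝ) → ℝ≥0, Measurable w → Measurable σ →
      (∀ R : ℝ, ∃ B : ℝ≥0, ∀ x, ‖x‖ ≤ R → w x ≤ B) → (∀ R : ℝ, ∃ B : ℝ≥0, ∀ x, ‖x‖ ≤ R → σ x ≤ B) →
      (∃ M : ℝ≥0, (∀ (a : Fin d → ℝ) (l : ℝ), 0 < l → lux volume Φ₁ w (cube a l) ^ (p - 1) *
        (wm volume σ (cube a l) / volume (cube a l)) ≤ M) ∧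
        (∀ (a : Fin d → ℝ) (l : ℝ), 0 < l → (wm volume w (cube a l) / volume (cube a l)) ^ (p - 1) *
        lux volume Φ₂ σ (cube a l) ≤ M)) →
      ∃ C : ℝ≥0, ∀ f : (Fin d → ℝ) → ℝ≥0, Measurable f → (∃ B, ∀ x, f x ≤ B) →
        (∃ R : ℝ, ∀ x, R < ‖x‖ → f x = 0) →
        ∫⁻ x, (∫⁻ y, ENNReal.ofReal (hk x y) * ((w y : ℝ≥0∞) * (f y : ℝ≥0∞))) ^ p
          ∂(wm volume σ) ≤ C * ∫⁻ y, (f y : ℝ≥0∞) ^ p ∂(wm volume w)) :
    (∃ c : ℝ≥0, 0 < c ∧ ∫⁻ x in Set.Ioi (c:ℝ), bint (p - 1) Φ₁ x ≠ ∞) ∧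
    (∃ c : ℝ≥0, 0 < c ∧ ∫⁻ x in Set.Ioi (c:ℝ), bint (q - 1) Φ₂ x ≠ ∞) := by
  have hp1 : 1 < p := hpq.lt
  have hp0 : 0 < p := by linarith
  have hs : 0 < p - 1 := by linarith
  have hs' : 0 < q - 1 := by linarith [hpq.symm.lt]
  have hpq1 : (q - 1) * (p - 1) = 1 := by
    have := hpq.mul_eq_add
    nlinarith
  constructor
  · by_contra hint
    obtain ⟨M₂, hM₂⟩ := bumpII h₁ h₂ hd hs
    set M₁ : ℝ≥0 := ((8:ℝ≥0) ^ d) ^ (p - 1) with hM₁
    obtain ⟨C, hC⟩ := H uu (tw h₁ (p - 1)) uu_meas (tw_meas h₁ _) uu_lb (tw_lb h₁ hd hs)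
      ⟨max M₁ M₂, fun a l hl => (bumpI h₁ hd hs a hl).trans
        (ENNReal.coe_le_coe.2 (le_max_left _ _)), fun a l hl => (hM₂ a l hl).trans
        (ENNReal.coe_le_coe.2 (le_max_right _ _))⟩
    have h3 := hC uu uu_meas ⟨1, fun x => by unfold uu; split_ifs <;> simp⟩
      ⟨1, fun x hx => by
        unfold uu
        rw [if_neg]
        intro h0
        have := (lev_le (x := x) (k := 0)).1 h0.le
        simp only [pow_zero] at this
        linarith⟩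
    have huu : ∀ y : Fin d → ℝ, (uu y : ℝ≥0∞) * (uu y : ℝ≥0∞) = (uu y : ℝ≥0∞) := by
      intro y
      unfold uu
      split_ifs <;> simp
    simp only [huu] at h3
    rw [unb1 h₁ hd hp1 hint] at h3
    have h4 : ∫⁻ y : Fin d → ℝ, (uu y : ℝ≥0∞) ^ p ∂(wm volume uu) ≤
        volume {x : Fin d → ℝ | lev x = 0} := by
      calc ∫⁻ y : Fin d → ℝ, (uu y : ℝ≥0∞) ^ p ∂(wm volume uu)
          ≤ ∫⁻ y : Fin d → ℝ, 1 ∂(wm volume uu) := by
            apply lintegral_mono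
            intro y
            have hu1 : (uu y : ℝ≥0∞) ≤ 1 := by
              unfold uu
              split_ifs <;> simp
            simp only
            calc (uu y : ℝ≥0∞) ^ p ≤ 1 ^ p := ENNReal.rpow_le_rpow hu1 hp0.le
              _ = 1 := ENNReal.one_rpow _
        _ = wm volume uu Set.univ := by rw [lintegral_one]
        _ = volume {x : Fin d → ℝ | lev x = 0} := by
            rw [wm_uu _ MeasurableSet.univ, Set.univ_inter]
    have h5 : volume {x : Fin d → ℝ | lev x = 0} < ∞ :=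
      lt_of_le_of_lt (lev_eq_le 0) (ENNReal.pow_lt_top (by norm_num))
    have h6 : (C : ℝ≥0∞) * ∫⁻ y : Fin d → ℝ, (uu y : ℝ≥0∞) ^ p ∂(wm volume uu) < ∞ :=
      ENNReal.mul_lt_top ENNReal.coe_lt_top (lt_of_le_of_lt h4 h5)
    exact absurd (top_le_iff.1 h3) h6.ne
  · by_contra hint
    obtain ⟨M₂, hM₂⟩ := bumpII h₂ h₁ hd hs'
    set M₁ : ℝ≥0 := ((8:ℝ≥0) ^ d) ^ (q - 1) with hM₁
    have r1 : ∀ (a : Fin d → ℝ) (l : ℝ), 0 < l →
        lux volume Φ₁ (tw h₂ (q - 1)) (cube a l) ^ (p - 1) *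
        (wm volume uu (cube a l) / volume (cube a l)) ≤ (M₂ ^ (p - 1) : ℝ≥0) := by
      intro a l hl
      have h3 := ENNReal.rpow_le_rpow (hM₂ a l hl) hs.le
      rw [ENNReal.mul_rpow_of_nonneg _ _ hs.le, ← ENNReal.rpow_mul, hpq1, ENNReal.rpow_one,
        mul_comm] at h3
      rw [ENNReal.coe_rpow_of_nonneg _ hs.le]
      exact h3
    have r2 : ∀ (a : Fin d → ℝ) (l : ℝ), 0 < l →
        (wm volume (tw h₂ (q - 1)) (cube a l) / volume (cube a l)) ^ (p - 1) *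
        lux volume Φ₂ uu (cube a l) ≤ (M₁ ^ (p - 1) : ℝ≥0) := by
      intro a l hl
      have h3 := ENNReal.rpow_le_rpow (bumpI h₂ hd hs' a hl) hs.le
      rw [ENNReal.mul_rpow_of_nonneg _ _ hs.le, ← ENNReal.rpow_mul, hpq1, ENNReal.rpow_one,
        mul_comm] at h3
      rw [ENNReal.coe_rpow_of_nonneg _ hs.le]
      exact h3
    obtain ⟨C, hC⟩ := H (tw h₂ (q - 1)) uu (tw_meas h₂ _) uu_meas (tw_lb h₂ hd hs') uu_lb
      ⟨max (M₂ ^ (p - 1)) (M₁ ^ (p - 1)), fun a l hl => (r1 a l hl).trans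
        (ENNReal.coe_le_coe.2 (le_max_left _ _)), fun a l hl => (r2 a l hl).trans
        (ENNReal.coe_le_coe.2 (le_max_right _ _))⟩
    obtain ⟨N, hN⟩ := unb2 h₂ hd hpq hint C
    have h3 := hC (fN (q - 1) N) (fN_meas _ _)
      ⟨1, fun x => by
        unfold fN
        split_ifs
        · unfold ck
          apply NNReal.rpow_le_one _ hs'.le
          exact inv_le_one_of_one_le₀ (one_le_pow₀ (by norm_num))
        · exact bot_le⟩
      ⟨2 ^ (N + 3), fun x hx => by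
        unfold fN
        rw [if_neg]
        rintro ⟨_, h0⟩
        have := (lev_le (x := x) (k := N + 3)).1 h0.le
        linarith⟩
    exact absurd h3 (not_le.2 hN)

end Pool.Agent.KS6_4.SB
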