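import Pool.Graph.R_seed8.H433R3.Sep5
import Pool.Agent.KS6_4.SB.A4

/-!
Separated bumps, all exponents: the testing theorem and the discrete two weight theorem.
-/

set_option autoImplicit false
set_option linter.unusedSectionVars false
set_option linter.unusedVariables false

namespace Pool.Agent.KS6_4.SB

open Finset Pool.Agent.H433R3.Sep

variable {X : Type*} [Fintype X] [DecidableEq X]

/-- decay rate of the energies -/
noncomputable def om (s : ℝ) : ℝ := (1/2:ℝ) ^ (s / 2)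

/-- the root of the decay rate -/
noncomputable def rr (s : ℝ) : ℝ := om s ^ (1 / (s + 1))

lemma om_pos (s : ℝ) : 0 < om s := by unfold om; positivity

lemma om_lt {s : ℝ} (hs : 0 < s) : om s < 1 :=
  Real.rpow_lt_one (by norm_num) (by norm_num) (by positivity)

lemma rr_pos (s : ℝ) : 0 < rr s := Real.rpow_pos_of_pos (om_pos s) _

lemma rr_lt {s : ℝ} (hs : 0 < s) : rr s < 1 :=
  Real.rpow_lt_one (om_pos s).le (om_lt hs) (by positivity)

lemma rr_pow {s : ℝ} (hs : 0 < s) (e : ℕ) : (rr s ^ e) ^ (s + 1) = om s ^ e := by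
  have h1 : rr s ^ (s + 1) = om s := by
    unfold rr
    rw [← Real.rpow_mul (om_pos s).le, one_div_mul_cancel (by linarith), Real.rpow_one]
  rw [← Real.rpow_natCast, ← Real.rpow_mul (rr_pos s).le, mul_comm, Real.rpow_mul (rr_pos s).le, h1,
    Real.rpow_natCast]

lemma om_sq (s : ℝ) (i : ℕ) : (om s ^ i) ^ 2 = 1 / ((2:ℝ) ^ s) ^ i := by
  have h1 : om s ^ 2 = 1 / (2:ℝ) ^ s := by
    unfold om
    rw [sq, ← Real.mul_rpow (by norm_num) (by norm_num)]
    rw [show (1/2:ℝ) * (1/2) = (1/2) ^ (2:ℝ) by norm_num, ← Real.rpow_mul (by norm_num),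
      show 2 * (s / 2) = s by ring, Real.div_rpow (by norm_num) (by norm_num), Real.one_rpow]
  rw [← pow_mul, mul_comm, pow_mul, h1, one_div_pow]

lemma min_le {z a b w : ℝ} (hw : 0 ≤ w) (ha : 0 ≤ a) (hb : 0 ≤ b) (h1 : z ≤ w * a ^ 2)
    (h2 : z ≤ w * b ^ 2) : z ≤ w * (a * b) := by
  rcases le_total a b with h | h
  · refine h1.trans (mul_le_mul_of_nonneg_left ?_ hw)
    nlinarith
  · refine h2.trans (mul_le_mul_of_nonneg_left ?_ hw)
    nlinarith

/-- bound for the sum of the weights of the classes -/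
noncomputable def zz (s : ℝ) : ℝ := (1 / (1 - rr s)) * (2 / (1 - rr s))

lemma zz_pos {s : ℝ} (hs : 0 < s) : 0 < zz s := by
  have := rr_lt hs
  have : 0 < 1 - rr s := by linarith
  unfold zz; positivity

/-- **The testing theorem**: a one-sided bump gives the testing condition. -/
theorem Bump.testing {s η : ℝ} {S : Finset (Finset X)} {m μ ν : X → ℝ} {ρ : Finset X → ℝ}
    (h : Bump s η S m μ ν ρ) (R : Finset X) (hR : ∀ Q ∈ S, Q ⊆ R) (C0 : ℝ)
    (hC0 : 0 ≤ C0)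
    (hB3 : ∑ Q ∈ S, (∑ x ∈ Q, μ x) / ρ Q ^ s ≤ C0 * ∑ x ∈ R, μ x) :
    ∑ x ∈ R, ν x * (∑ Q ∈ S with x ∈ Q, (1 / ∑ y ∈ Q, m y) * ∑ y ∈ Q, μ y) ^ (s + 1) ≤
      (4 * zz s) ^ (s + 1) * (3 * C0 + ee s) * ∑ x ∈ R, μ x := by
  classical
  have hS := h.lam
  have hs0 := h.hs
  have hs1 : 0 < s + 1 := by linarith
  have hee := ee_pos hs0
  have hex := fun Q (hQ : Q ∈ S) => exists_rec hS (kk m μ) hQ
  choose! π hπ using hex
  have hen := h.energy R hR C0 hC0 hB3 π hπ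
  set k : Finset X → ℤ := kk m μ with hk
  set M := ∑ x ∈ R, μ x with hM
  have hM0 : 0 ≤ M := Finset.sum_nonneg (fun x _ => h.hμ x)
  set I := S.sup (fun P => (k (π P) - k P).toNat) + 1 with hI
  set G := S.sup (fun P => (anc S π k P).card) + 1 with hG
  set D := range I ×ˢ range G with hD
  set idx : Finset X → ℕ × ℕ := fun P => ((k (π P) - k P).toNat, (anc S π k P).card) with hidx
  have hidxD : ∀ P ∈ S, idx P ∈ D := by
    intro P hP
    rw [hD, Finset.mem_product, Finset.mem_range, Finset.mem_range]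
    constructor
    · exact Nat.lt_succ_of_le (Finset.le_sup (f := fun P => (k (π P) - k P).toNat) hP)
    · exact Nat.lt_succ_of_le (Finset.le_sup (f := fun P => (anc S π k P).card) hP)
  set F : ℕ × ℕ → X → ℝ := fun p x => ∑ Q ∈ cls S π k p.1 p.2 with x ∈ Q, (2:ℝ) ^ k Q with hF
  have hcls : ∀ p : ℕ × ℕ, cls S π k p.1 p.2 = S.filter (fun P => idx P = p) := by
    intro p
    unfold cls
    apply Finset.filter_congr
    intro P _
    simp only [hidx, Prod.ext_iff]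
  have hpt1 : ∀ x, ∑ Q ∈ S with x ∈ Q, (1 / ∑ y ∈ Q, m y) * ∑ y ∈ Q, μ y ≤
      2 * ∑ p ∈ D, F p x := by
    intro x
    have e1 : ∑ p ∈ D, F p x = ∑ Q ∈ S with x ∈ Q, (2:ℝ) ^ k Q := by
      rw [← Finset.sum_fiberwise_of_maps_to (s := S.filter (fun Q => x ∈ Q)) (t := D) (g := idx)
        (fun Q hQ => hidxD Q (Finset.mem_filter.1 hQ).1)]
      apply Finset.sum_congr rfl
      intro p _
      simp only [hF]
      rw [hcls]
      apply Finset.sum_congr _ (fun _ _ => rfl)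
      rw [Finset.filter_filter, Finset.filter_filter]
      apply Finset.filter_congr
      intro Q _
      exact and_comm
    rw [e1, Finset.mul_sum]
    apply Finset.sum_le_sum
    intro Q _
    have := le_kk m μ Q
    unfold av at this
    rw [one_div, inv_mul_eq_div]
    exact this
  have hF0 : ∀ p x, 0 ≤ F p x := fun p x => Finset.sum_nonneg (fun Q _ => by positivity)
  have hpt2 : ∀ p x, F p x ^ (s + 1) ≤
      2 ^ (s + 1) * ∑ Q ∈ cls S π k p.1 p.2 with x ∈ Q, ((2:ℝ) ^ k Q) ^ (s + 1) := by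
    intro p x
    have hg := geo3 (s := 1) (t := s + 1) ((cls S π k p.1 p.2).filter (fun Q => x ∈ Q)) k ?_
      one_pos hs1
    · have g1 : gc 1 = 2 := by unfold gc; norm_num
      simp only [Real.rpow_one, one_mul, g1] at hg
      exact hg
    intro P hP Q hQ hPQ
    simp only [Finset.mem_filter] at hP hQ
    have hP' := mem_cls.1 hP.1
    have hQ' := mem_cls.1 hQ.1
    have h1 := hπ P hP'.1
    have h2 := hπ Q hQ'.1
    have hkk : k (π P) = k (π Q) := by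
      have a1 := h1.2.2.1
      have a2 := h2.2.2.1
      have a3 := hP'.2.1
      have a4 := hQ'.2.1
      omega
    have hππ : π P = π Q := by
      rcases hS.comp h1.1.1 h2.1.1 (h1.2.1 hP.2) (h2.2.1 hQ.2) with h3 | h3
      · rcases eq_or_ssubset_of_subset h3 with h3 | h3
        · exact h3
        · have := h1.1.2 _ h2.1.1 h3
          omega
      · have := h2.1.2 _ h1.1.1 h3
        omega
    exact class_disj S hS π k hP'.1 hQ'.1 hππ hPQ (hP'.2.2.trans hQ'.2.2.symm) hP.2 hQ.2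
  -- the weights of the classes
  have hr0 := rr_pos s
  have hr1 := rr_lt hs0
  have ho0 := om_pos s
  set lm : ℕ × ℕ → ℝ := fun p => rr s ^ (p.1 + p.2 / 2) with hlm
  have hlm0 : ∀ p, 0 < lm p := fun p => by simp only [hlm]; positivity
  set Z : ℝ := ∑ p ∈ D, lm p with hZ
  have hDne : D.Nonempty := ⟨(0, 0), by simp [hD, hI, hG]⟩
  have hZ0 : 0 < Z := Finset.sum_pos (fun p _ => hlm0 p) hDne
  have hZz : Z ≤ zz s := geo_prod hr0.le hr1 I G
  set w : ℕ × ℕ → ℝ := fun p => lm p / Z with hw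
  have hw0 : ∀ p, 0 < w p := fun p => div_pos (hlm0 p) hZ0
  have hw1 : ∑ p ∈ D, w p = 1 := by
    simp only [hw]
    rw [← Finset.sum_div, div_self hZ0.ne']
  have hpt3 : ∀ x, (∑ Q ∈ S with x ∈ Q, (1 / ∑ y ∈ Q, m y) * ∑ y ∈ Q, μ y) ^ (s + 1) ≤
      ∑ p ∈ D, (w p * (4 / w p) ^ (s + 1)) *
        ∑ Q ∈ cls S π k p.1 p.2 with x ∈ Q, ((2:ℝ) ^ k Q) ^ (s + 1) := by
    intro x
    have h0 : 0 ≤ ∑ Q ∈ S with x ∈ Q, (1 / ∑ y ∈ Q, m y) * ∑ y ∈ Q, μ y := by
      apply Finset.sum_nonneg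
      intro Q _
      have a1 : 0 ≤ ∑ y ∈ Q, m y := Finset.sum_nonneg (fun x _ => h.hm x)
      have a2 : 0 ≤ ∑ y ∈ Q, μ y := Finset.sum_nonneg (fun x _ => h.hμ x)
      positivity
    have e1 : 2 * ∑ p ∈ D, F p x = ∑ p ∈ D, w p * ((2 / w p) * F p x) := by
      rw [Finset.mul_sum]
      apply Finset.sum_congr rfl
      intro p _
      have := (hw0 p).ne'
      field_simp
    have e2 := Real.rpow_arith_mean_le_arith_mean_rpow D w (fun p => (2 / w p) * F p x)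
      (fun p _ => (hw0 p).le) hw1
      (fun p _ => mul_nonneg (div_nonneg (by norm_num) (hw0 p).le) (hF0 p x))
      (p := s + 1) (by linarith)
    calc _ ≤ (2 * ∑ p ∈ D, F p x) ^ (s + 1) := Real.rpow_le_rpow h0 (hpt1 x) hs1.le
      _ = (∑ p ∈ D, w p * ((2 / w p) * F p x)) ^ (s + 1) := by rw [e1]
      _ ≤ ∑ p ∈ D, w p * ((2 / w p) * F p x) ^ (s + 1) := e2
      _ ≤ _ := by
          apply Finset.sum_le_sum
          intro p _
          rw [mul_assoc]
          apply mul_le_mul_of_nonneg_left _ (hw0 p).le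
          have hwp := hw0 p
          rw [Real.mul_rpow (by positivity) (hF0 p x)]
          have e3 : (4 / w p) ^ (s + 1) = (2 / w p) ^ (s + 1) * 2 ^ (s + 1) := by
            rw [← Real.mul_rpow (by positivity) (by norm_num)]
            congr 1; ring
          rw [e3, mul_assoc]
          exact mul_le_mul_of_nonneg_left (hpt2 p x) (by positivity)
  set K := (3 * C0 + ee s) * M with hK
  have hK0 : 0 ≤ K := by positivity
  have hCK : C0 * M ≤ K := by
    rw [hK, add_mul]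
    have q1 := mul_nonneg hC0 hM0
    have q2 := mul_nonneg hee.le hM0
    linarith
  have hE : ∀ p ∈ D, (w p * (4 / w p) ^ (s + 1)) *
      (∑ Q ∈ cls S π k p.1 p.2, ((2:ℝ) ^ k Q) ^ (s + 1) * ∑ x ∈ Q, ν x) ≤
      w p * ((4 * Z) ^ (s + 1) * K) := by
    intro p _
    obtain ⟨e1, e2⟩ := hen p.1 p.2
    set E := ∑ Q ∈ cls S π k p.1 p.2, ((2:ℝ) ^ k Q) ^ (s + 1) * ∑ x ∈ Q, ν x with hEdef
    have hE0 : 0 ≤ E := Finset.sum_nonneg (fun Q _ => mul_nonneg (by positivity)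
      (Finset.sum_nonneg (fun x _ => h.hν x)))
    have e3 : E ≤ K * (om s ^ p.1) ^ 2 := by
      rw [om_sq, mul_one_div, le_div_iff₀ (by positivity)]
      have a1 : ((2:ℝ) ^ s) ^ p.1 ≤ ((2:ℝ) ^ p.1) ^ (s + 1) := by
        rw [Real.rpow_add_one (by positivity)]
        have a2 : ((2:ℝ) ^ p.1) ^ s = ((2:ℝ) ^ s) ^ p.1 := by
          rw [← Real.rpow_natCast, ← Real.rpow_mul (by norm_num), mul_comm,
            Real.rpow_mul (by norm_num), Real.rpow_natCast]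
        rw [a2]
        have a3 : (1:ℝ) ≤ 2 ^ p.1 := one_le_pow₀ (by norm_num)
        exact le_mul_of_one_le_right (by positivity) a3
      have a4 := mul_le_mul_of_nonneg_right a1 hE0
      linarith
    have e4 : E ≤ K * (om s ^ (p.2 / 2)) ^ 2 := by
      rw [om_sq, mul_one_div, le_div_iff₀ (by positivity)]
      linarith
    have e5 := min_le hK0 (by positivity) (by positivity) e3 e4
    rw [← pow_add] at e5
    have e6 : (4 / w p) ^ (s + 1) = (4 * Z) ^ (s + 1) / om s ^ (p.1 + p.2 / 2) := by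
      have : 4 / w p = (4 * Z) / lm p := by
        simp only [hw]; field_simp
      rw [this, Real.div_rpow (by positivity) (hlm0 p).le]
      congr 1
      exact rr_pow hs0 _
    rw [e6, mul_assoc]
    apply mul_le_mul_of_nonneg_left _ (hw0 p).le
    rw [div_mul_eq_mul_div, div_le_iff₀ (by positivity), mul_assoc]
    exact mul_le_mul_of_nonneg_left e5 (by positivity)
  have h5 : ∑ x ∈ R, ν x * (∑ Q ∈ S with x ∈ Q, (1 / ∑ y ∈ Q, m y) * ∑ y ∈ Q, μ y) ^ (s + 1) ≤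
      ∑ x, ν x * (∑ p ∈ D, (w p * (4 / w p) ^ (s + 1)) *
        ∑ Q ∈ cls S π k p.1 p.2 with x ∈ Q, ((2:ℝ) ^ k Q) ^ (s + 1)) := by
    refine (Finset.sum_le_sum (fun x _ => mul_le_mul_of_nonneg_left (hpt3 x) (h.hν x))).trans ?_
    apply Finset.sum_le_sum_of_subset_of_nonneg (Finset.subset_univ _)
    intro x _ _
    apply mul_nonneg (h.hν x)
    apply Finset.sum_nonneg
    intro p _
    have hwp := hw0 p
    apply mul_nonneg (by positivity)
    exact Finset.sum_nonneg (fun Q _ => by positivity)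
  have h6 : ∑ x, ν x * (∑ p ∈ D, (w p * (4 / w p) ^ (s + 1)) *
        ∑ Q ∈ cls S π k p.1 p.2 with x ∈ Q, ((2:ℝ) ^ k Q) ^ (s + 1)) =
      ∑ p ∈ D, (w p * (4 / w p) ^ (s + 1)) *
      (∑ Q ∈ cls S π k p.1 p.2, ((2:ℝ) ^ k Q) ^ (s + 1) * ∑ x ∈ Q, ν x) := by
    have a1 : ∀ p : ℕ × ℕ, ∑ Q ∈ cls S π k p.1 p.2, ((2:ℝ) ^ k Q) ^ (s + 1) * ∑ x ∈ Q, ν x =
        ∑ x, (∑ Q ∈ cls S π k p.1 p.2 with x ∈ Q, ((2:ℝ) ^ k Q) ^ (s + 1)) * ν x :=
      fun p => sum_swap _ _ _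
    simp_rw [a1]
    simp_rw [Finset.mul_sum (s := D)]
    rw [Finset.sum_comm]
    apply Finset.sum_congr rfl
    intro p _
    rw [Finset.mul_sum]
    apply Finset.sum_congr rfl
    intro x _
    ring
  rw [h6] at h5
  refine h5.trans ?_
  refine (Finset.sum_le_sum hE).trans ?_
  rw [← Finset.sum_mul, hw1, one_mul, mul_assoc]
  apply mul_le_mul_of_nonneg_right _ hK0
  exact Real.rpow_le_rpow (by positivity) (by linarith) hs1.le

/-- the testing constant -/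
noncomputable def tt (s C0 : ℝ) : ℝ := (4 * zz s) ^ (s + 1) * (3 * C0 + ee s)

lemma tt_nonneg {s C0 : ℝ} (hs : 0 < s) (hC0 : 0 ≤ C0) : 0 ≤ tt s C0 := by
  have := zz_pos hs
  have := ee_pos hs
  unfold tt; positivity

/-- constant of the discrete theorem -/
noncomputable def dd (p q C0 : ℝ) : ℝ :=
  2 * ((cc p + cc q) * (tt (p - 1) C0 + tt (q - 1) C0 + 1) + 1)

lemma dd_pos {p q C0 : ℝ} (h : p.HolderConjugate q) (hC0 : 0 ≤ C0) : 0 < dd p q C0 := by
  have h1 := tt_nonneg (s := p - 1) (by linarith [h.lt]) hC0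
  have h2 := tt_nonneg (s := q - 1) (by linarith [h.symm.lt]) hC0
  have h3 := cc_pos h.lt
  have h4 := cc_pos h.symm.lt
  unfold dd; positivity

/-- The discrete separated bump theorem. -/
theorem discreteSep {S : Finset (Finset X)} {m μ ν : X → ℝ} {ρ₁ ρ₂ : Finset X → ℝ} {p q η : ℝ}
    (hpq : p.HolderConjugate q)
    (h₁ : Bump (p - 1) η S m μ ν ρ₁) (h₂ : Bump (q - 1) η S m ν μ ρ₂) (C0 : ℝ) (hC0 : 0 ≤ C0)
    (hB3 : ∀ R ∈ S, ∑ Q ∈ S with Q ⊆ R, (∑ x ∈ Q, μ x) / ρ₁ Q ^ (p - 1) ≤ C0 * ∑ x ∈ R, μ x)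
    (hB3' : ∀ R ∈ S, ∑ Q ∈ S with Q ⊆ R, (∑ x ∈ Q, ν x) / ρ₂ Q ^ (q - 1) ≤ C0 * ∑ x ∈ R, ν x)
    (f g : X → ℝ) (hf : ∀ x, 0 ≤ f x) (hg : ∀ x, 0 ≤ g x) :
    ∑ Q ∈ S, (1 / ∑ y ∈ Q, m y) * ((∑ x ∈ Q, f x * μ x) * (∑ x ∈ Q, g x * ν x)) ≤
      dd p q C0 * (∑ x, f x ^ p * μ x + ∑ x, g x ^ q * ν x) := by
  classical
  have key : ∀ (s : ℝ) (μ ν : X → ℝ) (ρ : Finset X → ℝ), Bump s η S m μ ν ρ →
      (∀ R ∈ S, ∑ Q ∈ S with Q ⊆ R, (∑ x ∈ Q, μ x) / ρ Q ^ s ≤ C0 * ∑ x ∈ R, μ x) →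
      ∀ R ∈ S, ∀ S' ⊆ S, (∀ Q ∈ S', Q ⊆ R) →
      ∑ x ∈ R, ν x * (∑ Q ∈ S' with x ∈ Q, (1 / ∑ y ∈ Q, m y) * ∑ y ∈ Q, μ y) ^ (s + 1) ≤
        tt s C0 * ∑ x ∈ R, μ x := by
    intro s μ ν ρ h hb R hR S' hS' hQR
    apply (h.mono hS').testing R hQR C0 hC0
    refine le_trans ?_ (hb R hR)
    apply Finset.sum_le_sum_of_subset_of_nonneg
    · intro Q hQ
      simp only [Finset.mem_filter]
      exact ⟨hS' hQ, hQR Q hQ⟩
    · intro Q hQ _
      simp only [Finset.mem_filter] at hQ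
      exact div_nonneg (Finset.sum_nonneg (fun x _ => h.hμ x))
        (Real.rpow_nonneg (h.ρ0 hQ.1).le _)
  have t1 := tt_nonneg h₁.hs hC0
  have t2 := tt_nonneg h₂.hs hC0
  have k1 := key (p - 1) μ ν ρ₁ h₁ hB3
  have k2 := key (q - 1) ν μ ρ₂ h₂ hB3'
  simp only [sub_add_cancel] at k1 k2
  exact dyadicT1 S h₁.lam μ ν f g (fun Q => 1 / ∑ y ∈ Q, m y) hpq h₁.hμ h₁.hν hf hg
    (fun Q hQ => by have := h₁.mpos Q hQ; positivity) h₁.μpos h₂.μpos
    (tt (p - 1) C0 + tt (q - 1) C0) (by positivity)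
    (fun R hR S' hS' hQ => (k1 R hR S' hS' hQ).trans (mul_le_mul_of_nonneg_right (by linarith)
      (Finset.sum_nonneg (fun x _ => h₁.hμ x))))
    (fun R hR S' hS' hQ => (k2 R hR S' hS' hQ).trans (mul_le_mul_of_nonneg_right (by linarith)
      (Finset.sum_nonneg (fun x _ => h₁.hν x))))

end Pool.Agent.KS6_4.SB
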